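import Mathlib

/-!
# One-sided weights

The coefficients of `(1 - z)^(-1/2)` and the one-sided bound for the corresponding cosine sums with
phase `π / 4`.
-/

open Filter
open scoped Real

namespace Pool.Agent.Helper53.OM

noncomputable section

/-- the coefficients of `(1 - z)^(-1/2)` -/
def cw : ℕ → ℝ
  | 0 => 1
  | (n + 1) => cw n * ((2 * n + 1) / (2 * n + 2))

lemma cw_zero : cw 0 = 1 := rfl

lemma cw_succ (n : ℕ) : cw (n + 1) = cw n * ((2 * n + 1) / (2 * n + 2)) := rfl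

lemma cw_pos (n : ℕ) : 0 < cw n := by
  induction n with
  | zero => rw [cw_zero]; norm_num
  | succ n ih => rw [cw_succ]; positivity

lemma cw_le_one (n : ℕ) : cw n ≤ 1 := by
  induction n with
  | zero => rw [cw_zero]
  | succ n ih =>
    rw [cw_succ]
    refine mul_le_one₀ ih (by positivity) ?_
    rw [div_le_one (by positivity)]
    linarith

lemma cw_lower (n : ℕ) (hn : 1 ≤ n) : 1 / (2 * √(n : ℝ)) ≤ cw n := by
  have h1 : 1 ≤ cw n ^ 2 * (4 * n) := by
    induction n, hn using Nat.le_induction with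
    | base => rw [cw_succ, cw_zero]; norm_num
    | succ n hn ih =>
      have hn0 : (0 : ℝ) < n := by exact_mod_cast hn
      rw [cw_succ]
      have e : (cw n * ((2 * n + 1) / (2 * n + 2))) ^ 2 * (4 * ((n + 1 : ℕ) : ℝ))
          = cw n ^ 2 * (4 * n) * ((2 * n + 1) ^ 2 / (4 * n * (n + 1))) := by
        push_cast
        field_simp
        ring
      rw [e]
      have h2 : 1 ≤ (2 * (n : ℝ) + 1) ^ 2 / (4 * n * (n + 1)) := by
        rw [le_div_iff₀ (by positivity)]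
        nlinarith
      nlinarith
  have hn0 : (0 : ℝ) < n := by exact_mod_cast hn
  have hs : 0 < √(n : ℝ) := Real.sqrt_pos.mpr hn0
  have hs2 : √(n : ℝ) ^ 2 = n := Real.sq_sqrt hn0.le
  rw [div_le_iff₀ (by positivity)]
  have h3 : 1 ≤ (cw n * (2 * √(n : ℝ))) ^ 2 := by
    calc 1 ≤ cw n ^ 2 * (4 * n) := h1
      _ = (cw n * (2 * √(n : ℝ))) ^ 2 := by rw [mul_pow, mul_pow, hs2]; ring
  have h4 : 0 ≤ cw n * (2 * √(n : ℝ)) := by have := cw_pos n; positivity
  nlinarith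

lemma cw_eq (n : ℕ) : Ring.choose ((1 / 2 : ℂ) + n - 1) n = (cw n : ℂ) := by
  rw [← Ring.multichoose_eq]
  have h1 : ∀ n : ℕ, (n.factorial : ℂ) * Ring.multichoose (1 / 2 : ℂ) n
      = (ascPochhammer ℂ n).eval (1 / 2) := by
    intro n
    have h := Ring.factorial_nsmul_multichoose_eq_ascPochhammer (1 / 2 : ℂ) n
    rw [Polynomial.ascPochhammer_smeval_eq_eval] at h
    rw [← h, nsmul_eq_mul]
  have h2 : ∀ n : ℕ, (ascPochhammer ℂ n).eval (1 / 2) = (n.factorial : ℂ) * (cw n : ℂ) := by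
    intro n
    induction n with
    | zero => simp [cw_zero]
    | succ n ih =>
      rw [ascPochhammer_succ_right, Polynomial.eval_mul, ih, Nat.factorial_succ, cw_succ]
      simp only [Polynomial.eval_add, Polynomial.eval_X, Polynomial.eval_natCast]
      push_cast
      have : (2 * (n : ℂ) + 2) ≠ 0 := by
        exact_mod_cast (Nat.cast_ne_zero (R := ℂ)).mpr (show 2 * n + 2 ≠ 0 by omega)
      have h3 : ((n : ℂ) + 1) * ((2 * n + 1) / (2 * n + 2)) = 1 / 2 + n := by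
        field_simp
        ring
      linear_combination (-(n.factorial : ℂ) * (cw n : ℂ)) * h3
  have h3 := h1 n
  rw [h2 n] at h3
  have h4 : (n.factorial : ℂ) ≠ 0 := by exact_mod_cast n.factorial_ne_zero
  exact mul_left_cancel₀ h4 h3

lemma hasSum_cw {x : ℂ} (hx : ‖x‖ < 1) :
    HasSum (fun n : ℕ => (cw n : ℂ) * x ^ n) (1 / (1 - x) ^ (1 / 2 : ℂ)) := by
  have h := Complex.one_div_one_sub_cpow_hasFPowerSeriesOnBall_zero (1 / 2)
  have h2 := h.hasSum (y := x) (by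
    rw [Metric.mem_eball, edist_zero_right, ← ofReal_norm]
    rw [← ENNReal.ofReal_one]
    exact (ENNReal.ofReal_lt_ofReal_iff one_pos).mpr hx)
  simp only [zero_add] at h2
  have h3 : (fun n : ℕ => (cw n : ℂ) * x ^ n) = fun n : ℕ =>
      (FormalMultilinearSeries.ofScalars ℂ fun n : ℕ => Ring.choose ((1 / 2 : ℂ) + n - 1) n) n
        fun _ => x := by
    funext n
    rw [FormalMultilinearSeries.ofScalars_apply_eq, cw_eq, smul_eq_mul]
  rw [h3]
  exact h2

/-- The one-sided property. -/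
lemma re_rot_nonneg {x : ℂ} (hx : ‖x‖ < 1) :
    0 ≤ (Complex.exp ((π / 4 : ℝ) * Complex.I) * (1 / (1 - x) ^ (1 / 2 : ℂ))).re := by
  have hre : 0 < (1 - x).re := by
    have := (Complex.re_le_norm x)
    simp
    linarith
  have hne : (1 - x) ≠ 0 := by
    intro h
    rw [h] at hre
    simp at hre
  have h1 : 1 / (1 - x) ^ (1 / 2 : ℂ) = Complex.exp (-(1 / 2) * Complex.log (1 - x)) := by
    rw [Complex.cpow_def_of_ne_zero hne, one_div, ← Complex.exp_neg]
    congr 1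
    ring
  rw [h1, ← Complex.exp_add, Complex.exp_re]
  refine mul_nonneg (Real.exp_pos _).le (Real.cos_nonneg_of_mem_Icc ?_)
  have h2 := Complex.abs_arg_lt_pi_div_two_iff.mpr (Or.inl hre)
  rw [abs_lt] at h2
  have h3 : (((π / 4 : ℝ) : ℂ) * Complex.I + -(1 / 2) * Complex.log (1 - x)).im
      = π / 4 - 1 / 2 * (1 - x).arg := by
    have e1 : (-(1 / 2) * Complex.log (1 - x)).im = -(1 / 2) * (Complex.log (1 - x)).im := by
      have : (-(1 / 2) : ℂ) = ((-(1 / 2) : ℝ) : ℂ) := by push_cast; ring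
      rw [this, Complex.im_ofReal_mul]
    rw [Complex.add_im, e1, Complex.log_im, Complex.mul_im]
    simp
    ring
  rw [h3]
  have := Real.pi_pos
  constructor <;> linarith

/-- the weights with parameter `r` -/
def wr (r : ℝ) (l : ℕ) : ℝ := cw l * r ^ l

lemma wr_nonneg {r : ℝ} (hr : 0 ≤ r) (l : ℕ) : 0 ≤ wr r l :=
  mul_nonneg (cw_pos l).le (pow_nonneg hr l)

lemma wr_le {r : ℝ} (hr : 0 ≤ r) (l : ℕ) : wr r l ≤ r ^ l := by
  unfold wr
  exact mul_le_of_le_one_left (pow_nonneg hr l) (cw_le_one l)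

lemma summable_wr {r : ℝ} (hr : 0 ≤ r) (hr1 : r < 1) : Summable (wr r) :=
  Summable.of_nonneg_of_le (wr_nonneg hr) (wr_le hr) (summable_geometric_of_lt_one hr hr1)

lemma tsum_wr {r : ℝ} (hr : 0 ≤ r) (hr1 : r < 1) : ∑' l, wr r l = 1 / √(1 - r) := by
  have h := hasSum_cw (x := (r : ℂ)) (by
    rw [Complex.norm_real, Real.norm_of_nonneg hr]; exact hr1)
  have h1 : (1 / (1 - (r : ℂ)) ^ (1 / 2 : ℂ)) = ((1 / √(1 - r) : ℝ) : ℂ) := by
    have h2 : (1 - (r : ℂ)) = ((1 - r : ℝ) : ℂ) := by push_cast; ring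
    have h3 : (1 / 2 : ℂ) = ((1 / 2 : ℝ) : ℂ) := by push_cast; ring
    rw [h2, h3, ← Complex.ofReal_cpow (by linarith), Real.sqrt_eq_rpow]
    push_cast
    ring
  rw [h1] at h
  have h4 : HasSum (wr r) (1 / √(1 - r)) := by
    have h5 : ∀ l, ((wr r l : ℝ) : ℂ) = (cw l : ℂ) * (r : ℂ) ^ l := by
      intro l; unfold wr; push_cast; ring
    simp_rw [← h5] at h
    exact Complex.hasSum_ofReal.mp h
  exact h4.tsum_eq

/-- the cosine series is nonnegative -/
lemma tsum_cos_nonneg {r : ℝ} (hr : 0 ≤ r) (hr1 : r < 1) (θ : ℝ) :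
    0 ≤ ∑' l : ℕ, wr r l * Real.cos (2 * π * l * θ + π / 4) := by
  set x : ℂ := r * Complex.exp (((2 * π * θ : ℝ) : ℂ) * Complex.I) with hx
  have hxn : ‖x‖ < 1 := by
    rw [hx, norm_mul, Complex.norm_real, Real.norm_of_nonneg hr, Complex.norm_exp_ofReal_mul_I,
      mul_one]
    exact hr1
  have h := (hasSum_cw hxn).mul_left (Complex.exp ((π / 4 : ℝ) * Complex.I))
  have h1 := Complex.hasSum_re h
  have h2 : ∀ l : ℕ, (Complex.exp ((π / 4 : ℝ) * Complex.I) * ((cw l : ℂ) * x ^ l)).re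
      = wr r l * Real.cos (2 * π * l * θ + π / 4) := by
    intro l
    have e1 : Complex.exp ((π / 4 : ℝ) * Complex.I) * ((cw l : ℂ) * x ^ l)
        = ((wr r l : ℝ) : ℂ) * Complex.exp (((2 * π * l * θ + π / 4 : ℝ) : ℂ) * Complex.I) := by
      rw [hx, mul_pow, ← Complex.exp_nat_mul, wr]
      push_cast
      rw [show (2 * (π : ℂ) * l * θ + π / 4) * Complex.I
        = (π / 4) * Complex.I + l * (2 * π * θ * Complex.I) by ring, Complex.exp_add]
      ring
    rw [e1, Complex.re_ofReal_mul, Complex.exp_ofReal_mul_I_re]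
  simp_rw [h2] at h1
  rw [h1.tsum_eq]
  exact re_rot_nonneg hxn

/-- the sum of the weights -/
def WL (L : ℕ) : ℝ := ∑ l ∈ Finset.Icc 1 (L ^ 2), wr (1 - 1 / L) l

/-- the cosine polynomial -/
def TL (L : ℕ) (θ : ℝ) : ℝ :=
  ∑ l ∈ Finset.Icc 1 (L ^ 2), wr (1 - 1 / L) l * Real.cos (2 * π * l * θ + π / 4)

lemma rL {L : ℕ} (hL : 2 ≤ L) : 0 ≤ 1 - 1 / (L : ℝ) ∧ 1 - 1 / (L : ℝ) < 1 := by
  have h1 : (2 : ℝ) ≤ L := by exact_mod_cast hL
  constructor
  · rw [sub_nonneg, div_le_one (by linarith)]; linarith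
  · have : 0 < 1 / (L : ℝ) := by positivity
    linarith

lemma WL_le {L : ℕ} (hL : 2 ≤ L) : WL L ≤ √L := by
  obtain ⟨h0, h1⟩ := rL hL
  have h2 : WL L ≤ ∑' l, wr (1 - 1 / L) l := by
    unfold WL
    exact (summable_wr h0 h1).sum_le_tsum _ (fun l _ => wr_nonneg h0 l)
  rw [tsum_wr h0 h1] at h2
  have h3 : 1 / √(1 - (1 - 1 / (L : ℝ))) = √L := by
    rw [show 1 - (1 - 1 / (L : ℝ)) = 1 / L by ring, Real.sqrt_div zero_le_one, Real.sqrt_one]
    simp
  rwa [h3] at h2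

lemma one_sub_pow_lower {L : ℕ} (hL : 2 ≤ L) : (1 / 8 : ℝ) ≤ (1 - 1 / (L : ℝ)) ^ L := by
  have hLr : (2 : ℝ) ≤ L := by exact_mod_cast hL
  have hy : 0 < 1 - 1 / (L : ℝ) := by
    rw [sub_pos, div_lt_one (by linarith)]; linarith
  have h1 := Real.one_sub_inv_le_log_of_pos hy
  have h2 : 1 - (1 - 1 / (L : ℝ))⁻¹ = -(1 / (L - 1)) := by
    have : (L : ℝ) - 1 ≠ 0 := by
      have : (0 : ℝ) < L - 1 := by linarith
      exact this.ne'
    field_simp
    ring
  rw [h2] at h1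
  have h3 : -2 ≤ L * Real.log (1 - 1 / (L : ℝ)) := by
    have h4 : (L : ℝ) * (1 / (L - 1)) ≤ 2 := by
      rw [mul_one_div, div_le_iff₀ (by linarith)]
      linarith
    nlinarith
  have h5 : (1 - 1 / (L : ℝ)) ^ L = Real.exp (L * Real.log (1 - 1 / (L : ℝ))) := by
    rw [← Real.log_pow, Real.exp_log (pow_pos hy L)]
  rw [h5]
  have h6 : (1 / 8 : ℝ) ≤ Real.exp (-2) := by
    rw [Real.exp_neg, one_div]
    apply inv_anti₀ (Real.exp_pos 2)
    have h7 := Real.exp_one_lt_d9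
    have h8 : Real.exp 2 = Real.exp 1 * Real.exp 1 := by rw [← Real.exp_add]; norm_num
    rw [h8]
    have := Real.exp_pos 1
    nlinarith
  exact h6.trans (Real.exp_le_exp.mpr h3)

lemma sqrt_sum_lower (L : ℕ) : √(L : ℝ) ≤ ∑ l ∈ Finset.Icc 1 L, 1 / √(l : ℝ) := by
  rcases Nat.eq_zero_or_pos L with rfl | hL
  · simp
  have hL0 : (0 : ℝ) < L := by exact_mod_cast hL
  calc √(L : ℝ) = ∑ l ∈ Finset.Icc 1 L, 1 / √(L : ℝ) := by
        rw [Finset.sum_const, Nat.card_Icc, nsmul_eq_mul, Nat.add_sub_cancel]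
        have := Real.mul_self_sqrt hL0.le
        have hs : √(L : ℝ) ≠ 0 := (Real.sqrt_pos.mpr hL0).ne'
        field_simp
        nlinarith
    _ ≤ _ := by
        refine Finset.sum_le_sum fun l hl => ?_
        rw [Finset.mem_Icc] at hl
        have h1 : (0 : ℝ) < l := by exact_mod_cast hl.1
        apply one_div_le_one_div_of_le (Real.sqrt_pos.mpr h1)
        exact Real.sqrt_le_sqrt (by exact_mod_cast hl.2)

lemma WL_lower {L : ℕ} (hL : 2 ≤ L) : √L / 16 ≤ WL L := by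
  obtain ⟨h0, h1⟩ := rL hL
  have h2 : ∑ l ∈ Finset.Icc 1 L, wr (1 - 1 / L) l ≤ WL L := by
    unfold WL
    refine Finset.sum_le_sum_of_subset_of_nonneg ?_ fun l _ _ => wr_nonneg h0 l
    refine Finset.Icc_subset_Icc le_rfl ?_
    nlinarith
  refine le_trans ?_ h2
  have h3 : ∀ l ∈ Finset.Icc 1 L, 1 / 16 * (1 / √(l : ℝ)) ≤ wr (1 - 1 / L) l := by
    intro l hl
    rw [Finset.mem_Icc] at hl
    have h4 := cw_lower l hl.1
    have h5 : (1 / 8 : ℝ) ≤ (1 - 1 / (L : ℝ)) ^ l :=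
      (one_sub_pow_lower hL).trans (pow_le_pow_of_le_one h0 h1.le hl.2)
    have h6 : 0 ≤ 1 / (2 * √(l : ℝ)) := by positivity
    calc 1 / 16 * (1 / √(l : ℝ)) = 1 / (2 * √(l : ℝ)) * (1 / 8) := by
          field_simp
          norm_num
      _ ≤ wr (1 - 1 / L) l := by
          unfold wr
          exact mul_le_mul h4 h5 (by norm_num) (cw_pos l).le
  have h7 := Finset.sum_le_sum h3
  rw [← Finset.mul_sum] at h7
  have h8 := sqrt_sum_lower L
  linarith

/-- the one-sided lower bound for the cosine polynomial -/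
lemma TL_lower {L : ℕ} (hL : 2 ≤ L) (θ : ℝ) : -2 ≤ TL L θ := by
  obtain ⟨h0, h1⟩ := rL hL
  have hLr : (2 : ℝ) ≤ L := by exact_mod_cast hL
  set r : ℝ := 1 - 1 / (L : ℝ) with hr
  have hs : Summable (fun l : ℕ => wr r l * Real.cos (2 * π * l * θ + π / 4)) := by
    refine Summable.of_norm_bounded (summable_wr h0 h1) fun l => ?_
    rw [norm_mul, Real.norm_of_nonneg (wr_nonneg h0 l), Real.norm_eq_abs]
    exact mul_le_of_le_one_right (wr_nonneg h0 l) (Real.abs_cos_le_one _)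
  have h2 := tsum_cos_nonneg h0 h1 θ
  rw [← hs.sum_add_tsum_nat_add (L ^ 2 + 1)] at h2
  have h3 : ∑ l ∈ Finset.range (L ^ 2 + 1), wr r l * Real.cos (2 * π * l * θ + π / 4)
      = wr r 0 * Real.cos (π / 4) + TL L θ := by
    rw [Finset.sum_range_succ', add_comm, TL]
    congr 1
    · simp
    · rw [Finset.range_eq_Ico, Finset.sum_Ico_add' (fun l : ℕ => wr r l * Real.cos (2 * π * l * θ + π / 4)) 0 (L ^ 2) 1]
      rfl
  rw [h3] at h2
  have h4 : wr r 0 * Real.cos (π / 4) ≤ 1 := by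
    have : wr r 0 = 1 := by simp [wr, cw_zero]
    rw [this, one_mul]
    exact Real.cos_le_one _
  have h5 : ∑' l : ℕ, wr r (l + (L ^ 2 + 1)) * Real.cos (2 * π * ((l + (L ^ 2 + 1) : ℕ) : ℝ) * θ + π / 4)
      ≤ 1 := by
    have hg := (summable_geometric_of_lt_one h0 h1).mul_left (r ^ (L ^ 2 + 1))
    have h6 : ∀ l : ℕ, wr r (l + (L ^ 2 + 1)) *
        Real.cos (2 * π * ((l + (L ^ 2 + 1) : ℕ) : ℝ) * θ + π / 4) ≤ r ^ (L ^ 2 + 1) * r ^ l := by
      intro l
      calc _ ≤ wr r (l + (L ^ 2 + 1)) * 1 :=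
            mul_le_mul_of_nonneg_left (Real.cos_le_one _) (wr_nonneg h0 _)
        _ ≤ r ^ (l + (L ^ 2 + 1)) := by rw [mul_one]; exact wr_le h0 _
        _ = _ := by rw [add_comm, pow_add]
    have h7 := (((summable_nat_add_iff (L ^ 2 + 1)).mpr hs)).tsum_le_tsum h6 hg
    refine h7.trans ?_
    rw [tsum_mul_left, tsum_geometric_of_lt_one h0 h1]
    have h8 : (1 - r)⁻¹ = L := by rw [hr]; simp
    rw [h8]
    -- `r ^ (L^2+1) ≤ exp (-L) ≤ 1 / L`
    have h9 : r ^ (L ^ 2 + 1) ≤ r ^ (L ^ 2) := pow_le_pow_of_le_one h0 h1.le (Nat.le_succ _)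
    have h10 : r ^ (L ^ 2) ≤ Real.exp (-L) := by
      have h11 : r ≤ Real.exp (-(1 / (L : ℝ))) := by
        have := Real.add_one_le_exp (-(1 / (L : ℝ)))
        linarith
      calc r ^ (L ^ 2) ≤ (Real.exp (-(1 / (L : ℝ)))) ^ (L ^ 2) := pow_le_pow_left₀ h0 h11 _
        _ = Real.exp (-L) := by
            rw [← Real.exp_nat_mul]
            congr 1
            push_cast
            field_simp
    have h12 : Real.exp (-L) * L ≤ 1 := by
      rw [Real.exp_neg, inv_mul_le_iff₀ (Real.exp_pos _), mul_one]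
      have := Real.add_one_le_exp (L : ℝ)
      linarith
    calc r ^ (L ^ 2 + 1) * (L : ℝ) ≤ Real.exp (-L) * L := by
          gcongr
          exact h9.trans h10
      _ ≤ 1 := h12
  linarith

/-- near the integers the cosine polynomial is large -/
lemma TL_near {L : ℕ} (hL : 2 ≤ L) {θ : ℝ} {a : ℤ} (h : |θ - a| ≤ 1 / (16 * (L : ℝ) ^ 2)) :
    WL L / 3 ≤ TL L θ := by
  obtain ⟨h0, h1⟩ := rL hL
  have hLr : (2 : ℝ) ≤ L := by exact_mod_cast hL
  unfold WL TL
  rw [Finset.sum_div]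
  refine Finset.sum_le_sum fun l hl => ?_
  rw [Finset.mem_Icc] at hl
  rw [div_eq_mul_one_div]
  refine mul_le_mul_of_nonneg_left ?_ (wr_nonneg h0 l)
  have hl2 : (l : ℝ) ≤ (L : ℝ) ^ 2 := by exact_mod_cast hl.2
  have hl0 : (0 : ℝ) ≤ l := Nat.cast_nonneg l
  set x : ℝ := l * (θ - a) with hx
  have hxa : |x| ≤ 1 / 16 := by
    rw [hx, abs_mul, abs_of_nonneg hl0]
    calc (l : ℝ) * |θ - a| ≤ (L : ℝ) ^ 2 * (1 / (16 * (L : ℝ) ^ 2)) :=
          mul_le_mul hl2 h (abs_nonneg _) (by positivity)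
      _ = 1 / 16 := by field_simp
  have h2 : Real.cos (2 * π * l * θ + π / 4) = Real.cos (2 * π * x + π / 4) := by
    have e : 2 * π * l * θ + π / 4 = (2 * π * x + π / 4) + ((l * a : ℤ) : ℝ) * (2 * π) := by
      rw [hx]; push_cast; ring
    rw [e, Real.cos_add_int_mul_two_pi]
  rw [h2]
  have hπ := Real.pi_pos
  rw [abs_le] at hxa
  have h3 : |2 * π * x + π / 4| ≤ 3 * π / 8 := by
    rw [abs_le]
    constructor <;> nlinarith
  have h4 : Real.cos (3 * π / 8) ≤ Real.cos (2 * π * x + π / 4) := by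
    rw [← Real.cos_abs (2 * π * x + π / 4)]
    exact Real.cos_le_cos_of_nonneg_of_le_pi (abs_nonneg _) (by linarith) h3
  refine le_trans ?_ h4
  -- `cos (3π/8) = sin (π/8) ≥ 1/3`
  have h5 : Real.cos (3 * π / 8) = Real.sin (π / 8) := by
    rw [← Real.cos_pi_div_two_sub]
    congr 1
    ring
  rw [h5]
  have h6 := Real.sin_gt_sub_cube (x := π / 8) (by positivity)
  have h7 := Real.pi_gt_d2
  have h8 := Real.pi_lt_d2
  obtain ⟨y, hy⟩ : ∃ y : ℝ, y = π / 8 := ⟨_, rfl⟩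
  rw [← hy] at h6 ⊢
  have hy1 : 0.39 < y := by rw [hy]; linarith
  have hy2 : y < 0.4 := by rw [hy]; linarith
  have hy3 : y ^ 3 ≤ 0.4 ^ 3 := pow_le_pow_left₀ (by linarith) hy2.le 3
  norm_num at hy1 hy2 hy3
  linarith

end

end Pool.Agent.Helper53.OM
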