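import Mathlib
import Pool.Agent.Helper22.GC.Bridge

/-!
# Sums over the numbers of representations
-/

open Filter
open scoped Real

namespace Pool.Agent.Helper53.OM

open Pool.Agent.Helper22.GC

noncomputable section

lemma sum_gr_le (K : ℕ) : ∑ j ∈ Finset.Icc 1 K, (gr j : ℝ) ≤ 9 * K := by
  classical
  rcases Nat.eq_zero_or_pos K with rfl | hK
  · simp
  have h1 : ∑ j ∈ Finset.Icc 1 K, (gr j : ℝ) = ((dk K).card : ℝ) := by
    rw [Finset.card_eq_sum_ones, sum_dk]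
    push_cast
    refine Finset.sum_congr rfl fun j _ => ?_
    rw [← card_rep2]
    simp
  rw [h1]
  have hs1 : 1 ≤ Nat.sqrt K := by rw [Nat.le_sqrt]; omega
  have hs2 : Nat.sqrt K * Nat.sqrt K ≤ K := Nat.sqrt_le K
  have h2 : dk K ⊆ box (Nat.sqrt K) := by
    intro v hv
    rw [mem_dk] at hv
    rw [mem_box]
    have key : ∀ m : ℤ, m ^ 2 ≤ (K : ℤ) → -(Nat.sqrt K : ℤ) ≤ m ∧ m ≤ (Nat.sqrt K : ℤ) := by
      intro m hm
      have h3 : m.natAbs ≤ Nat.sqrt K := by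
        rw [Nat.le_sqrt, ← Int.ofNat_le]
        push_cast
        rw [← sq, sq_abs]
        exact hm
      omega
    intro i
    fin_cases i
    · exact key (v 0) (by nlinarith [sq_nonneg (v 1), hv.2])
    · exact key (v 1) (by nlinarith [sq_nonneg (v 0), hv.2])
  have h3 := Finset.card_le_card h2
  have h4 : (box (Nat.sqrt K)).card = (2 * Nat.sqrt K + 1) ^ 2 := by
    rw [box, Fintype.card_piFinset]
    simp only [Int.card_Icc, Finset.prod_const, Finset.card_univ, Fintype.card_fin]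
    congr 1
    omega
  rw [h4] at h3
  have h5 : (2 * Nat.sqrt K + 1) ^ 2 ≤ 9 * K := by nlinarith
  exact_mod_cast h3.trans h5

lemma abel_comp {a b φ : ℕ → ℝ} (hab : ∀ n, ∑ j ∈ Finset.range n, a j ≤ ∑ j ∈ Finset.range n, b j)
    (hφ : Antitone φ) (hφ0 : ∀ n, 0 ≤ φ n) (n : ℕ) :
    ∑ j ∈ Finset.range n, a j * φ j ≤ ∑ j ∈ Finset.range n, b j * φ j := by
  have key : ∀ n : ℕ, φ n * ∑ j ∈ Finset.range n, (b j - a j) ≤
      ∑ j ∈ Finset.range n, (b j - a j) * φ j := by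
    intro n
    induction n with
    | zero => simp
    | succ n ih =>
      have h1 : 0 ≤ ∑ j ∈ Finset.range (n + 1), (b j - a j) := by
        rw [Finset.sum_sub_distrib]; linarith [hab (n + 1)]
      have h2 : φ (n + 1) ≤ φ n := hφ (Nat.le_succ n)
      calc φ (n + 1) * ∑ j ∈ Finset.range (n + 1), (b j - a j)
          ≤ φ n * ∑ j ∈ Finset.range (n + 1), (b j - a j) := mul_le_mul_of_nonneg_right h2 h1
        _ = φ n * ∑ j ∈ Finset.range n, (b j - a j) + (b n - a n) * φ n := by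
            rw [Finset.sum_range_succ]; ring
        _ ≤ _ := by rw [Finset.sum_range_succ]; linarith
  have h1 := key n
  have h2 : 0 ≤ φ n * ∑ j ∈ Finset.range n, (b j - a j) := by
    refine mul_nonneg (hφ0 n) ?_
    rw [Finset.sum_sub_distrib]; linarith [hab n]
  have h3 : ∑ j ∈ Finset.range n, (b j - a j) * φ j
      = ∑ j ∈ Finset.range n, b j * φ j - ∑ j ∈ Finset.range n, a j * φ j := by
    rw [← Finset.sum_sub_distrib]
    exact Finset.sum_congr rfl fun j _ => by ring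
  linarith

lemma sum_gr_phi {φ : ℕ → ℝ} (hφ : ∀ m n : ℕ, 1 ≤ m → m ≤ n → φ n ≤ φ m) (hφ0 : ∀ n, 0 ≤ φ n)
    (T : ℕ) : ∑ K ∈ Finset.Icc 1 T, (gr K : ℝ) * φ K ≤ 9 * ∑ K ∈ Finset.Icc 1 T, φ K := by
  have hIcc : ∀ (f : ℕ → ℝ) (n : ℕ), ∑ K ∈ Finset.Icc 1 n, f K = ∑ j ∈ Finset.range n, f (j + 1) := by
    intro f n
    rw [Finset.range_eq_Ico, Finset.sum_Ico_add' f 0 n 1]
    rfl
  rw [hIcc, hIcc, Finset.mul_sum]
  refine abel_comp (a := fun j => (gr (j + 1) : ℝ)) (b := fun _ => 9) (φ := fun j => φ (j + 1))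
    ?_ ?_ (fun n => hφ0 _) T
  · intro n
    rw [← hIcc (fun K => (gr K : ℝ)) n]
    refine (sum_gr_le n).trans ?_
    simp [mul_comm]
  · intro m n hmn
    exact hφ _ _ (by omega) (by omega)

/-- `K^{1/4} - (K-1)^{1/4} ≥ K^{-3/4}/4` -/
lemma quarter_step {K : ℕ} (hK : 1 ≤ K) :
    (K : ℝ) ^ (-(3 / 4) : ℝ) ≤ 4 * ((K : ℝ) ^ (1 / 4 : ℝ) - ((K - 1 : ℕ) : ℝ) ^ (1 / 4 : ℝ)) := by
  have hK1 : (1 : ℝ) ≤ K := by exact_mod_cast hK
  have hK0 : (0 : ℝ) < K := by linarith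
  have h1 : ((K - 1 : ℕ) : ℝ) = K * (1 + -(1 / K)) := by
    rw [Nat.cast_sub hK]; field_simp; simp; ring
  have h2 : (1 + -(1 / (K : ℝ))) ^ (1 / 4 : ℝ) ≤ 1 + (1 / 4) * -(1 / K) := by
    apply rpow_one_add_le_one_add_mul_self
    · have : 1 / (K : ℝ) ≤ 1 := by rw [div_le_one hK0]; exact hK1
      linarith
    · norm_num
    · norm_num
  have h3 : 0 ≤ 1 + -(1 / (K : ℝ)) := by
    have : 1 / (K : ℝ) ≤ 1 := by rw [div_le_one hK0]; exact hK1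
    linarith
  rw [h1, Real.mul_rpow hK0.le h3]
  have h4 : (K : ℝ) ^ (-(3 / 4) : ℝ) = (K : ℝ) ^ (1 / 4 : ℝ) * (1 / K) := by
    rw [one_div (K : ℝ), ← Real.rpow_neg_one, ← Real.rpow_add hK0]
    norm_num
  rw [h4]
  have h5 : 0 < (K : ℝ) ^ (1 / 4 : ℝ) := Real.rpow_pos_of_pos hK0 _
  nlinarith

lemma sum_low (N : ℕ) : ∑ K ∈ Finset.Icc 1 N, (K : ℝ) ^ (-(3 / 4) : ℝ) ≤ 4 * (N : ℝ) ^ (1 / 4 : ℝ) := by
  induction N with
  | zero => simp
  | succ N ih =>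
    rw [Finset.sum_Icc_succ_top (by omega)]
    have := quarter_step (K := N + 1) (by omega)
    rw [Nat.add_sub_cancel] at this
    linarith

/-- `K^{-5/4}/4 ≤ (K-1)^{-1/4} - K^{-1/4}` -/
lemma quarter_step' {K : ℕ} (hK : 2 ≤ K) :
    (K : ℝ) ^ (-(5 / 4) : ℝ) ≤
      4 * (((K - 1 : ℕ) : ℝ) ^ (-(1 / 4) : ℝ) - (K : ℝ) ^ (-(1 / 4) : ℝ)) := by
  have hK1 : (2 : ℝ) ≤ K := by exact_mod_cast hK
  have hK0 : (0 : ℝ) < K := by linarith
  have hJ0 : (0 : ℝ) < ((K - 1 : ℕ) : ℝ) := by exact_mod_cast (by omega : 0 < K - 1)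
  have hJK : ((K - 1 : ℕ) : ℝ) ≤ K := by exact_mod_cast (by omega : K - 1 ≤ K)
  have h := quarter_step (K := K) (by omega)
  set u : ℝ := (K : ℝ) ^ (1 / 4 : ℝ) with hu
  set v : ℝ := ((K - 1 : ℕ) : ℝ) ^ (1 / 4 : ℝ) with hv
  have hu0 : 0 < u := Real.rpow_pos_of_pos hK0 _
  have hv0 : 0 < v := Real.rpow_pos_of_pos hJ0 _
  have hvu : v ≤ u := Real.rpow_le_rpow hJ0.le hJK (by norm_num)
  have e1 : ((K - 1 : ℕ) : ℝ) ^ (-(1 / 4) : ℝ) = 1 / v := by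
    rw [Real.rpow_neg hJ0.le, one_div v]
  have e2 : (K : ℝ) ^ (-(1 / 4) : ℝ) = 1 / u := by
    rw [Real.rpow_neg hK0.le, one_div u]
  have e3 : (K : ℝ) ^ (-(5 / 4) : ℝ) = (K : ℝ) ^ (-(3 / 4) : ℝ) * (1 / (u * u)) := by
    rw [hu, ← Real.rpow_add hK0, one_div, ← Real.rpow_neg hK0.le, ← Real.rpow_add hK0]
    norm_num
  rw [e1, e2, e3]
  have h6 : 1 / v - 1 / u = (u - v) * (1 / (v * u)) := by field_simp
  rw [h6]
  have h7 : 1 / (u * u) ≤ 1 / (v * u) := by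
    apply one_div_le_one_div_of_le (by positivity)
    nlinarith
  calc (K : ℝ) ^ (-(3 / 4) : ℝ) * (1 / (u * u)) ≤ (4 * (u - v)) * (1 / (v * u)) :=
        mul_le_mul h h7 (by positivity) (by nlinarith)
    _ = _ := by ring

lemma sum_high {N : ℕ} (hN : 1 ≤ N) (T : ℕ) :
    ∑ K ∈ Finset.Ioc N T, (K : ℝ) ^ (-(5 / 4) : ℝ) ≤ 4 * (N : ℝ) ^ (-(1 / 4) : ℝ) := by
  have key : ∀ T : ℕ, N ≤ T → ∑ K ∈ Finset.Ioc N T, (K : ℝ) ^ (-(5 / 4) : ℝ) ≤
      4 * ((N : ℝ) ^ (-(1 / 4) : ℝ) - (T : ℝ) ^ (-(1 / 4) : ℝ)) := by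
    intro T hT
    induction T, hT using Nat.le_induction with
    | base => simp
    | succ T hT ih =>
      rw [← Finset.insert_Ioc_right_eq_Ioc_add_one (by omega), Finset.sum_insert (by simp)]
      have := quarter_step' (K := T + 1) (by omega)
      rw [Nat.add_sub_cancel] at this
      linarith
  rcases le_total N T with h | h
  · have h1 := key T h
    have h2 : 0 ≤ (T : ℝ) ^ (-(1 / 4) : ℝ) := Real.rpow_nonneg (Nat.cast_nonneg T) _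
    linarith
  · rw [Finset.Ioc_eq_empty (by omega)]
    simp
    exact Real.rpow_nonneg (Nat.cast_nonneg N) _

/-- the majorant of the smoothed coefficients -/
def phN (N : ℕ) (K : ℕ) : ℝ :=
  min ((K : ℝ) ^ (-(3 / 4) : ℝ)) (√(2 * N) * (K : ℝ) ^ (-(5 / 4) : ℝ))

lemma phN_nonneg (N K : ℕ) : 0 ≤ phN N K := by
  unfold phN
  have h1 := Real.rpow_nonneg (Nat.cast_nonneg K : (0 : ℝ) ≤ K) (-(3 / 4) : ℝ)
  have h2 := Real.rpow_nonneg (Nat.cast_nonneg K : (0 : ℝ) ≤ K) (-(5 / 4) : ℝ)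
  exact le_min h1 (mul_nonneg (Real.sqrt_nonneg _) h2)

lemma phN_anti (N m n : ℕ) (hm : 1 ≤ m) (hmn : m ≤ n) : phN N n ≤ phN N m := by
  have hm0 : (0 : ℝ) < m := by exact_mod_cast hm
  have hmn' : (m : ℝ) ≤ n := by exact_mod_cast hmn
  unfold phN
  refine min_le_min ?_ ?_
  · exact Real.rpow_le_rpow_of_nonpos hm0 hmn' (by norm_num)
  · exact mul_le_mul_of_nonneg_left (Real.rpow_le_rpow_of_nonpos hm0 hmn' (by norm_num))
      (Real.sqrt_nonneg _)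

lemma sum_phN {N : ℕ} (hN : 1 ≤ N) (T : ℕ) :
    ∑ K ∈ Finset.Icc 1 T, phN N K ≤ 10 * (N : ℝ) ^ (1 / 4 : ℝ) := by
  have hN0 : (0 : ℝ) < N := by exact_mod_cast hN
  have h1 : ∑ K ∈ Finset.Icc 1 T, phN N K ≤ ∑ K ∈ Finset.Icc 1 N, phN N K
      + ∑ K ∈ Finset.Ioc N T, phN N K := by
    rw [← Finset.sum_union]
    · refine Finset.sum_le_sum_of_subset_of_nonneg ?_ fun K _ _ => phN_nonneg N K
      intro K hK
      rw [Finset.mem_Icc] at hK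
      rw [Finset.mem_union, Finset.mem_Icc, Finset.mem_Ioc]
      omega
    · rw [Finset.disjoint_left]
      intro K hK hK'
      rw [Finset.mem_Icc] at hK
      rw [Finset.mem_Ioc] at hK'
      omega
  have h2 : ∑ K ∈ Finset.Icc 1 N, phN N K ≤ 4 * (N : ℝ) ^ (1 / 4 : ℝ) :=
    (Finset.sum_le_sum fun K _ => min_le_left _ _).trans (sum_low N)
  have h3 : ∑ K ∈ Finset.Ioc N T, phN N K ≤ √(2 * N) * (4 * (N : ℝ) ^ (-(1 / 4) : ℝ)) := by
    refine (Finset.sum_le_sum fun K _ => min_le_right _ _).trans ?_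
    rw [← Finset.mul_sum]
    exact mul_le_mul_of_nonneg_left (sum_high hN T) (Real.sqrt_nonneg _)
  have h4 : √(2 * N) * (4 * (N : ℝ) ^ (-(1 / 4) : ℝ)) ≤ 6 * (N : ℝ) ^ (1 / 4 : ℝ) := by
    rw [Real.sqrt_mul (by norm_num), Real.sqrt_eq_rpow (N : ℝ)]
    have e : (N : ℝ) ^ (1 / 2 : ℝ) * (N : ℝ) ^ (-(1 / 4) : ℝ) = (N : ℝ) ^ (1 / 4 : ℝ) := by
      rw [← Real.rpow_add hN0]; norm_num
    have h5 : √2 ≤ 3 / 2 := by
      rw [Real.sqrt_le_left (by norm_num)]; norm_num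
    have h6 : 0 ≤ (N : ℝ) ^ (1 / 4 : ℝ) := Real.rpow_nonneg hN0.le _
    calc √2 * (N : ℝ) ^ (1 / 2 : ℝ) * (4 * (N : ℝ) ^ (-(1 / 4) : ℝ))
        = 4 * √2 * ((N : ℝ) ^ (1 / 2 : ℝ) * (N : ℝ) ^ (-(1 / 4) : ℝ)) := by ring
      _ = 4 * √2 * (N : ℝ) ^ (1 / 4 : ℝ) := by rw [e]
      _ ≤ 6 * (N : ℝ) ^ (1 / 4 : ℝ) := by
          apply mul_le_mul_of_nonneg_right _ h6
          linarith
  linarith

lemma sum_gr_phN {N : ℕ} (hN : 1 ≤ N) (T : ℕ) :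
    ∑ K ∈ Finset.Icc 1 T, (gr K : ℝ) * phN N K ≤ 90 * (N : ℝ) ^ (1 / 4 : ℝ) := by
  have h1 := sum_gr_phi (φ := phN N) (phN_anti N) (phN_nonneg N) T
  have h2 := sum_phN hN T
  linarith

/-- a coefficient with a factor at most `min 1 (2 N / K)` is bounded by the majorant -/
lemma le_phN {N K : ℕ} (hK : 1 ≤ K) {s : ℝ} (h1 : s ≤ 1) (h2 : s ≤ 2 * N / K) :
    (K : ℝ) ^ (-(3 / 4) : ℝ) * s ≤ phN N K := by
  have hK0 : (0 : ℝ) < K := by exact_mod_cast hK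
  have hp : 0 ≤ (K : ℝ) ^ (-(3 / 4) : ℝ) := Real.rpow_nonneg hK0.le _
  unfold phN
  refine le_min (mul_le_of_le_one_right hp h1) ?_
  have h3 : s ≤ √(2 * N) * (K : ℝ) ^ (-(1 / 2) : ℝ) := by
    have h4 : √(2 * N) * (K : ℝ) ^ (-(1 / 2) : ℝ) = √(2 * N / K) := by
      rw [Real.sqrt_div (by positivity), Real.rpow_neg hK0.le, Real.sqrt_eq_rpow (K : ℝ)]
      exact (div_eq_mul_inv _ _).symm
    rw [h4]
    have hx0 : 0 ≤ 2 * (N : ℝ) / K := by positivity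
    rcases le_total (2 * (N : ℝ) / K) 1 with h | h
    · refine h2.trans ?_
      apply Real.le_sqrt_of_sq_le
      nlinarith
    · refine h1.trans ?_
      apply Real.le_sqrt_of_sq_le
      nlinarith
  calc (K : ℝ) ^ (-(3 / 4) : ℝ) * s
      ≤ (K : ℝ) ^ (-(3 / 4) : ℝ) * (√(2 * N) * (K : ℝ) ^ (-(1 / 2) : ℝ)) :=
        mul_le_mul_of_nonneg_left h3 hp
    _ = √(2 * N) * ((K : ℝ) ^ (-(3 / 4) : ℝ) * (K : ℝ) ^ (-(1 / 2) : ℝ)) := by ring
    _ = _ := by rw [← Real.rpow_add hK0]; norm_num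

end

end Pool.Agent.Helper53.OM
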