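import Mathlib
import Pool.Agent.Helper53.OM.Sums

/-!
# The smoothed Hardy series and its local averages
-/

open Filter MeasureTheory Set
open scoped Real Topology

namespace Pool.Agent.Helper53.OM

open Pool.Agent.Helper22.GC

noncomputable section

/-- the smoothed coefficients -/
def aK (δ : ℝ) (K : ℕ) : ℝ := aw δ K * (K : ℝ) ^ (-(3 / 4) : ℝ)

lemma aK_nonneg (δ : ℝ) (K : ℕ) : 0 ≤ aK δ K :=
  mul_nonneg (aw_nonneg δ K) (Real.rpow_nonneg (Nat.cast_nonneg K) _)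

lemma aK_zero (δ : ℝ) : aK δ 0 = 0 := by
  unfold aK
  rw [Nat.cast_zero, Real.zero_rpow (by norm_num), mul_zero]

lemma aK_le {δ : ℝ} (hδ : 0 < δ) {N K : ℕ} (h : 1 / δ ^ 2 ≤ 2 * N) (hK : 1 ≤ K) :
    aK δ K ≤ gr K * phN N K := by
  have hK0 : (0 : ℝ) < K := by exact_mod_cast hK
  have hgr : (0 : ℝ) ≤ gr K := Nat.cast_nonneg _
  have hs : aw δ K ≤ gr K * min (1 : ℝ) (2 * N / K) := by
    rw [mul_min_of_nonneg _ _ hgr]
    refine le_min (by rw [mul_one]; exact aw_le δ K) ((aw_upper hδ hK).trans ?_)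
    refine mul_le_mul_of_nonneg_left ?_ hgr
    exact div_le_div_of_nonneg_right h hK0.le
  have h1 := le_phN (N := N) hK (min_le_left (1 : ℝ) (2 * N / K)) (min_le_right (1 : ℝ) (2 * (N : ℝ) / K))
  have hp : 0 ≤ (K : ℝ) ^ (-(3 / 4) : ℝ) := Real.rpow_nonneg hK0.le _
  calc aK δ K ≤ (gr K * min (1 : ℝ) (2 * N / K)) * (K : ℝ) ^ (-(3 / 4) : ℝ) :=
        mul_le_mul_of_nonneg_right hs hp
    _ = gr K * ((K : ℝ) ^ (-(3 / 4) : ℝ) * min (1 : ℝ) (2 * N / K)) := by ring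
    _ ≤ _ := mul_le_mul_of_nonneg_left h1 hgr

lemma summable_of_sum_Icc {f : ℕ → ℝ} (hf : ∀ n, 0 ≤ f n) (hf0 : f 0 = 0) {c : ℝ}
    (h : ∀ T : ℕ, ∑ K ∈ Finset.Icc 1 T, f K ≤ c) : Summable f ∧ ∑' n, f n ≤ c := by
  have h1 : ∀ n, ∑ i ∈ Finset.range n, f i ≤ c := by
    intro n
    rcases Nat.eq_zero_or_pos n with rfl | hn
    · simpa using h 0
    · obtain ⟨m, rfl⟩ := Nat.exists_eq_add_of_le' hn
      rw [Finset.sum_range_succ', hf0, add_zero]
      have : ∑ K ∈ Finset.Icc 1 m, f K = ∑ j ∈ Finset.range m, f (j + 1) := by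
        rw [Finset.range_eq_Ico, Finset.sum_Ico_add' f 0 m 1]
        rfl
      rw [← this]
      exact h m
  exact ⟨summable_of_sum_range_le hf h1, Real.tsum_le_of_sum_range_le hf h1⟩

lemma summable_aK {δ : ℝ} (hδ : 0 < δ) : Summable (aK δ) := by
  obtain ⟨N, hN⟩ := exists_nat_ge (max (1 / δ ^ 2) 1)
  have hN1 : 1 ≤ N := by
    have : (1 : ℝ) ≤ N := (le_max_right _ _).trans hN
    exact_mod_cast this
  have h : 1 / δ ^ 2 ≤ 2 * N := by
    have := (le_max_left _ _).trans hN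
    have : (0 : ℝ) ≤ N := Nat.cast_nonneg N
    linarith
  refine (summable_of_sum_Icc (aK_nonneg δ) (aK_zero δ) (c := 90 * (N : ℝ) ^ (1 / 4 : ℝ)) ?_).1
  intro T
  refine le_trans (Finset.sum_le_sum fun K hK => ?_) (sum_gr_phN hN1 T)
  rw [Finset.mem_Icc] at hK
  exact aK_le hδ h hK.1

/-- the smoothed Hardy series -/
def gI (δ R : ℝ) : ℝ := ∑' K : ℕ, aK δ K * (1 / π * Real.cos (2 * π * (R * √K) - 3 * π / 4))

lemma norm_term_le (δ : ℝ) (K : ℕ) (x : ℝ) : ‖aK δ K * (1 / π * Real.cos x)‖ ≤ aK δ K := by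
  rw [norm_mul, Real.norm_of_nonneg (aK_nonneg δ K), norm_mul, Real.norm_of_nonneg (by positivity)]
  refine mul_le_of_le_one_right (aK_nonneg δ K) ?_
  have h1 : 1 / π ≤ 1 := by
    rw [div_le_one Real.pi_pos]; linarith [Real.pi_gt_three]
  have h2 : ‖Real.cos x‖ ≤ 1 := Real.abs_cos_le_one _
  calc 1 / π * ‖Real.cos x‖ ≤ 1 * 1 := mul_le_mul h1 h2 (norm_nonneg _) zero_le_one
    _ = 1 := one_mul 1

lemma continuous_gI {δ : ℝ} (hδ : 0 < δ) : Continuous (gI δ) := by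
  refine continuous_tsum (u := aK δ) (fun K => ?_) (summable_aK hδ) fun K x => norm_term_le δ K _
  fun_prop

lemma four_re_V (δ : ℝ) (T : ℕ) (R : ℝ) : 4 * (g0 * V δ T R).re =
    ∑ K ∈ Finset.range (T + 1), aK δ K * (1 / π * Real.cos (2 * π * (R * √K) - 3 * π / 4)) := by
  rw [Finset.sum_range_succ', aK_zero, zero_mul, add_zero, V, Finset.mul_sum, Complex.re_sum,
    Finset.mul_sum]
  have hIcc : ∀ (f : ℕ → ℝ) (n : ℕ), ∑ K ∈ Finset.Icc 1 n, f K = ∑ j ∈ Finset.range n, f (j + 1) := by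
    intro f n
    rw [Finset.range_eq_Ico, Finset.sum_Ico_add' f 0 n 1]
    rfl
  rw [hIcc]
  refine Finset.sum_congr rfl fun k _ => ?_
  have h1 : g0 * (((aw δ (k + 1) * ((k + 1 : ℕ) : ℝ) ^ (-(3 / 4) : ℝ) : ℝ) : ℂ) * ee (R * √((k + 1 : ℕ) : ℝ)))
      = ((aK δ (k + 1) : ℝ) : ℂ) * (g0 * ee (R * √((k + 1 : ℕ) : ℝ))) := by
    rw [aK]; ring
  rw [h1, Complex.re_ofReal_mul]
  have h2 := four_re_g0_ee (R * √((k + 1 : ℕ) : ℝ))
  rw [← h2]
  ring

lemma tendsto_V {δ : ℝ} (hδ : 0 < δ) (R : ℝ) :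
    Tendsto (fun T : ℕ => 4 * (g0 * V δ T R).re) atTop (𝓝 (gI δ R)) := by
  have hs : Summable (fun K : ℕ => aK δ K * (1 / π * Real.cos (2 * π * (R * √K) - 3 * π / 4))) :=
    Summable.of_norm_bounded (summable_aK hδ) fun K => norm_term_le δ K _
  have h := hs.hasSum.tendsto_sum_nat
  have h1 := h.comp (tendsto_add_atTop_nat 1)
  refine h1.congr fun T => ?_
  exact (four_re_V δ T R).symm

/-- the smoothed remainder against the smoothed Hardy series -/
theorem gI_approx : ∃ C : ℝ, 0 < C ∧ ∀ (δ R : ℝ), 0 < δ → δ ≤ 1 / 2 → 0 < R →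
    |(Sm δ R - π * R ^ 2) - √R * gI δ R| ≤ C / √R := by
  obtain ⟨C, hC, h⟩ := PT_approx
  refine ⟨C, hC, fun δ R hδ hδ' hR => ?_⟩
  have h1 := tendsto_PT hδ hδ' hR
  have h2 : Tendsto (fun T : ℕ => ((√R * (4 * (g0 * V δ T R).re) : ℝ) : ℂ)) atTop
      (𝓝 ((√R * gI δ R : ℝ) : ℂ)) :=
    (Complex.continuous_ofReal.tendsto _).comp ((tendsto_V hδ R).const_mul (√R))
  have h3 := (h1.sub h2).norm
  have h4 := le_of_tendsto h3 (Eventually.of_forall fun T => h δ T R hR)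
  rw [← Complex.ofReal_sub, Complex.norm_real] at h4
  exact h4

/-- a lower bound for the error term gives a lower bound for the smoothed series -/
theorem gI_lower : ∃ C : ℝ, 0 < C ∧ ∀ (δ β X Y : ℝ), 0 < δ → δ ≤ 1 / 2 → 2 ≤ X → δ * Y ≤ 1 →
    (∀ R, X ≤ R → R ≤ Y → β * √R ≤ Pe R) →
    ∀ R, X + 1 ≤ R → R ≤ Y → min β (β / 2) - C ≤ gI δ R := by
  obtain ⟨C, hC, h⟩ := gI_approx
  refine ⟨C + 13, by linarith, ?_⟩
  intro δ β X Y hδ hδ' hX hδY hP R hR hRY
  have hR0 : 0 < R := by linarith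
  have hsR : 0 < √R := Real.sqrt_pos.mpr hR0
  have hsR1 : 1 ≤ √R := by rw [Real.one_le_sqrt]; linarith
  have hsq : √R * √R = R := Real.mul_self_sqrt hR0.le
  have h1 := hP (R - 2 * δ) (by linarith) (by linarith)
  have h2 := F_le_Sm (R := R - 2 * δ) (by linarith) hδ hδ'
  rw [sub_add_cancel] at h2
  have h3 := abs_le.mp (h δ R hδ hδ' hR0)
  rw [Pe] at h1
  -- `β √(R - 2 δ) ≤ √R gI + C / √R + 4 π δ R`
  have hπ := Real.pi_pos
  have h4 : β * √(R - 2 * δ) ≤ √R * gI δ R + C / √R + 4 * π * δ * R := by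
    have : π * (R - 2 * δ) ^ 2 = π * R ^ 2 - 4 * π * δ * R + 4 * π * δ ^ 2 := by ring
    have h5 : 0 ≤ 4 * π * δ ^ 2 := by positivity
    linarith [h3.1, h3.2]
  have h5 : C / √R ≤ C * √R := by
    rw [div_le_iff₀ hsR]
    nlinarith
  have h6 : 4 * π * δ * R ≤ 13 * √R := by
    have h7 : δ * R ≤ 1 := by nlinarith
    have h8 : 4 * π ≤ 13 := by linarith [Real.pi_lt_d2]
    calc 4 * π * δ * R = 4 * π * (δ * R) := by ring
      _ ≤ 13 * 1 := mul_le_mul h8 h7 (by positivity) (by norm_num)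
      _ ≤ 13 * √R := by linarith
  have h7 : min β (β / 2) * √R ≤ β * √(R - 2 * δ) := by
    have h8 : √(R - 2 * δ) ≤ √R := Real.sqrt_le_sqrt (by linarith)
    have h9 : √R / 2 ≤ √(R - 2 * δ) := by
      apply Real.le_sqrt_of_sq_le
      rw [div_pow, sq, hsq]
      linarith
    rcases le_total 0 β with hβ | hβ
    · calc min β (β / 2) * √R ≤ β / 2 * √R :=
            mul_le_mul_of_nonneg_right (min_le_right _ _) hsR.le
        _ = β * (√R / 2) := by ring
        _ ≤ _ := mul_le_mul_of_nonneg_left h9 hβ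
    · calc min β (β / 2) * √R ≤ β * √R :=
            mul_le_mul_of_nonneg_right (min_le_left _ _) hsR.le
        _ ≤ _ := mul_le_mul_of_nonpos_left h8 hβ
  have h8 : min β (β / 2) * √R ≤ √R * (gI δ R + (C + 13)) := by
    calc min β (β / 2) * √R ≤ √R * gI δ R + C / √R + 4 * π * δ * R := h7.trans h4
      _ ≤ √R * gI δ R + C * √R + 13 * √R := by linarith
      _ = _ := by ring
  rw [mul_comm] at h8
  have := le_of_mul_le_mul_left h8 hsR
  linarith

/-- the local average with the tent -/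
def Av (h : ℝ) (f : ℝ → ℝ) (t : ℝ) : ℝ :=
  ∫ u in (0 : ℝ)..h, (f (t + u) + f (t - u)) * ((1 - u / h) / h)

lemma le_Av {h : ℝ} (hh : 0 < h) {f : ℝ → ℝ} (hf : Continuous f) {t m : ℝ}
    (hm : ∀ x, t - h ≤ x → x ≤ t + h → m ≤ f x) : m ≤ Av h f t := by
  have h1 := tent_integral_zero hh
  have h2 : m = ∫ u in (0 : ℝ)..h, m * (2 * ((1 - u / h) / h)) := by
    rw [intervalIntegral.integral_const_mul, h1, mul_one]
  rw [h2]
  unfold Av
  refine intervalIntegral.integral_mono_on hh.le ?_ ?_ ?_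
  · apply Continuous.intervalIntegrable
    fun_prop
  · apply Continuous.intervalIntegrable
    fun_prop
  · intro u hu
    have h3 := hm (t + u) (by linarith [hu.1]) (by linarith [hu.2])
    have h4 := hm (t - u) (by linarith [hu.2]) (by linarith [hu.1])
    have h5 : 0 ≤ (1 - u / h) / h := by
      apply div_nonneg _ hh.le
      rw [sub_nonneg, div_le_one hh]
      exact hu.2
    calc m * (2 * ((1 - u / h) / h)) = (m + m) * ((1 - u / h) / h) := by ring
      _ ≤ _ := mul_le_mul_of_nonneg_right (by linarith) h5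

/-- the Fourier transform of the tent -/
def sK (h : ℝ) (K : ℕ) : ℝ := (Real.sin (π * √K * h) / (π * √K * h)) ^ 2

lemma sK_nonneg (h : ℝ) (K : ℕ) : 0 ≤ sK h K := sq_nonneg _

lemma Av_cos {h : ℝ} (hh : 0 < h) {a : ℝ} (ha : a ≠ 0) (b t : ℝ) :
    ∫ u in (0 : ℝ)..h, (Real.cos (a * (t + u) + b) + Real.cos (a * (t - u) + b)) * ((1 - u / h) / h)
      = Real.cos (a * t + b) * (Real.sin (a * h / 2) / (a * h / 2)) ^ 2 := by
  rw [← tent_integral_pos hh ha, ← intervalIntegral.integral_const_mul]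
  refine intervalIntegral.integral_congr fun u _ => ?_
  show _ = _
  have e1 : a * (t + u) + b = (a * t + b) + a * u := by ring
  have e2 : a * (t - u) + b = (a * t + b) - a * u := by ring
  simp only [e1, e2, Real.cos_add, Real.cos_sub]
  ring

lemma Av_gI {δ h : ℝ} (hδ : 0 < δ) (hh : 0 < h) (t : ℝ) :
    Av h (gI δ) t = ∑' K : ℕ, (aK δ K * sK h K) *
      (1 / π * Real.cos (2 * π * (t * √K) - 3 * π / 4)) := by
  have hsum : ∀ R : ℝ, HasSum (fun K : ℕ => aK δ K * (1 / π * Real.cos (2 * π * (R * √K) - 3 * π / 4)))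
      (gI δ R) := fun R =>
    (Summable.of_norm_bounded (summable_aK hδ) fun K => norm_term_le δ K _).hasSum
  have hw : ∀ u ∈ uIoc (0 : ℝ) h, |(1 - u / h) / h| ≤ 1 / h := by
    intro u hu
    rw [uIoc_of_le hh.le] at hu
    rw [abs_of_nonneg (div_nonneg (by rw [sub_nonneg, div_le_one hh]; exact hu.2) hh.le)]
    apply div_le_div_of_nonneg_right _ hh.le
    have : 0 ≤ u / h := div_nonneg hu.1.le hh.le
    linarith
  have h1 : HasSum (fun K : ℕ => ∫ u in (0 : ℝ)..h,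
      (aK δ K * (1 / π * Real.cos (2 * π * ((t + u) * √K) - 3 * π / 4)) +
        aK δ K * (1 / π * Real.cos (2 * π * ((t - u) * √K) - 3 * π / 4))) * ((1 - u / h) / h))
      (Av h (gI δ) t) := by
    unfold Av
    refine intervalIntegral.hasSum_integral_of_dominated_convergence
      (bound := fun K _ => 2 * aK δ K * (1 / h)) ?_ ?_ ?_ ?_ ?_
    · intro K
      apply Continuous.aestronglyMeasurable
      fun_prop
    · intro K
      refine Eventually.of_forall fun u hu => ?_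
      rw [norm_mul]
      refine mul_le_mul ?_ (hw u hu) (norm_nonneg _) (by have := aK_nonneg δ K; linarith)
      refine (norm_add_le _ _).trans ?_
      have := norm_term_le δ K (2 * π * ((t + u) * √K) - 3 * π / 4)
      have := norm_term_le δ K (2 * π * ((t - u) * √K) - 3 * π / 4)
      linarith
    · refine Eventually.of_forall fun u _ => ?_
      exact ((summable_aK hδ).mul_left 2).mul_right _
    · exact intervalIntegrable_const
    · refine Eventually.of_forall fun u _ => ?_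
      exact ((hsum (t + u)).add (hsum (t - u))).mul_right _
  rw [← h1.tsum_eq]
  refine tsum_congr fun K => ?_
  rcases Nat.eq_zero_or_pos K with rfl | hK
  · simp [aK_zero]
  have hK0 : (0 : ℝ) < K := by exact_mod_cast hK
  have hs : 0 < √(K : ℝ) := Real.sqrt_pos.mpr hK0
  have ha : 2 * π * √(K : ℝ) ≠ 0 := by have := Real.pi_pos; positivity
  have h2 := Av_cos hh ha (-(3 * π / 4)) t
  have h3 : ∀ u : ℝ, (aK δ K * (1 / π * Real.cos (2 * π * ((t + u) * √K) - 3 * π / 4)) +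
        aK δ K * (1 / π * Real.cos (2 * π * ((t - u) * √K) - 3 * π / 4))) * ((1 - u / h) / h)
      = (aK δ K * (1 / π)) * ((Real.cos (2 * π * √K * (t + u) + -(3 * π / 4)) +
        Real.cos (2 * π * √K * (t - u) + -(3 * π / 4))) * ((1 - u / h) / h)) := by
    intro u
    have e1 : 2 * π * ((t + u) * √K) - 3 * π / 4 = 2 * π * √K * (t + u) + -(3 * π / 4) := by ring
    have e2 : 2 * π * ((t - u) * √K) - 3 * π / 4 = 2 * π * √K * (t - u) + -(3 * π / 4) := by ring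
    rw [e1, e2]
    ring
  simp_rw [h3]
  rw [intervalIntegral.integral_const_mul, h2, sK]
  have e3 : 2 * π * √(K : ℝ) * h / 2 = π * √K * h := by ring
  have e4 : 2 * π * √(K : ℝ) * t + -(3 * π / 4) = 2 * π * (t * √K) - 3 * π / 4 := by ring
  rw [e3, e4]
  ring

lemma sK_le_one (h : ℝ) (K : ℕ) : sK h K ≤ 1 := by
  unfold sK
  rw [sq_le_one_iff_abs_le_one, abs_div]
  exact div_le_one_of_le₀ Real.abs_sin_le_abs (abs_nonneg _)

lemma sK_le {N K : ℕ} (hN : 1 ≤ N) (hK : 1 ≤ K) : sK (1 / (4 * √N)) K ≤ 2 * N / K := by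
  have hN0 : (0 : ℝ) < N := by exact_mod_cast hN
  have hK0 : (0 : ℝ) < K := by exact_mod_cast hK
  have hsN : 0 < √(N : ℝ) := Real.sqrt_pos.mpr hN0
  have hsK : 0 < √(K : ℝ) := Real.sqrt_pos.mpr hK0
  unfold sK
  rw [div_pow]
  have h1 : Real.sin (π * √K * (1 / (4 * √N))) ^ 2 ≤ 1 := Real.sin_sq_le_one _
  have h2 : (π * √K * (1 / (4 * √N))) ^ 2 = π ^ 2 * K / (16 * N) := by
    rw [mul_pow, mul_pow, Real.sq_sqrt hK0.le, div_pow, mul_pow, Real.sq_sqrt hN0.le]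
    ring
  rw [h2]
  have hπ : 3 ^ 2 ≤ π ^ 2 := pow_le_pow_left₀ (by norm_num) Real.pi_gt_three.le 2
  rw [div_le_iff₀ (by positivity)]
  refine h1.trans ?_
  have : 2 * (N : ℝ) / K * (π ^ 2 * K / (16 * N)) = π ^ 2 / 8 := by
    field_simp
    ring
  rw [this]
  linarith

lemma sK_lower {N K : ℕ} (hK : 1 ≤ K) (hKN : K ≤ N) : 2 / 5 ≤ sK (1 / (4 * √N)) K := by
  have hN0 : (0 : ℝ) < N := by exact_mod_cast (by omega : 0 < N)
  have hK0 : (0 : ℝ) < K := by exact_mod_cast hK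
  have hsN : 0 < √(N : ℝ) := Real.sqrt_pos.mpr hN0
  have hsK : 0 < √(K : ℝ) := Real.sqrt_pos.mpr hK0
  have hsKN : √(K : ℝ) ≤ √N := Real.sqrt_le_sqrt (by exact_mod_cast hKN)
  have hπ := Real.pi_pos
  unfold sK
  set x : ℝ := π * √K * (1 / (4 * √N)) with hx
  have hx0 : 0 < x := by positivity
  have hx1 : x ≤ π / 2 := by
    rw [hx, mul_one_div, div_le_div_iff₀ (by positivity) (by norm_num)]
    nlinarith
  have h1 := Real.mul_le_sin hx0.le hx1
  have h2 : 2 / π ≤ Real.sin x / x := by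
    rw [le_div_iff₀ hx0]
    exact h1
  have h3 : (0.634 : ℝ) ≤ 2 / π := by
    rw [le_div_iff₀ hπ]
    have := Real.pi_lt_d2
    norm_num at this ⊢
    linarith
  have h4 : (0.634 : ℝ) ≤ Real.sin x / x := h3.trans h2
  calc (2 / 5 : ℝ) ≤ 0.634 ^ 2 := by norm_num
    _ ≤ _ := pow_le_pow_left₀ (by norm_num) h4 2

end

end Pool.Agent.Helper53.OM
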