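import Mathlib

/-!
# Dirichlet's theorem on simultaneous approximation for real frequencies
-/

namespace Pool.Agent.Helper53.OM

theorem dirichlet (M : Finset ℕ) (α : ℕ → ℝ) (Q : ℕ) (hQ : 1 ≤ Q) (Y : ℝ) (hY : 0 < Y) :
    ∃ x : ℝ, Y ≤ x ∧ x ≤ Y * (Q : ℝ) ^ M.card ∧ ∀ K ∈ M, ∃ a : ℤ, |α K * x - a| ≤ 1 / Q := by
  classical
  have hQ0 : (0 : ℝ) < Q := by exact_mod_cast hQ
  -- the boxes
  let box : ℕ → ((K : ℕ) → K ∈ M → ℕ) := fun j K _ => ⌊Int.fract (α K * (j * Y)) * Q⌋₊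
  have hmaps : ∀ j ∈ Finset.range (Q ^ M.card + 1), box j ∈ M.pi (fun _ => Finset.range Q) := by
    intro j _
    rw [Finset.mem_pi]
    intro K hK
    rw [Finset.mem_range]
    show ⌊Int.fract (α K * (j * Y)) * Q⌋₊ < Q
    rw [Nat.floor_lt (mul_nonneg (Int.fract_nonneg _) hQ0.le)]
    calc Int.fract (α K * (j * Y)) * Q < 1 * Q := by
          exact mul_lt_mul_of_pos_right (Int.fract_lt_one _) hQ0
      _ = Q := one_mul _
  have hcard : (M.pi (fun _ => Finset.range Q)).card < (Finset.range (Q ^ M.card + 1)).card := by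
    rw [Finset.card_pi, Finset.card_range]
    simp
  obtain ⟨i, hi, j, hj, hij, hbox⟩ := Finset.exists_ne_map_eq_of_card_lt_of_maps_to hcard hmaps
  rw [Finset.mem_range] at hi hj
  -- the difference
  have key : ∀ i j : ℕ, i < j → j < Q ^ M.card + 1 → box i = box j →
      ∃ x : ℝ, Y ≤ x ∧ x ≤ Y * (Q : ℝ) ^ M.card ∧ ∀ K ∈ M, ∃ a : ℤ, |α K * x - a| ≤ 1 / Q := by
    intro i j hij hj hbox
    refine ⟨((j - i : ℕ) : ℝ) * Y, ?_, ?_, ?_⟩
    · have : (1 : ℝ) ≤ ((j - i : ℕ) : ℝ) := by exact_mod_cast (by omega : 1 ≤ j - i)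
      nlinarith
    · have : ((j - i : ℕ) : ℝ) ≤ (Q : ℝ) ^ M.card := by exact_mod_cast (by omega : j - i ≤ Q ^ M.card)
      nlinarith
    · intro K hK
      have h1 : ⌊Int.fract (α K * (i * Y)) * Q⌋₊ = ⌊Int.fract (α K * (j * Y)) * Q⌋₊ :=
        congrFun (congrFun hbox K) hK
      set u := Int.fract (α K * (i * Y)) * Q with hu
      set v := Int.fract (α K * (j * Y)) * Q with hv
      have hu0 : 0 ≤ u := mul_nonneg (Int.fract_nonneg _) hQ0.le
      have hv0 : 0 ≤ v := mul_nonneg (Int.fract_nonneg _) hQ0.le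
      have h2 : |v - u| ≤ 1 := by
        have a1 := Nat.floor_le hu0
        have a2 := Nat.lt_floor_add_one u
        have a3 := Nat.floor_le hv0
        have a4 := Nat.lt_floor_add_one v
        rw [h1] at a1 a2
        rw [abs_le]
        constructor <;> linarith
      refine ⟨⌊α K * (j * Y)⌋ - ⌊α K * (i * Y)⌋, ?_⟩
      have h3 : α K * (((j - i : ℕ) : ℝ) * Y) - ((⌊α K * (j * Y)⌋ - ⌊α K * (i * Y)⌋ : ℤ) : ℝ)
          = (v - u) / Q := by
        rw [hu, hv, Nat.cast_sub hij.le, ← sub_mul, mul_div_assoc, div_self hQ0.ne', mul_one,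
          Int.fract, Int.fract]
        push_cast
        ring
      rw [h3, abs_div, abs_of_pos hQ0]
      exact div_le_div_of_nonneg_right h2 hQ0.le
  rcases lt_or_gt_of_ne hij with h | h
  · exact key i j h hj hbox
  · exact key j i h hi hbox.symm

end Pool.Agent.Helper53.OM
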