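import Mathlib
import Pool.Agent.Helper53.OM.Avg
import Pool.Agent.Helper53.OM.Wts
import Pool.Agent.Helper53.OM.Dir

/-!
# The analytic part of the one-sided omega theorem
-/

open Filter MeasureTheory Set
open scoped Real Topology

namespace Pool.Agent.Helper53.OM

open Pool.Agent.Helper22.GC

noncomputable section

/-- the smoothed coefficients with the local average, `h = 1 / (4 √N)` -/
def bK (δ : ℝ) (N K : ℕ) : ℝ := aK δ K * sK (1 / (4 * √N)) K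

lemma bK_nonneg (δ : ℝ) (N K : ℕ) : 0 ≤ bK δ N K := mul_nonneg (aK_nonneg δ K) (sK_nonneg _ K)

lemma bK_le (δ : ℝ) {N K : ℕ} (hN : 1 ≤ N) (hK : 1 ≤ K) : bK δ N K ≤ gr K * phN N K := by
  have hK0 : (0 : ℝ) < K := by exact_mod_cast hK
  have hp : 0 ≤ (K : ℝ) ^ (-(3 / 4) : ℝ) := Real.rpow_nonneg hK0.le _
  have h1 := le_phN (N := N) hK (sK_le_one (1 / (4 * √N)) K) (sK_le hN hK)
  unfold bK aK
  calc aw δ K * (K : ℝ) ^ (-(3 / 4) : ℝ) * sK (1 / (4 * √N)) K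
      = aw δ K * ((K : ℝ) ^ (-(3 / 4) : ℝ) * sK (1 / (4 * √N)) K) := by ring
    _ ≤ gr K * phN N K :=
        mul_le_mul (aw_le δ K) h1 (mul_nonneg hp (sK_nonneg _ K)) (Nat.cast_nonneg _)

lemma summable_bK (δ : ℝ) {N : ℕ} (hN : 1 ≤ N) :
    Summable (bK δ N) ∧ ∑' K, bK δ N K ≤ 90 * (N : ℝ) ^ (1 / 4 : ℝ) := by
  refine summable_of_sum_Icc (bK_nonneg δ N) (by simp [bK, aK_zero]) fun T => ?_
  refine le_trans (Finset.sum_le_sum fun K hK => ?_) (sum_gr_phN hN T)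
  rw [Finset.mem_Icc] at hK
  exact bK_le δ hN hK.1

lemma bK_lower {δ : ℝ} (hδ : 0 < δ) {N K : ℕ} (hK : 1 ≤ K) (hKN : K ≤ N)
    (hδN : 4 * π * δ * √N ≤ 1) : 1 / 5 * (gr K * (K : ℝ) ^ (-(3 / 4) : ℝ)) ≤ bK δ N K := by
  have hK0 : (0 : ℝ) < K := by exact_mod_cast hK
  have hp : 0 ≤ (K : ℝ) ^ (-(3 / 4) : ℝ) := Real.rpow_nonneg hK0.le _
  have hgr : (0 : ℝ) ≤ gr K := Nat.cast_nonneg _
  have h1 := aw_lower hδ K
  have h2 := sK_lower hK hKN
  have hsKN : √(K : ℝ) ≤ √N := Real.sqrt_le_sqrt (by exact_mod_cast hKN)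
  have hπ := Real.pi_pos
  have h3 : 2 * π * δ * √K ≤ 1 / 2 := by
    have : 2 * π * δ * √K ≤ 2 * π * δ * √N := by gcongr
    linarith
  have h4 : (gr K : ℝ) / 2 ≤ aw δ K := by
    have := mul_le_mul_of_nonneg_left h3 hgr
    linarith
  unfold bK aK
  calc 1 / 5 * (gr K * (K : ℝ) ^ (-(3 / 4) : ℝ))
      = (gr K : ℝ) / 2 * (K : ℝ) ^ (-(3 / 4) : ℝ) * (2 / 5) := by ring
    _ ≤ aw δ K * (K : ℝ) ^ (-(3 / 4) : ℝ) * sK (1 / (4 * √N)) K := by
        apply mul_le_mul _ h2 (by norm_num) (mul_nonneg (aw_nonneg δ K) hp)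
        exact mul_le_mul_of_nonneg_right h4 hp

/-- the sum of the local averages over the multiples of `x` -/
lemma sum_Av {δ : ℝ} (hδ : 0 < δ) {N : ℕ} (hN : 1 ≤ N) (L : ℕ) (x : ℝ) :
    ∑ l ∈ Finset.Icc 1 (L ^ 2), wr (1 - 1 / L) l * Av (1 / (4 * √N)) (gI δ) (l * x)
      = -(1 / π * ∑' K : ℕ, bK δ N K * TL L (√K * x)) := by
  have hN0 : (0 : ℝ) < N := by exact_mod_cast hN
  have hh : 0 < 1 / (4 * √(N : ℝ)) := by have := Real.sqrt_pos.mpr hN0; positivity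
  have hs : ∀ t : ℝ, Summable (fun K : ℕ => bK δ N K * (1 / π * Real.cos (2 * π * (t * √K) - 3 * π / 4))) := by
    intro t
    refine Summable.of_norm_bounded (summable_bK δ hN).1 fun K => ?_
    rw [norm_mul, Real.norm_of_nonneg (bK_nonneg δ N K), norm_mul, Real.norm_of_nonneg (by positivity)]
    refine mul_le_of_le_one_right (bK_nonneg δ N K) ?_
    have h1 : 1 / π ≤ 1 := by
      rw [div_le_one Real.pi_pos]; linarith [Real.pi_gt_three]
    have h2 : ‖Real.cos (2 * π * (t * √K) - 3 * π / 4)‖ ≤ 1 := Real.abs_cos_le_one _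
    calc 1 / π * ‖Real.cos (2 * π * (t * √K) - 3 * π / 4)‖ ≤ 1 * 1 :=
          mul_le_mul h1 h2 (norm_nonneg _) zero_le_one
      _ = 1 := one_mul 1
  have h1 : ∀ l : ℕ, wr (1 - 1 / L) l * Av (1 / (4 * √N)) (gI δ) (l * x)
      = ∑' K : ℕ, wr (1 - 1 / L) l * (bK δ N K * (1 / π * Real.cos (2 * π * ((l * x) * √K) - 3 * π / 4))) := by
    intro l
    rw [Av_gI hδ hh, tsum_mul_left]
    rfl
  simp_rw [h1]
  have h1' := Summable.tsum_finsetSum (s := Finset.Icc 1 (L ^ 2))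
    (f := fun (l K : ℕ) => wr (1 - 1 / L) l *
      (bK δ N K * (1 / π * Real.cos (2 * π * ((l * x) * √K) - 3 * π / 4))))
    (fun l _ => (hs (l * x)).mul_left _)
  rw [← h1', ← tsum_mul_left, ← tsum_neg]
  refine tsum_congr fun K => ?_
  unfold TL
  rw [Finset.mul_sum, Finset.mul_sum, ← Finset.sum_neg_distrib]
  refine Finset.sum_congr rfl fun l _ => ?_
  have h2 : Real.cos (2 * π * ((l * x) * √K) - 3 * π / 4) = -Real.cos (2 * π * l * (√K * x) + π / 4) := by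
    have : 2 * π * ((l * x) * √K) - 3 * π / 4 = (2 * π * l * (√K * x) + π / 4) - π := by ring
    rw [this, Real.cos_sub_pi]
  rw [h2]
  ring

lemma TL_le_WL {L : ℕ} (hL : 2 ≤ L) (θ : ℝ) : |TL L θ| ≤ WL L := by
  obtain ⟨h0, _⟩ := rL hL
  unfold TL WL
  refine (Finset.abs_sum_le_sum_abs _ _).trans (Finset.sum_le_sum fun l _ => ?_)
  rw [abs_mul, abs_of_nonneg (wr_nonneg h0 l)]
  exact mul_le_of_le_one_right (wr_nonneg h0 l) (Real.abs_cos_le_one _)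

/-- the core inequality -/
lemma core {δ : ℝ} (hδ : 0 < δ) {N L : ℕ} (hN : 1 ≤ N) (hL : 2 ≤ L)
    (hδN : 4 * π * δ * √N ≤ 1) {M : Finset ℕ} (hM : M ⊆ Finset.Icc 1 N) {x m : ℝ}
    (hx : ∀ K ∈ M, ∃ a : ℤ, |√(K : ℝ) * x - a| ≤ 1 / (16 * (L : ℝ) ^ 2))
    (hm : ∀ l ∈ Finset.Icc 1 (L ^ 2), m ≤ Av (1 / (4 * √N)) (gI δ) (l * x)) :
    m ≤ 1000 * (N : ℝ) ^ (1 / 4 : ℝ) / √L
      - 1 / 60 * ∑ K ∈ M, (gr K : ℝ) * (K : ℝ) ^ (-(3 / 4) : ℝ) := by
  classical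
  obtain ⟨h0, _⟩ := rL hL
  have hLr : (2 : ℝ) ≤ L := by exact_mod_cast hL
  have hsL : 0 < √(L : ℝ) := Real.sqrt_pos.mpr (by linarith)
  have hπ := Real.pi_pos
  have hW := WL_lower hL
  have hW0 : 0 < WL L := by linarith [div_pos hsL (show (0 : ℝ) < 16 by norm_num)]
  obtain ⟨hbs, hbt⟩ := summable_bK δ hN
  -- lower bound for the left side
  have h1 : m * WL L ≤ ∑ l ∈ Finset.Icc 1 (L ^ 2), wr (1 - 1 / L) l * Av (1 / (4 * √N)) (gI δ) (l * x) := by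
    unfold WL
    rw [Finset.mul_sum]
    refine Finset.sum_le_sum fun l hl => ?_
    rw [mul_comm]
    exact mul_le_mul_of_nonneg_left (hm l hl) (wr_nonneg h0 l)
  rw [sum_Av hδ hN] at h1
  -- lower bound for the series
  have hsT : Summable (fun K : ℕ => bK δ N K * TL L (√K * x)) := by
    refine Summable.of_norm_bounded (hbs.mul_right (WL L)) fun K => ?_
    rw [norm_mul, Real.norm_of_nonneg (bK_nonneg δ N K)]
    exact mul_le_mul_of_nonneg_left (TL_le_WL hL _) (bK_nonneg δ N K)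
  have h2 : ∀ K : ℕ, (if K ∈ M then bK δ N K * (WL L / 3) else 0) - 2 * bK δ N K
      ≤ bK δ N K * TL L (√K * x) := by
    intro K
    have hb := bK_nonneg δ N K
    split_ifs with hK
    · obtain ⟨a, ha⟩ := hx K hK
      have h3 := mul_le_mul_of_nonneg_left (TL_near hL ha) hb
      linarith
    · have h3 := mul_le_mul_of_nonneg_left (TL_lower hL (√K * x)) hb
      linarith
  have hsI : Summable (fun K : ℕ => if K ∈ M then bK δ N K * (WL L / 3) else 0) :=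
    summable_of_ne_finset_zero (s := M) fun K hK => if_neg hK
  have h3 := (hsI.sub (hbs.mul_left 2)).tsum_le_tsum h2 hsT
  rw [hsI.tsum_sub (hbs.mul_left 2), tsum_mul_left,
    tsum_eq_sum (s := M) (fun K hK => if_neg hK)] at h3
  have h4 : ∑ K ∈ M, (if K ∈ M then bK δ N K * (WL L / 3) else 0) = (∑ K ∈ M, bK δ N K) * (WL L / 3) := by
    rw [Finset.sum_mul]
    exact Finset.sum_congr rfl fun K hK => if_pos hK
  rw [h4] at h3
  set S : ℝ := ∑ K ∈ M, (gr K : ℝ) * (K : ℝ) ^ (-(3 / 4) : ℝ) with hS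
  have h5 : 1 / 5 * S ≤ ∑ K ∈ M, bK δ N K := by
    rw [hS, Finset.mul_sum]
    refine Finset.sum_le_sum fun K hK => ?_
    have := Finset.mem_Icc.mp (hM hK)
    exact bK_lower hδ this.1 this.2 hδN
  set Q : ℝ := (N : ℝ) ^ (1 / 4 : ℝ) with hQ
  have hQ0 : 0 ≤ Q := Real.rpow_nonneg (Nat.cast_nonneg N) _
  set Tt : ℝ := ∑' K : ℕ, bK δ N K * TL L (√K * x) with hTt
  have h6 : 1 / 15 * S * WL L - 180 * Q ≤ Tt := by
    have := mul_le_mul_of_nonneg_right h5 (by linarith : 0 ≤ WL L / 3)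
    linarith
  have hS0 : 0 ≤ S := Finset.sum_nonneg fun K _ =>
    mul_nonneg (Nat.cast_nonneg _) (Real.rpow_nonneg (Nat.cast_nonneg K) _)
  -- `m W ≤ -(1/π) Tt`
  have h7 : m * WL L ≤ 1 / π * (180 * Q) - 1 / π * (1 / 15 * S * WL L) := by
    have := mul_le_mul_of_nonneg_left h6 (by positivity : 0 ≤ 1 / π)
    linarith
  have h8 : 1 / 4 ≤ 1 / π := by
    apply one_div_le_one_div_of_le hπ Real.pi_lt_four.le
  have h9 : 1 / π ≤ 1 / 3 := one_div_le_one_div_of_le (by norm_num) Real.pi_gt_three.le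
  have h10 : m * WL L ≤ 60 * Q - 1 / 60 * S * WL L := by
    have e1 : 1 / π * (180 * Q) ≤ 1 / 3 * (180 * Q) := mul_le_mul_of_nonneg_right h9 (by linarith)
    have e2 : 1 / 4 * (1 / 15 * S * WL L) ≤ 1 / π * (1 / 15 * S * WL L) :=
      mul_le_mul_of_nonneg_right h8 (by positivity)
    linarith
  have h11 : 60 * Q ≤ 1000 * Q / √L * WL L := by
    have e1 : 1000 * Q / √L * (√L / 16) ≤ 1000 * Q / √L * WL L :=
      mul_le_mul_of_nonneg_left hW (by positivity)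
    have e2 : 1000 * Q / √L * (√L / 16) = 62.5 * Q := by
      field_simp
      norm_num
      ring
    linarith
  have h12 : m * WL L ≤ (1000 * Q / √L - 1 / 60 * S) * WL L := by linarith
  exact le_of_mul_le_mul_right h12 hW0

/-- A: the analytic part -/
theorem analytic_main : ∃ c C : ℝ, 0 < c ∧ 0 < C ∧ ∀ (N L : ℕ) (M : Finset ℕ) (X : ℝ), 1 ≤ N →
    2 ≤ L → M ⊆ Finset.Icc 1 N → 2 ≤ X →
    ∃ R : ℝ, X ≤ R ∧ R ≤ 4 * X * (16 * (L : ℝ) ^ 2) ^ M.card * (L : ℝ) ^ 2 ∧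
      Pe R ≤ √R * (C + C * (N : ℝ) ^ (1 / 4 : ℝ) / √L
        - c * ∑ K ∈ M, (gr K : ℝ) * (K : ℝ) ^ (-(3 / 4) : ℝ)) := by
  obtain ⟨C1, hC1, hlow⟩ := gI_lower
  refine ⟨1 / 120, 2 * C1 + 3000, by norm_num, by linarith, ?_⟩
  intro N L M X hN hL hM hX
  have hN0 : (0 : ℝ) < N := by exact_mod_cast hN
  have hN1 : (1 : ℝ) ≤ N := by exact_mod_cast hN
  have hsN : 1 ≤ √(N : ℝ) := by rw [Real.one_le_sqrt]; exact hN1
  have hLr : (2 : ℝ) ≤ L := by exact_mod_cast hL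
  have hsL : 0 < √(L : ℝ) := Real.sqrt_pos.mpr (by linarith)
  have hπ := Real.pi_pos
  set S : ℝ := ∑ K ∈ M, (gr K : ℝ) * (K : ℝ) ^ (-(3 / 4) : ℝ) with hS
  set Q : ℝ := (N : ℝ) ^ (1 / 4 : ℝ) with hQ
  have hQ0 : 0 ≤ Q := Real.rpow_nonneg hN0.le _
  have hS0 : 0 ≤ S := Finset.sum_nonneg fun K _ =>
    mul_nonneg (Nat.cast_nonneg _) (Real.rpow_nonneg (Nat.cast_nonneg K) _)
  by_contra hcon
  push Not at hcon
  set Y : ℝ := 4 * X * (16 * (L : ℝ) ^ 2) ^ M.card * (L : ℝ) ^ 2 with hY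
  set β : ℝ := (2 * C1 + 3000) + (2 * C1 + 3000) * Q / √L - 1 / 120 * S with hβ
  obtain ⟨x, hx1, hx2, hx3⟩ := dirichlet M (fun K => √(K : ℝ)) (16 * L ^ 2) (by nlinarith [Nat.pos_of_ne_zero (show L ≠ 0 by omega)]) (2 * X) (by linarith)
  push_cast at hx2 hx3
  have hP1 : 1 ≤ (16 * (L : ℝ) ^ 2) ^ M.card := one_le_pow₀ (by nlinarith)
  have hL2 : (1 : ℝ) ≤ (L : ℝ) ^ 2 := by nlinarith
  have hYpos : 0 < Y := by positivity
  -- choose `δ`
  obtain ⟨δ, hδ⟩ : ∃ δ : ℝ, δ = 1 / (Y + 13 * √N) := ⟨_, rfl⟩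
  have hδ0 : 0 < δ := by rw [hδ]; positivity
  have hδ2 : δ ≤ 1 / 2 := by
    rw [hδ]
    apply one_div_le_one_div_of_le (by norm_num)
    nlinarith
  have hδY : δ * Y ≤ 1 := by
    rw [hδ, one_div_mul_eq_div, div_le_one (by positivity)]
    nlinarith
  have hδN : 4 * π * δ * √N ≤ 1 := by
    have h1 : 4 * π * δ * √N = 4 * π * √N / (Y + 13 * √N) := by rw [hδ]; ring
    rw [h1, div_le_one (by positivity)]
    have := Real.pi_lt_d2
    nlinarith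
  have h1 := hlow δ β X Y hδ0 hδ2 hX hδY (fun R hR1 hR2 => by
    have := hcon R hR1 hR2
    rw [mul_comm]
    exact this.le)
  have h2 : ∀ l ∈ Finset.Icc 1 (L ^ 2), min β (β / 2) - C1 ≤ Av (1 / (4 * √N)) (gI δ) (l * x) := by
    intro l hl
    rw [Finset.mem_Icc] at hl
    have hl1 : (1 : ℝ) ≤ l := by exact_mod_cast hl.1
    have hl2 : (l : ℝ) ≤ (L : ℝ) ^ 2 := by exact_mod_cast hl.2
    have hh : 1 / (4 * √(N : ℝ)) ≤ 1 / 4 := by
      apply one_div_le_one_div_of_le (by norm_num)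
      linarith
    refine le_Av (by positivity) (continuous_gI hδ0) fun y hy1 hy2 => h1 y ?_ ?_
    · have : 2 * X ≤ l * x := by nlinarith
      linarith
    · have h3 : l * x ≤ (L : ℝ) ^ 2 * (2 * X * (16 * (L : ℝ) ^ 2) ^ M.card) :=
        mul_le_mul hl2 hx2 (by linarith) (by positivity)
      have h4 : 1 ≤ (L : ℝ) ^ 2 * (2 * X * (16 * (L : ℝ) ^ 2) ^ M.card) := by
        have : 1 ≤ 2 * X * (16 * (L : ℝ) ^ 2) ^ M.card := by nlinarith
        nlinarith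
      have h5 : Y = 2 * ((L : ℝ) ^ 2 * (2 * X * (16 * (L : ℝ) ^ 2) ^ M.card)) := by
        rw [hY]; ring
      rw [h5]
      linarith
  have h3 := core hδ0 hN hL hδN hM (fun K hK => hx3 K hK) h2
  rw [← hS, ← hQ] at h3
  have hQL : 0 ≤ Q / √L := by positivity
  have e1 : 1000 * Q / √L = 1000 * (Q / √L) := by ring
  have e2 : (2 * C1 + 3000) * Q / √L = (2 * C1 + 3000) * (Q / √L) := by ring
  have h5 : 0 ≤ C1 * (Q / √L) := by positivity
  rw [e1] at h3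
  rw [e2] at hβ
  rcases min_choice β (β / 2) with h4 | h4
  · rw [h4] at h3
    linarith
  · rw [h4] at h3
    linarith

end

end Pool.Agent.Helper53.OM
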