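import Pool.Agent.Helper53.OM.Defs
import Pool.Agent.Helper7.PNT.AP

/-!
# Mertens' theorems for the primes `1 mod 4` (block B1 of MP_fb29e9_nt)
-/

open Filter
open scoped Real
open scoped ArithmeticFunction

namespace Pool.Agent.Helper53.OM

namespace MT

/-! ### Sums of the von Mangoldt function -/

lemma log_fact (N : ℕ) : ∑ n ∈ Finset.range (N + 1), Real.log n = ∑ d ∈ Finset.range (N + 1), Λ d * ((N / d : ℕ) : ℝ) := by
  classical
  have e1 : ∀ n ∈ Finset.range (N + 1), Real.log n = ∑ d ∈ Finset.range (N + 1), if (n ≠ 0 ∧ d ∣ n) then Λ d else 0 := by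
    intro n hn
    rw [Finset.mem_range] at hn
    rw [← ArithmeticFunction.vonMangoldt_sum, ← Finset.sum_filter]
    apply Finset.sum_congr
    · ext d
      rw [Nat.mem_divisors, Finset.mem_filter, Finset.mem_range]
      constructor
      · rintro ⟨h1, h2⟩
        have := Nat.le_of_dvd (Nat.pos_of_ne_zero h2) h1
        exact ⟨by omega, h2, h1⟩
      · rintro ⟨_, h2, h1⟩
        exact ⟨h1, h2⟩
    · intro d _; rfl
  rw [Finset.sum_congr rfl e1, Finset.sum_comm]
  refine Finset.sum_congr rfl fun d _ => ?_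
  rw [← Finset.sum_filter, Finset.sum_const, nsmul_eq_mul, ← Nat.card_multiples' N d]
  ring

lemma log_fact_lower (N : ℕ) : N * Real.log N - N ≤ ∑ n ∈ Finset.range (N + 1), Real.log n := by
  induction N with
  | zero => simp
  | succ N ih =>
    rw [Finset.sum_range_succ]
    rcases Nat.eq_zero_or_pos N with rfl | hN
    · simp
    have hN0 : (0:ℝ) < N := by exact_mod_cast hN
    have h1 : Real.log ((N + 1 : ℕ) : ℝ) - Real.log N ≤ 1 / N := by
      rw [← Real.log_div (by positivity) hN0.ne']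
      have h2 := Real.log_le_sub_one_of_pos (show (0:ℝ) < ((N + 1 : ℕ) : ℝ) / N by positivity)
      have h3 : ((N + 1 : ℕ) : ℝ) / N - 1 = 1 / N := by push_cast; field_simp; ring
      linarith
    have h4 : N * (Real.log ((N + 1 : ℕ) : ℝ) - Real.log N) ≤ N * (1 / N) := by gcongr
    rw [mul_one_div_cancel hN0.ne'] at h4
    push_cast at h4 ih ⊢
    linarith

lemma log_fact_upper (N : ℕ) : ∑ n ∈ Finset.range (N + 1), Real.log n ≤ N * Real.log N := by
  rw [Finset.sum_range_succ']
  simp only [Nat.cast_zero, Real.log_zero, add_zero]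
  calc ∑ k ∈ Finset.range N, Real.log ((k + 1 : ℕ) : ℝ) ≤ ∑ k ∈ Finset.range N, Real.log N := by
        refine Finset.sum_le_sum fun k hk => ?_
        rw [Finset.mem_range] at hk
        apply Real.log_le_log (by positivity)
        exact_mod_cast hk
    _ = _ := by rw [Finset.sum_const, Finset.card_range, nsmul_eq_mul]

lemma psi_range (N : ℕ) : ∑ d ∈ Finset.range (N + 1), Λ d ≤ (Real.log 4 + 4) * N := by
  have h := Chebyshev.psi_le_const_mul_self (x := (N:ℝ)) (by positivity)
  rw [Chebyshev.psi_eq_sum_Icc, Nat.floor_natCast] at h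
  refine le_trans (le_of_eq ?_) h
  apply Finset.sum_congr _ (fun _ _ => rfl)
  ext d
  simp

lemma vM_lower {N : ℕ} (hN : 1 ≤ N) : Real.log N - 1 ≤ ∑ d ∈ Finset.range (N + 1), Λ d / d := by
  have hN0 : (0:ℝ) < N := by exact_mod_cast hN
  have h1 := log_fact_lower N
  rw [log_fact] at h1
  have h3 : ∑ d ∈ Finset.range (N + 1), Λ d * ((N / d : ℕ) : ℝ) ≤ ∑ d ∈ Finset.range (N + 1), (N:ℝ) * (Λ d / d) := by
    refine Finset.sum_le_sum fun d _ => ?_
    have h9 := @ArithmeticFunction.vonMangoldt_nonneg d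
    have h10 : ((N / d : ℕ) : ℝ) ≤ (N:ℝ) / d := Nat.cast_div_le
    calc Λ d * ((N / d : ℕ) : ℝ) ≤ Λ d * ((N:ℝ) / d) := by gcongr
      _ = _ := by ring
  rw [← Finset.mul_sum] at h3
  have h4 : N * (Real.log N - 1) ≤ N * ∑ d ∈ Finset.range (N + 1), Λ d / d := by linarith
  exact le_of_mul_le_mul_left h4 hN0

lemma vM_upper {N : ℕ} (hN : 1 ≤ N) : ∑ d ∈ Finset.range (N + 1), Λ d / d ≤ Real.log N + (Real.log 4 + 4) := by
  have hN0 : (0:ℝ) < N := by exact_mod_cast hN
  have h1 := log_fact_upper N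
  rw [log_fact] at h1
  have h3 : ∑ d ∈ Finset.range (N + 1), (N:ℝ) * (Λ d / d) ≤ ∑ d ∈ Finset.range (N + 1), (Λ d * ((N / d : ℕ) : ℝ) + Λ d) := by
    refine Finset.sum_le_sum fun d _ => ?_
    have h9 := @ArithmeticFunction.vonMangoldt_nonneg d
    rcases Nat.eq_zero_or_pos d with rfl | hd
    · simp
    have hd0 : (0:ℝ) < d := by exact_mod_cast hd
    have h10 : (N:ℝ) / d ≤ ((N / d : ℕ) : ℝ) + 1 := by
      rw [div_le_iff₀ hd0]
      have h6 : N < d * (N / d) + d := by
        have := Nat.div_add_mod N d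
        have := Nat.mod_lt N hd
        omega
      have h8 : (N:ℝ) < d * ((N / d : ℕ) : ℝ) + d := by exact_mod_cast h6
      linarith
    calc (N:ℝ) * (Λ d / d) = Λ d * ((N:ℝ) / d) := by ring
      _ ≤ Λ d * (((N / d : ℕ) : ℝ) + 1) := by gcongr
      _ = _ := by ring
  rw [← Finset.mul_sum, Finset.sum_add_distrib] at h3
  have h4 := psi_range N
  have h5 : N * ∑ d ∈ Finset.range (N + 1), Λ d / d ≤ N * (Real.log N + (Real.log 4 + 4)) := by linarith
  exact le_of_mul_le_mul_left h5 hN0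


/-! ### The character mod 4 -/

/-- the character mod 4 -/
noncomputable def chi (n : ℕ) : ℝ := ((ZMod.χ₄ (n : ZMod 4) : ℤ) : ℝ)

theorem chi_mul (m n : ℕ) : chi (m * n) = chi m * chi n := by
  rw [chi, chi, chi, Nat.cast_mul, map_mul, Int.cast_mul]

/-- the partial sums of the character -/
noncomputable def X (n : ℕ) : ℝ := if n % 4 = 1 ∨ n % 4 = 2 then 1 else 0

theorem X_nonneg (n : ℕ) : 0 ≤ X n := by
  unfold X
  split_ifs <;> norm_num

theorem X_le (n : ℕ) : X n ≤ 1 := by
  unfold X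
  split_ifs <;> norm_num

theorem chi_eq (n : ℕ) : chi n = if n % 4 = 1 then 1 else if n % 4 = 3 then -1 else 0 := by
  rw [chi, ZMod.χ₄_nat_eq_if_mod_four]
  have h : n % 4 = 0 ∨ n % 4 = 1 ∨ n % 4 = 2 ∨ n % 4 = 3 := by omega
  rcases h with h | h | h | h
  · rw [if_pos (by omega), if_neg (by omega), if_neg (by omega)]
    norm_num
  · rw [if_neg (by omega), if_pos h, if_pos h]
    norm_num
  · rw [if_pos (by omega), if_neg (by omega), if_neg (by omega)]
    norm_num
  · rw [if_neg (by omega), if_neg (by omega), if_neg (by omega), if_pos h]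
    norm_num

theorem chi_succ (n : ℕ) : chi (n + 1) = X (n + 1) - X n := by
  rw [chi_eq, X, X]
  have h : n % 4 = 0 ∨ n % 4 = 1 ∨ n % 4 = 2 ∨ n % 4 = 3 := by omega
  rcases h with h | h | h | h
  · rw [if_pos (by omega), if_pos (by omega), if_neg (by omega)]
    norm_num
  · rw [if_neg (by omega), if_neg (by omega), if_pos (by omega), if_pos (by omega)]
    norm_num
  · rw [if_neg (by omega), if_pos (by omega), if_neg (by omega), if_pos (by omega)]
    norm_num
  · rw [if_neg (by omega), if_neg (by omega), if_neg (by omega), if_neg (by omega)]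
    norm_num

theorem abs_chi (n : ℕ) : |chi n| ≤ 1 := by
  rw [chi_eq]
  split_ifs <;> norm_num

/-- sums of the character against decreasing functions -/
theorem leib (f : ℕ → ℝ) (M : ℕ) (hf0 : ∀ n, M + 1 ≤ n → 0 ≤ f n)
    (hf : ∀ n, M + 1 ≤ n → f (n + 1) ≤ f n) {N : ℕ} (h : M ≤ N) :
    |∑ m ∈ Finset.Ioc M N, chi m * f m| ≤ f (M + 1) := by
  have key : X N * f (N + 1) - X M * f (M + 1) ≤ ∑ m ∈ Finset.Ioc M N, chi m * f m ∧
      ∑ m ∈ Finset.Ioc M N, chi m * f m ≤
        X N * f (N + 1) - X M * f (M + 1) + f (M + 1) - f (N + 1) := by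
    induction N, h using Nat.le_induction with
    | base => simp
    | succ N hN ih =>
      have h1 : ∑ m ∈ Finset.Ioc M (N + 1), chi m * f m =
          ∑ m ∈ Finset.Ioc M N, chi m * f m + chi (N + 1) * f (N + 1) := by
        rw [Finset.sum_Ioc_succ_top (by omega)]
      rw [h1, chi_succ]
      have h2 := hf (N + 1) (by omega)
      have h3 := X_nonneg (N + 1)
      have h4 := X_le (N + 1)
      have h5 : X (N + 1) * f (N + 1 + 1) ≤ X (N + 1) * f (N + 1) :=
        mul_le_mul_of_nonneg_left h2 h3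
      have h6 : X (N + 1) * (f (N + 1) - f (N + 1 + 1)) ≤ 1 * (f (N + 1) - f (N + 1 + 1)) :=
        mul_le_mul_of_nonneg_right h4 (by linarith)
      constructor
      · linarith [ih.1]
      · linarith [ih.2]
  have h1 := hf0 (M + 1) le_rfl
  have h2 := hf0 (N + 1) (by omega)
  have h3 := X_nonneg N
  have h4 := X_le N
  have h5 := X_nonneg M
  have h6 := X_le M
  rw [abs_le]
  constructor
  · nlinarith [key.1]
  · nlinarith [key.2]

/-- the partial sums of the L-series at 1 -/
noncomputable def B (N : ℕ) : ℝ := ∑ m ∈ Finset.Ioc 0 N, chi m / m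

theorem B_sub {M N : ℕ} (h : M ≤ N) : |B N - B M| ≤ 1 / ((M : ℝ) + 1) := by
  have h1 : B N - B M = ∑ m ∈ Finset.Ioc M N, chi m * (1 / (m : ℝ)) := by
    rw [B, B, ← Finset.sum_Ioc_consecutive _ (Nat.zero_le M) h, add_sub_cancel_left]
    exact Finset.sum_congr rfl fun m _ => by ring
  rw [h1]
  have h2 := leib (fun m => 1 / (m : ℝ)) M (fun n _ => by positivity) (fun n hn => by
    have h3 : (0 : ℝ) < n := by exact_mod_cast (show 0 < n by omega)
    push_cast
    exact one_div_le_one_div_of_le h3 (by linarith)) h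
  push_cast at h2
  exact h2

theorem exists_L : ∃ L : ℝ, 0 < L ∧ ∀ N : ℕ, |B N - L| ≤ 1 / ((N : ℝ) + 1) := by
  have hc : CauchySeq B := by
    refine cauchySeq_of_le_tendsto_0 (fun N : ℕ => 2 * (1 / ((N : ℝ) + 1))) (fun n m N hn hm => ?_) ?_
    · rw [Real.dist_eq]
      have h1 := B_sub hn
      have h2 := B_sub hm
      have h3 : B n - B m = (B n - B N) - (B m - B N) := by ring
      rw [h3]
      exact (abs_sub _ _).trans (by linarith)
    · have h1 := (tendsto_one_div_add_atTop_nhds_zero_nat (𝕜 := ℝ)).const_mul 2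
      rw [mul_zero] at h1
      exact h1
  obtain ⟨L, hL⟩ := cauchySeq_tendsto_of_complete hc
  have h1 : ∀ N : ℕ, |B N - L| ≤ 1 / ((N : ℝ) + 1) := by
    intro N
    have h2 : Tendsto (fun M => |B N - B M|) atTop (nhds |B N - L|) :=
      (tendsto_const_nhds.sub hL).abs
    refine le_of_tendsto h2 ?_
    filter_upwards [eventually_ge_atTop N] with M hM
    rw [abs_sub_comm]
    exact B_sub hM
  refine ⟨L, ?_, h1⟩
  have h2 := h1 3
  have h3 : B 3 = 2 / 3 := by
    rw [B, show (3 : ℕ) = 0 + 1 + 1 + 1 by norm_num, Finset.sum_Ioc_succ_top (by norm_num),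
      Finset.sum_Ioc_succ_top (by norm_num), Finset.sum_Ioc_succ_top (by norm_num), chi_eq, chi_eq,
      chi_eq]
    norm_num
  rw [h3, abs_le] at h2
  norm_num at h2
  linarith [h2.2]

/-- the derivative of the L-series at 1 -/
noncomputable def T (N : ℕ) : ℝ := ∑ n ∈ Finset.Ioc 0 N, chi n * (Real.log n / n)

theorem abs_T (N : ℕ) : |T N| ≤ 1 := by
  have h2 : T 2 = 0 := by
    rw [T, show (2 : ℕ) = 0 + 1 + 1 by norm_num, Finset.sum_Ioc_succ_top (by norm_num),
      Finset.sum_Ioc_succ_top (by norm_num), chi_eq, chi_eq]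
    norm_num
  by_cases hN : N < 2
  · interval_cases N
    · simp [T]
    · rw [T, show (1 : ℕ) = 0 + 1 by norm_num, Finset.sum_Ioc_succ_top (by norm_num)]
      norm_num
  · have h3 : T N = ∑ n ∈ Finset.Ioc 2 N, chi n * (Real.log n / n) := by
      rw [T, ← Finset.sum_Ioc_consecutive _ (Nat.zero_le 2) (not_lt.1 hN)]
      change T 2 + _ = _
      rw [h2, zero_add]
    rw [h3]
    have h4 := leib (fun n => Real.log n / n) 2 (fun n _ => div_nonneg (Real.log_natCast_nonneg n)
      (Nat.cast_nonneg n)) (fun n hn => ?_) (not_lt.1 hN)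
    · refine h4.trans ?_
      push_cast
      rw [div_le_one (by norm_num)]
      have := Real.log_le_sub_one_of_pos (show (0 : ℝ) < 3 by norm_num)
      linarith
    · have h5 : (3 : ℝ) ≤ n := by exact_mod_cast hn
      have h6 := Real.exp_one_lt_d9
      refine Real.log_div_self_antitoneOn ?_ ?_ ?_
      · change Real.exp 1 ≤ (n : ℝ)
        linarith
      · change Real.exp 1 ≤ ((n + 1 : ℕ) : ℝ)
        push_cast
        linarith
      · push_cast
        linarith

/-- the arithmetic function `χ Λ / id` -/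
noncomputable def fL : ArithmeticFunction ℝ := ⟨fun n => chi n * Λ n / n, by simp⟩

/-- the arithmetic function `χ / id` -/
noncomputable def gL : ArithmeticFunction ℝ := ⟨fun n => chi n / n, by simp⟩

theorem fgL (n : ℕ) : (fL * gL) n = chi n * (Real.log n / n) := by
  rw [ArithmeticFunction.mul_apply]
  have h1 : ∀ x ∈ n.divisorsAntidiagonal, fL x.1 * gL x.2 = chi n / n * Λ x.1 := by
    rintro ⟨a, b⟩ hx
    rw [Nat.mem_divisorsAntidiagonal] at hx
    obtain ⟨h1, h2⟩ := hx
    change chi a * Λ a / a * (chi b / b) = chi n / n * Λ a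
    rw [← h1, chi_mul]
    push_cast
    ring
  rw [Finset.sum_congr rfl h1, ← Finset.mul_sum,
    Nat.sum_divisorsAntidiagonal (fun a _ => Λ a), ArithmeticFunction.vonMangoldt_sum]
  ring

/-- the twisted Mertens sum -/
noncomputable def S (N : ℕ) : ℝ := ∑ n ∈ Finset.Ioc 0 N, chi n * Λ n / n

theorem T_eq (N : ℕ) : T N = ∑ d ∈ Finset.Ioc 0 N, chi d * Λ d / d * B (N / d) := by
  have h1 := ArithmeticFunction.sum_Ioc_mul_eq_sum_sum fL gL N
  rw [Finset.sum_congr rfl fun n _ => fgL n] at h1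
  exact h1

theorem sum_Ioc_eq_range (f : ℕ → ℝ) (hf : f 0 = 0) (N : ℕ) :
    ∑ d ∈ Finset.Ioc 0 N, f d = ∑ d ∈ Finset.range (N + 1), f d := by
  induction N with
  | zero => simp [hf]
  | succ N ih => rw [Finset.sum_Ioc_succ_top (Nat.zero_le N), Finset.sum_range_succ, ih]

theorem exists_S : ∃ C : ℝ, ∀ N : ℕ, 1 ≤ N → |S N| ≤ C := by
  obtain ⟨L, hL, hB⟩ := exists_L
  refine ⟨(1 + (Real.log 4 + 4)) / L, fun N hN => ?_⟩
  have hN0 : (0 : ℝ) < N := by exact_mod_cast hN
  have h1 : L * S N = T N - ∑ d ∈ Finset.Ioc 0 N, chi d * Λ d / d * (B (N / d) - L) := by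
    rw [T_eq, S, Finset.mul_sum, ← Finset.sum_sub_distrib]
    exact Finset.sum_congr rfl fun d _ => by ring
  have h2 : |∑ d ∈ Finset.Ioc 0 N, chi d * Λ d / d * (B (N / d) - L)| ≤ Real.log 4 + 4 := by
    have h3 : ∀ d ∈ Finset.Ioc 0 N, |chi d * Λ d / d * (B (N / d) - L)| ≤ Λ d * (1 / N) := by
      intro d hd
      rw [Finset.mem_Ioc] at hd
      have hd0 : (0 : ℝ) < d := by exact_mod_cast hd.1
      have h4 : 1 / (((N / d : ℕ) : ℝ) + 1) ≤ d / N := by
        rw [div_le_div_iff₀ (by positivity) hN0]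
        have h6 : N < d * (N / d) + d := by
          have := Nat.div_add_mod N d
          have := Nat.mod_lt N hd.1
          omega
        have h8 : (N:ℝ) < d * ((N / d : ℕ) : ℝ) + d := by exact_mod_cast h6
        linarith
      rw [abs_mul, abs_div, abs_mul, abs_of_nonneg ArithmeticFunction.vonMangoldt_nonneg,
        abs_of_pos hd0]
      calc |chi d| * Λ d / d * |B (N / d) - L| ≤ 1 * Λ d / d * (d / N) := by
            have := (hB (N / d)).trans h4
            have := abs_chi d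
            have := @ArithmeticFunction.vonMangoldt_nonneg d
            gcongr
        _ = Λ d * (1 / N) := by field_simp
    refine (Finset.abs_sum_le_sum_abs _ _).trans ((Finset.sum_le_sum h3).trans ?_)
    rw [← Finset.sum_mul, sum_Ioc_eq_range (fun d => Λ d) (by simp) N]
    have h4 := psi_range N
    calc _ ≤ (Real.log 4 + 4) * N * (1 / N) := by gcongr
      _ = Real.log 4 + 4 := by field_simp
  have h3 : |L * S N| ≤ 1 + (Real.log 4 + 4) := by
    rw [h1]
    exact (abs_sub _ _).trans (add_le_add (abs_T N) h2)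
  rw [abs_mul, abs_of_pos hL] at h3
  rw [le_div_iff₀ hL, mul_comm]
  exact h3

/-! ### The primes `1 mod 4` -/

/-- indicator of the primes `1 mod 4`, divided by `n` -/
noncomputable def aa (n : ℕ) : ℝ := if n.Prime ∧ n % 4 = 1 then 1 / n else 0

/-- the sum of `log p / p` -/
noncomputable def W (N : ℕ) : ℝ := ∑ n ∈ Finset.Ioc 0 N, aa n * Real.log n

/-- the sum of `1 / p` -/
noncomputable def A (N : ℕ) : ℝ := ∑ n ∈ Finset.Ioc 0 N, aa n

theorem aa_nonneg (n : ℕ) : 0 ≤ aa n := by
  unfold aa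
  split_ifs <;> positivity

theorem W_nonneg (N : ℕ) : 0 ≤ W N :=
  Finset.sum_nonneg fun n _ => mul_nonneg (aa_nonneg n) (Real.log_natCast_nonneg n)

theorem exists_W : ∃ C : ℝ, 0 ≤ C ∧ ∀ N : ℕ, 1 ≤ N → Real.log N / 2 - C ≤ W N := by
  obtain ⟨CS, hCS⟩ := exists_S
  have hsum := ArithmeticFunction.vonMangoldt.summable_residueClass_non_primes_div (q := 1) 0
  set NP : ℝ := ∑' n : ℕ, (if n.Prime then 0 else
    ArithmeticFunction.vonMangoldt.residueClass (0 : ZMod 1) n) / n with hNP
  have hres : ∀ n : ℕ, ArithmeticFunction.vonMangoldt.residueClass (0 : ZMod 1) n = Λ n := by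
    intro n
    have h1 : n ∈ {n : ℕ | (n : ZMod 1) = 0} := Subsingleton.elim _ _
    exact Set.indicator_of_mem h1 _
  have hterm : ∀ n : ℕ, 0 ≤ (if n.Prime then 0 else
      ArithmeticFunction.vonMangoldt.residueClass (0 : ZMod 1) n) / (n : ℝ) := by
    intro n
    rw [hres]
    have := @ArithmeticFunction.vonMangoldt_nonneg n
    split_ifs <;> positivity
  have hnp : ∀ s : Finset ℕ, ∑ n ∈ s, (if n.Prime then 0 else Λ n) / (n : ℝ) ≤ NP := by
    intro s
    have h1 := hsum.sum_le_tsum s fun n _ => hterm n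
    simp only [hres] at h1
    rw [hNP]
    simp only [hres]
    exact h1
  have hNP0 : 0 ≤ NP := by simpa using hnp ∅
  have hCS0 : 0 ≤ CS := (abs_nonneg _).trans (hCS 1 le_rfl)
  refine ⟨1 + NP + NP + CS, by positivity, fun N hN => ?_⟩
  have h1 : ∀ n ∈ Finset.Ioc 0 N, (1 / 2) * (Λ n / n - (if n = 2 then Real.log 2 / 2 else 0) -
      (if n.Prime then 0 else Λ n) / n + chi n * Λ n / n) - (if n.Prime then 0 else Λ n) / n ≤
        aa n * Real.log n := by
    intro n hn
    have hn0 : (0 : ℝ) < n := by exact_mod_cast (Finset.mem_Ioc.1 hn).1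
    have h0 := @ArithmeticFunction.vonMangoldt_nonneg n
    have h0' : 0 ≤ Λ n / n := by positivity
    have hchi : chi n * Λ n / n = chi n * (Λ n / n) := by ring
    rw [hchi]
    by_cases hp : n.Prime
    · rw [if_pos hp, aa]
      rcases hp.eq_two_or_odd with h2 | h2
      · subst h2
        rw [if_pos rfl, ArithmeticFunction.vonMangoldt_apply_prime hp, chi_eq]
        norm_num
      · have h3 : n ≠ 2 := by omega
        rw [if_neg h3, ArithmeticFunction.vonMangoldt_apply_prime hp, chi_eq]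
        by_cases h4 : n % 4 = 1
        · rw [if_pos h4, if_pos ⟨hp, h4⟩]
          apply le_of_eq
          ring
        · rw [if_neg h4, if_pos (by omega), if_neg (fun h => h4 h.2)]
          apply le_of_eq
          ring
    · have h3 : n ≠ 2 := by
        rintro rfl
        exact hp Nat.prime_two
      rw [if_neg hp, if_neg h3, aa, if_neg (fun h => hp h.1)]
      have h5 := (abs_le.1 (abs_chi n)).2
      have h6 : chi n * (Λ n / n) ≤ 1 * (Λ n / n) := mul_le_mul_of_nonneg_right h5 h0'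
      linarith
  have h2 := Finset.sum_le_sum h1
  have h3 : ∑ n ∈ Finset.Ioc 0 N, (if n = 2 then Real.log 2 / 2 else 0) ≤ 1 := by
    rw [Finset.sum_ite_eq']
    have := Real.log_two_lt_d9
    split_ifs <;> linarith
  have h4 := hnp (Finset.Ioc 0 N)
  have h5 := (abs_le.1 (hCS N hN)).1
  have h6 := vM_lower hN
  rw [← sum_Ioc_eq_range (fun d => Λ d / d) (by simp) N] at h6
  have h7 : ∑ n ∈ Finset.Ioc 0 N, ((1 / 2) * (Λ n / n - (if n = 2 then Real.log 2 / 2 else 0) -
      (if n.Prime then 0 else Λ n) / n + chi n * Λ n / n) - (if n.Prime then 0 else Λ n) / n) =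
      (1 / 2) * (∑ n ∈ Finset.Ioc 0 N, Λ n / n -
        ∑ n ∈ Finset.Ioc 0 N, (if n = 2 then Real.log 2 / 2 else 0) -
        ∑ n ∈ Finset.Ioc 0 N, (if n.Prime then 0 else Λ n) / (n : ℝ) + S N) -
        ∑ n ∈ Finset.Ioc 0 N, (if n.Prime then 0 else Λ n) / (n : ℝ) := by
    rw [S, ← Finset.sum_sub_distrib, ← Finset.sum_sub_distrib, ← Finset.sum_add_distrib,
      Finset.mul_sum, ← Finset.sum_sub_distrib]
  rw [h7] at h2
  have h8 : ∑ n ∈ Finset.Ioc 0 N, aa n * Real.log n = W N := rfl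
  rw [h8] at h2
  linarith

/-- Abel summation -/
theorem abel_step {C : ℝ} (hW : ∀ N : ℕ, 1 ≤ N → Real.log N / 2 - C ≤ W N) {N : ℕ}
    (hN : 2 ≤ N) : (Real.log (Real.log N) - Real.log (Real.log 2)) / 2 -
      C * (1 / Real.log 2 - 1 / Real.log N) - 3 / 2 * (1 - 1 / ((N : ℝ) - 1)) ≤
        A N - W N / Real.log N := by
  have hl2 : (0.69 : ℝ) ≤ Real.log 2 := by
    have := Real.log_two_gt_d9
    linarith
  induction N, hN using Nat.le_induction with
  | base =>
    have h1 : A 2 = 0 := by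
      rw [A, show (2 : ℕ) = 0 + 1 + 1 by norm_num, Finset.sum_Ioc_succ_top (by norm_num),
        Finset.sum_Ioc_succ_top (by norm_num), aa, aa]
      norm_num
    have h2 : W 2 = 0 := by
      rw [W, show (2 : ℕ) = 0 + 1 + 1 by norm_num, Finset.sum_Ioc_succ_top (by norm_num),
        Finset.sum_Ioc_succ_top (by norm_num), aa, aa]
      norm_num
    rw [h1, h2]
    norm_num
  | succ N hN ih =>
    have hN2 : (2 : ℝ) ≤ N := by exact_mod_cast hN
    set a := Real.log ((N + 1 : ℕ) : ℝ) with ha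
    set b := Real.log (N : ℝ) with hb
    have hb0 : 0.69 ≤ b := hl2.trans (Real.log_le_log (by norm_num) hN2)
    have hab : b ≤ a := Real.log_le_log (by positivity) (by push_cast; linarith)
    have hab2 : a - b ≤ 1 / N := by
      rw [ha, hb, ← Real.log_div (by positivity) (by positivity)]
      have h2 := Real.log_le_sub_one_of_pos (show (0:ℝ) < ((N + 1 : ℕ) : ℝ) / N by positivity)
      have h3 : ((N + 1 : ℕ) : ℝ) / N - 1 = 1 / N := by push_cast; field_simp; ring
      linarith
    have ha0 : 0 < a := by linarith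
    have hb0' : 0 < b := by linarith
    have h1 : A (N + 1) - W (N + 1) / a = A N - W N / b + W N * (1 / b - 1 / a) := by
      rw [A, W, Finset.sum_Ioc_succ_top (Nat.zero_le N), Finset.sum_Ioc_succ_top (Nat.zero_le N)]
      change A N + aa (N + 1) - (W N + aa (N + 1) * a) / a = A N - W N / b + W N * (1 / b - 1 / a)
      field_simp
      ring
    have h2 : (b / 2 - C) * (1 / b - 1 / a) ≤ W N * (1 / b - 1 / a) :=
      mul_le_mul_of_nonneg_right (hW N (by omega))
        (sub_nonneg.2 (one_div_le_one_div_of_le hb0' hab))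
    have h3 : Real.log a - Real.log b ≤ a / b - 1 := by
      rw [← Real.log_div ha0.ne' hb0'.ne']
      exact Real.log_le_sub_one_of_pos (by positivity)
    have h4 : a / b - 1 = (1 - b / a) + (a - b) ^ 2 / (a * b) := by
      field_simp
      ring
    have h5 : (a - b) ^ 2 / (a * b) ≤ 3 * (1 / ((N : ℝ) - 1) - 1 / N) := by
      have h6 : (a - b) ^ 2 ≤ (1 / N) ^ 2 := pow_le_pow_left₀ (by linarith) hab2 2
      have h7 : (1 / 3 : ℝ) ≤ a * b := by nlinarith
      have h8 : (1 / (N : ℝ)) ^ 2 ≤ 1 / ((N : ℝ) - 1) - 1 / N := by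
        have h9 : (0 : ℝ) < N - 1 := by linarith
        have h10 : 1 / ((N : ℝ) - 1) - 1 / N = 1 / (((N : ℝ) - 1) * N) := by
          field_simp
          ring
        rw [h10, div_pow, one_pow]
        exact one_div_le_one_div_of_le (by positivity) (by nlinarith)
      rw [div_le_iff₀ (by positivity)]
      have h11 : 0 ≤ 1 / ((N : ℝ) - 1) - 1 / N := (by positivity : (0:ℝ) ≤ (1 / (N : ℝ)) ^ 2).trans h8
      nlinarith
    have h6 : (b / 2 - C) * (1 / b - 1 / a) = (1 - b / a) / 2 - C * (1 / b - 1 / a) := by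
      field_simp
    have h12 : (((N + 1 : ℕ) : ℝ) - 1) = N := by push_cast; ring
    rw [h1, h12]
    linarith

end MT

/-- B1: Mertens' theorem for the primes `1 mod 4` (lower bound) -/
theorem mertens4 : ∃ C : ℝ, ∀ z : ℝ, 3 ≤ z →
    Real.log (Real.log z) / 2 - C ≤ ∑ p ∈ P1 z, (1 : ℝ) / p := by
  obtain ⟨C, hC, hW⟩ := MT.exists_W
  refine ⟨2 * C + 3 / 2 + 1, fun z hz => ?_⟩
  set N := ⌊z⌋₊ with hN
  have hN3 : 3 ≤ N := Nat.le_floor (by exact_mod_cast hz)
  have hN3' : (3 : ℝ) ≤ N := by exact_mod_cast hN3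
  have h1 := MT.abel_step hW (show 2 ≤ N by omega)
  have h2 : ∑ p ∈ P1 z, (1 : ℝ) / p = MT.A N := by
    rw [P1, MT.A, Finset.sum_filter]
    have h3 : Finset.Icc 1 ⌊z⌋₊ = Finset.Ioc 0 N := by
      ext n
      rw [Finset.mem_Icc, Finset.mem_Ioc]
      omega
    rw [h3]
    rfl
  rw [h2]
  have hlN : 1 ≤ Real.log N := by
    rw [Real.le_log_iff_exp_le (by linarith)]
    have := Real.exp_one_lt_d9
    linarith
  have h3 : 0 ≤ MT.W N / Real.log N := div_nonneg (MT.W_nonneg N) (by linarith)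
  have hl2 : (0.69 : ℝ) ≤ Real.log 2 := by
    have := Real.log_two_gt_d9
    linarith
  have h4 : C * (1 / Real.log 2 - 1 / Real.log N) ≤ 2 * C := by
    have h5 : 1 / Real.log 2 ≤ 2 := by
      rw [div_le_iff₀ (by linarith)]
      linarith
    have h6 : 0 ≤ 1 / Real.log N := by positivity
    nlinarith
  have h5 : Real.log (Real.log 2) ≤ 0 := by
    apply Real.log_nonpos (by linarith)
    have := Real.log_two_lt_d9
    linarith
  have h6 : 0 ≤ 1 / ((N : ℝ) - 1) := by
    have : (0 : ℝ) < N - 1 := by linarith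
    positivity
  have h7 : Real.log (Real.log z) ≤ Real.log (Real.log N) + 1 := by
    have hz1 : z < N + 1 := Nat.lt_floor_add_one z
    have h8 : Real.log z ≤ Real.log N + 1 := by
      have h9 : Real.log z ≤ Real.log ((N : ℝ) + 1) := Real.log_le_log (by linarith) hz1.le
      have h10 : Real.log ((N : ℝ) + 1) - Real.log N ≤ 1 := by
        rw [← Real.log_div (by positivity) (by positivity)]
        have h2 := Real.log_le_sub_one_of_pos (show (0:ℝ) < ((N : ℝ) + 1) / N by positivity)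
        have h3 : ((N : ℝ) + 1) / N - 1 ≤ 1 := by
          rw [sub_le_iff_le_add, div_le_iff₀ (by linarith)]
          linarith
        linarith
      linarith
    have hlz : 0 < Real.log z := Real.log_pos (by linarith)
    have h9 : Real.log (Real.log z) - Real.log (Real.log N) ≤ 1 := by
      rw [← Real.log_div hlz.ne' (by linarith)]
      have h2 := Real.log_le_sub_one_of_pos (show (0:ℝ) < Real.log z / Real.log N by positivity)
      have h3 : Real.log z / Real.log N - 1 ≤ 1 := by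
        rw [sub_le_iff_le_add, div_le_iff₀ (by linarith)]
        linarith
      linarith
    linarith
  linarith

namespace MT

/-! ### Primes in a short interval -/

end MT

/-- B1': Mertens' theorem (upper bound) for the primes `1 mod 4` -/
theorem mertens_log : ∃ C : ℝ, ∀ z : ℝ, 1 ≤ z →
    ∑ p ∈ P1 z, Real.log p / p ≤ Real.log z + C := by
  refine ⟨Real.log 4 + 4, fun z hz => ?_⟩
  have hN : 1 ≤ ⌊z⌋₊ := Nat.le_floor (by exact_mod_cast hz)
  have h1 := MT.vM_upper hN
  have h2 : Real.log (⌊z⌋₊ : ℝ) ≤ Real.log z :=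
    Real.log_le_log (by exact_mod_cast hN) (Nat.floor_le (by linarith))
  have h3 : ∑ p ∈ P1 z, Real.log p / p ≤ ∑ d ∈ Finset.range (⌊z⌋₊ + 1), Λ d / d := by
    have h4 : ∑ p ∈ P1 z, Real.log p / p = ∑ p ∈ P1 z, Λ p / p := by
      refine Finset.sum_congr rfl fun p hp => ?_
      rw [P1, Finset.mem_filter] at hp
      rw [ArithmeticFunction.vonMangoldt_apply_prime hp.2.1]
    rw [h4]
    refine Finset.sum_le_sum_of_subset_of_nonneg (fun p hp => ?_) fun n _ _ =>
      div_nonneg ArithmeticFunction.vonMangoldt_nonneg (Nat.cast_nonneg n)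
    rw [P1, Finset.mem_filter, Finset.mem_Icc] at hp
    rw [Finset.mem_range]
    omega
  linarith

theorem MT.mem_P1 {z : ℝ} {p : ℕ} (hz : 0 ≤ z) : p ∈ P1 z ↔ (p : ℝ) ≤ z ∧ p.Prime ∧ p % 4 = 1 := by
  rw [P1, Finset.mem_filter, Finset.mem_Icc, Nat.le_floor_iff hz]
  constructor
  · rintro ⟨⟨h1, h2⟩, h3⟩
    exact ⟨h2, h3⟩
  · rintro ⟨h2, h3⟩
    exact ⟨⟨h3.1.pos, h2⟩, h3⟩

theorem MT.piAP_eq (z : ℝ) : Helper7.PNT.piAP (1 : ZMod 4) z = (P1 z).card := by
  rw [Helper7.PNT.piAP, P1]
  refine congrArg Finset.card (Finset.filter_congr fun p _ => ?_)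
  refine and_congr_right fun _ => ?_
  rw [← Nat.cast_one, ZMod.natCast_eq_natCast_iff']

/-- B1'': many primes `1 mod 4` in `(y/2, y]` -/
theorem primes_half : ∃ c : ℝ, 0 < c ∧ ∀ᶠ y : ℝ in atTop,
    c * y / Real.log y ≤ ((P1 y).filter (fun p : ℕ => y / 2 < p)).card := by
  have h1 := Helper7.PNT.pi_ap (q := 4) (a := 1) isUnit_one
  have h2 : ((4 : ℕ).totient : ℝ)⁻¹ = 1 / 2 := by
    rw [show (4 : ℕ).totient = 2 by decide]
    norm_num
  rw [h2] at h1
  have h3 : Tendsto (fun x : ℝ => x / 2) atTop atTop := tendsto_id.atTop_div_const (by norm_num)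
  have h4 := h1.comp h3
  have h5 := h1.eventually (lt_mem_nhds (show (9 / 20 : ℝ) < 1 / 2 by norm_num))
  have h6 := h4.eventually (gt_mem_nhds (show (1 / 2 : ℝ) < 11 / 20 by norm_num))
  refine ⟨1 / 20, by norm_num, ?_⟩
  filter_upwards [h5, h6, eventually_ge_atTop (Real.exp 7)] with y hy1 hy2 hy3
  have hexp : (8 : ℝ) ≤ Real.exp 7 := by
    have := Real.add_one_le_exp (7 : ℝ)
    linarith
  have hy0 : 0 < y := by linarith
  have hlog : 7 ≤ Real.log y := (Real.le_log_iff_exp_le hy0).2 hy3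
  have hlog2 : Real.log (y / 2) = Real.log y - Real.log 2 :=
    Real.log_div hy0.ne' (by norm_num)
  have hl2 : Real.log 2 ≤ 0.7 := by
    have := Real.log_two_lt_d9
    linarith
  rw [MT.piAP_eq] at hy1
  simp only [Function.comp] at hy2
  rw [MT.piAP_eq, hlog2] at hy2
  rw [lt_div_iff₀ hy0] at hy1
  rw [div_lt_iff₀ (by linarith)] at hy2
  have hcard : ((P1 y).card : ℝ) ≤ (P1 (y / 2)).card +
      ((P1 y).filter (fun p : ℕ => y / 2 < p)).card := by
    have h7 := Finset.card_filter_add_card_filter_not (s := P1 y) (fun p : ℕ => y / 2 < p)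
    have h8 : ((P1 y).filter (fun p : ℕ => ¬ y / 2 < p)).card ≤ (P1 (y / 2)).card := by
      refine Finset.card_le_card fun p hp => ?_
      rw [Finset.mem_filter, MT.mem_P1 hy0.le, not_lt] at hp
      rw [MT.mem_P1 (by linarith)]
      exact ⟨hp.2, hp.1.2⟩
    have h9 : (P1 y).card ≤ (P1 (y / 2)).card +
      ((P1 y).filter (fun p : ℕ => y / 2 < p)).card := by omega
    exact_mod_cast h9
  rw [div_le_iff₀ (by linarith)]
  set A : ℝ := ((P1 y).card : ℝ)
  set B : ℝ := ((P1 (y / 2)).card : ℝ)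
  set D : ℝ := (((P1 y).filter (fun p : ℕ => y / 2 < p)).card : ℝ)
  have hB : 0 ≤ B := Nat.cast_nonneg _
  -- B * log y ≤ (10/9) * B * (log y - log 2)
  have hB2 : B * Real.log y ≤ 10 / 9 * (B * (Real.log y - Real.log 2)) := by nlinarith
  nlinarith

end Pool.Agent.Helper53.OM
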