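import Pool.Agent.Helper53.OM.Defs

/-!
# Block B4: number of representations times a prime `1 mod 4`
-/

open Filter
open scoped Real
open Pool.Agent.Helper22.GC

namespace Pool.Agent.Helper53.OM

lemma irr_of_norm {w : GaussianInt} {p : ℕ} (hp : p.Prime) (hw : w.norm = p) : Irreducible w := by
  have hunit : ∀ x : GaussianInt, x.norm.natAbs = 1 → IsUnit x := fun x hx =>
    Zsqrtd.norm_eq_one_iff.1 hx
  constructor
  · intro hu
    have h1 := Zsqrtd.norm_eq_one_iff.2 hu
    rw [hw, Int.natAbs_natCast] at h1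
    exact hp.one_lt.ne' h1
  · intro x y hxy
    have h1 : x.norm.natAbs * y.norm.natAbs = p := by
      rw [← Int.natAbs_mul, ← Zsqrtd.norm_mul, ← hxy, hw, Int.natAbs_natCast]
    have h2 : x.norm.natAbs = 1 ∨ y.norm.natAbs = 1 := by
      rcases (Nat.dvd_prime hp).1 (Dvd.intro _ h1) with h | h
      · exact Or.inl h
      · right
        rw [h] at h1
        exact Nat.eq_of_mul_eq_mul_left hp.pos (by rw [h1, mul_one])
    rcases h2 with h | h
    · exact Or.inl (hunit x h)
    · exact Or.inr (hunit y h)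

/-- B4: number of representations -/
theorem gr_mul_prime {m p : ℕ} (hm : 0 < m) (hp : p.Prime) (hp4 : p % 4 = 1) (hpm : ¬ p ∣ m) :
    2 * gr m ≤ gr (m * p) := by
  haveI : Fact p.Prime := ⟨hp⟩
  obtain ⟨a, b, hab⟩ := Nat.Prime.sq_add_sq (p := p) (by omega)
  set w : GaussianInt := ⟨a, b⟩ with hwdef
  set w' : GaussianInt := ⟨a, -b⟩ with hwdef'
  have hwn : w.norm = p := by
    rw [Zsqrtd.norm_def]
    simp only [hwdef]
    rw [← hab]; push_cast; ring
  have hwn' : w'.norm = p := by
    rw [Zsqrtd.norm_def]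
    simp only [hwdef']
    rw [← hab]; push_cast; ring
  have hirr : Irreducible w := irr_of_norm hp hwn
  have hprime : Prime w := hirr.prime
  have hw0 : w ≠ 0 := hprime.ne_zero
  have hw0' : w' ≠ 0 := (irr_of_norm hp hwn').ne_zero
  -- `w` does not divide `w'`
  have hnd : ¬ w ∣ w' := by
    intro h
    have h2 : w ∣ w + w' := dvd_add (dvd_refl w) h
    have h3 : w + w' = ((2 * a : ℕ) : GaussianInt) := by
      apply Zsqrtd.ext
      · simp [hwdef, hwdef']; ring
      · simp [hwdef, hwdef']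
    rw [h3] at h2
    obtain ⟨c, hc⟩ := h2
    have h4 : (((2 * a : ℕ) : GaussianInt)).norm = ((2 * a : ℕ) : ℤ) ^ 2 := by
      rw [Zsqrtd.norm_natCast]; ring
    rw [hc, Zsqrtd.norm_mul, hwn] at h4
    have h5 : p ∣ (2 * a) ^ 2 := by
      have : (p : ℤ) ∣ ((2 * a : ℕ) : ℤ) ^ 2 := ⟨c.norm, h4.symm⟩
      exact_mod_cast this
    have h6 : p ∣ 2 * a := hp.dvd_of_dvd_pow h5
    have h7 : p ∣ a := by
      rcases (Nat.Prime.dvd_mul hp).1 h6 with h | h
      · have := Nat.le_of_dvd (by norm_num) h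
        have := hp.two_le
        omega
      · exact h
    rcases Nat.eq_zero_or_pos a with h0 | h0
    · rw [h0] at hab
      have h8 : p = b ^ 2 := by rw [← hab]; ring
      have h9 : ¬ p.Prime := by
        rw [h8]
        exact Nat.Prime.not_prime_pow (le_refl 2)
      exact h9 hp
    · have h8 := Nat.le_of_dvd h0 h7
      nlinarith [Nat.zero_le (b ^ 2), hp.two_le]
  have hfin : (gS (m * p)).Finite := gS_finite _
  have hmaps : ∀ v : GaussianInt, v.norm = p → (fun z => z * v) '' gS m ⊆ gS (m * p) := by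
    rintro v hv _ ⟨z, hz, rfl⟩
    have hz' : z.norm = m := hz
    show (z * v).norm = ((m * p : ℕ) : ℤ)
    rw [Zsqrtd.norm_mul, hz', hv]
    push_cast; rfl
  have hinj : ∀ v : GaussianInt, v ≠ 0 → Function.Injective (fun z : GaussianInt => z * v) :=
    fun v hv x y hxy => mul_right_cancel₀ hv hxy
  have hdisj : Disjoint ((fun z => z * w) '' gS m) ((fun z => z * w') '' gS m) := by
    rw [Set.disjoint_left]
    rintro _ ⟨z, hz, rfl⟩ ⟨z', hz', h⟩
    have h' : z' * w' = z * w := h
    have h1 : w ∣ z' * w' := ⟨z, by rw [h', mul_comm]⟩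
    rcases hprime.dvd_or_dvd h1 with h2 | h2
    · obtain ⟨c, hc⟩ := h2
      have hz1 : z'.norm = m := hz'
      rw [hc, Zsqrtd.norm_mul, hwn] at hz1
      have : (p : ℤ) ∣ (m : ℤ) := ⟨c.norm, hz1.symm⟩
      exact hpm (by exact_mod_cast this)
    · exact hnd h2
  have hcard : (((fun z => z * w) '' gS m) ∪ ((fun z => z * w') '' gS m)).ncard = 2 * gr m := by
    rw [Set.ncard_union_eq hdisj ((gS_finite m).image _) ((gS_finite m).image _),
      Set.ncard_image_of_injective _ (hinj w hw0), Set.ncard_image_of_injective _ (hinj w' hw0')]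
    unfold gr
    ring
  rw [← hcard]
  exact Set.ncard_le_ncard (Set.union_subset (hmaps w hwn) (hmaps w' hwn')) hfin

end Pool.Agent.Helper53.OM
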