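import Pool.Agent.Helper53.OM.Defs
import Pool.Agent.Helper53.OM.GrMul
import Pool.Agent.Helper53.OM.Mert

/-!
# Block B2: many integers with exactly `k` prime factors, all `1 mod 4`
-/

open Filter
open scoped Real
open Pool.Agent.Helper22.GC

namespace Pool.Agent.Helper53.OM

namespace Cnt

noncomputable section

/-- elementary symmetric sums -/
def es (P : Finset ℕ) (w : ℕ → ℝ) (j : ℕ) : ℝ := ∑ S ∈ P.powersetCard j, ∏ p ∈ S, w p

lemma es_zero (P : Finset ℕ) (w : ℕ → ℝ) : es P w 0 = 1 := by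
  simp [es]

lemma es_empty (w : ℕ → ℝ) (j : ℕ) : es ∅ w (j + 1) = 0 := by
  unfold es
  rw [Finset.powersetCard_eq_empty.2 (by simp), Finset.sum_empty]

lemma es_insert {P : Finset ℕ} {q : ℕ} (hq : q ∉ P) (w : ℕ → ℝ) (j : ℕ) :
    es (insert q P) w (j + 1) = es P w (j + 1) + w q * es P w j := by
  unfold es
  rw [Finset.powersetCard_succ_insert hq, Finset.sum_union]
  · congr 1
    rw [Finset.sum_image, Finset.mul_sum]
    · refine Finset.sum_congr rfl fun S hS => ?_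
      have hqS : q ∉ S := fun h => hq ((Finset.mem_powersetCard.1 hS).1 h)
      rw [Finset.prod_insert hqS]
    · intro S hS T hT hST
      have hqS : q ∉ S := fun h => hq ((Finset.mem_powersetCard.1 hS).1 h)
      have hqT : q ∉ T := fun h => hq ((Finset.mem_powersetCard.1 hT).1 h)
      have := congrArg (fun U => Finset.erase U q) hST
      simpa [Finset.erase_insert hqS, Finset.erase_insert hqT] using this
  · rw [Finset.disjoint_left]
    intro S hS hS'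
    rw [Finset.mem_image] at hS'
    obtain ⟨T, hT, rfl⟩ := hS'
    exact hq ((Finset.mem_powersetCard.1 hS).1 (Finset.mem_insert_self q T))

lemma es_nonneg (P : Finset ℕ) {w : ℕ → ℝ} (hw : ∀ p, 0 ≤ w p) (j : ℕ) : 0 ≤ es P w j :=
  Finset.sum_nonneg fun _ _ => Finset.prod_nonneg fun _ _ => hw _

lemma es_one (P : Finset ℕ) (w : ℕ → ℝ) : es P w 1 = ∑ p ∈ P, w p := by
  simp [es, Finset.powersetCard_one]

lemma pow_ge {s w : ℝ} (hs : 0 ≤ s) (hw : 0 ≤ w) (j : ℕ) :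
    s ^ (j + 1) + (j + 1) * w * s ^ j ≤ (s + w) ^ (j + 1) := by
  induction j with
  | zero => simp
  | succ j ih =>
    have h1 : (s + w) * (s ^ (j + 1) + (j + 1) * w * s ^ j) ≤ (s + w) * (s + w) ^ (j + 1) :=
      mul_le_mul_of_nonneg_left ih (by positivity)
    have h2 : (s + w) ^ (j + 1 + 1) = (s + w) * (s + w) ^ (j + 1) := by ring
    rw [h2]
    refine le_trans ?_ h1
    have h3 : (0 : ℝ) ≤ (j + 1) * w ^ 2 * s ^ j := by positivity
    push_cast
    have h4 : (s + w) * (s ^ (j + 1) + (↑j + 1) * w * s ^ j) =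
        s ^ (j + 1 + 1) + (↑j + 1 + 1) * w * s ^ (j + 1) + (j + 1) * w ^ 2 * s ^ j := by ring
    rw [h4]
    linarith

lemma pow_le {s w : ℝ} (hs : 0 ≤ s) (hw : 0 ≤ w) (m : ℕ) :
    (s + w) ^ (m + 2) ≤ s ^ (m + 2) + (m + 2) * w * s ^ (m + 1) +
      ((m + 2) * (m + 1) / 2) * w ^ 2 * (s + w) ^ m := by
  induction m with
  | zero =>
    refine le_of_eq ?_
    push_cast
    ring
  | succ m ih =>
    have h1 := mul_le_mul_of_nonneg_left ih (show 0 ≤ s + w by positivity)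
    have h2 : (s + w) ^ (m + 1 + 2) = (s + w) * (s + w) ^ (m + 2) := by ring
    have h3 : (m + 2) * w ^ 2 * s ^ (m + 1) ≤ (m + 2) * w ^ 2 * (s + w) ^ (m + 1) := by
      gcongr
      linarith
    rw [h2]
    refine le_trans h1 ?_
    push_cast
    have h4 : (s + w) * (s ^ (m + 2) + (↑m + 2) * w * s ^ (m + 1) +
        (↑m + 2) * (↑m + 1) / 2 * w ^ 2 * (s + w) ^ m) =
        s ^ (m + 1 + 2) + (↑m + 1 + 2) * w * s ^ (m + 1 + 1) +
        (m + 2) * w ^ 2 * s ^ (m + 1) + (↑m + 2) * (↑m + 1) / 2 * w ^ 2 * (s + w) ^ (m + 1) := by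
      ring
    have h5 : (↑m + 1 + 2) * (↑m + 1 + 1) / 2 * w ^ 2 * (s + w) ^ (m + 1) =
        (m + 2) * w ^ 2 * (s + w) ^ (m + 1) +
          (↑m + 2) * (↑m + 1) / 2 * w ^ 2 * (s + w) ^ (m + 1) := by ring
    rw [h4, h5]
    linarith

lemma es_upper (P : Finset ℕ) {w : ℕ → ℝ} (hw : ∀ p, 0 ≤ w p) (j : ℕ) :
    (j.factorial : ℝ) * es P w j ≤ (∑ p ∈ P, w p) ^ j := by
  classical
  induction P using Finset.induction_on generalizing j with
  | empty =>
    rcases j with _ | j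
    · simp [es_zero]
    · simp [es_empty]
  | insert q P hq ih =>
    rcases j with _ | j
    · simp [es_zero]
    · rw [es_insert hq, Finset.sum_insert hq, Nat.factorial_succ]
      have hs : 0 ≤ ∑ p ∈ P, w p := Finset.sum_nonneg fun _ _ => hw _
      have h1 := ih (j + 1)
      have h2 := ih j
      rw [Nat.factorial_succ] at h1
      push_cast at h1 ⊢
      have h3 := pow_ge hs (hw q) j
      have h4 : ((j : ℝ) + 1) * w q * (j.factorial * es P w j) ≤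
          ((j : ℝ) + 1) * w q * (∑ p ∈ P, w p) ^ j :=
        mul_le_mul_of_nonneg_left h2 (mul_nonneg (by positivity) (hw q))
      rw [add_comm (w q)]
      nlinarith

lemma es_lower (P : Finset ℕ) {w : ℕ → ℝ} (hw : ∀ p, 0 ≤ w p) (j : ℕ) :
    (∑ p ∈ P, w p) ^ (j + 2) - ((j + 2) * (j + 1) / 2) * (∑ p ∈ P, w p ^ 2) *
      (∑ p ∈ P, w p) ^ j ≤ ((j + 2).factorial : ℝ) * es P w (j + 2) := by
  classical
  induction P using Finset.induction_on generalizing j with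
  | empty => simp [es_empty]
  | insert q P hq ih =>
    have hs : 0 ≤ ∑ p ∈ P, w p := Finset.sum_nonneg fun _ _ => hw _
    have hs2 : 0 ≤ ∑ p ∈ P, w p ^ 2 := Finset.sum_nonneg fun _ _ => sq_nonneg _
    rw [es_insert hq, Finset.sum_insert hq, Finset.sum_insert hq]
    set s := ∑ p ∈ P, w p with hsdef
    set t := ∑ p ∈ P, w p ^ 2 with htdef
    have hT := pow_le hs (hw q) j
    have h1 := ih j
    -- lower bound for the second term
    have h2 : ((j : ℝ) + 2) * w q * (s ^ (j + 1) - ((j + 1) * j / 2) * t * s ^ (j - 1)) ≤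
        ((j : ℝ) + 2) * w q * ((j + 1).factorial * es P w (j + 1)) := by
      refine mul_le_mul_of_nonneg_left ?_ (mul_nonneg (by positivity) (hw q))
      rcases j with _ | i
      · simp [es_one, hsdef]
      · have h3 := ih i
        have h4 : i + 1 - 1 = i := by omega
        rw [h4]
        push_cast
        have h5 : (i : ℝ) + 1 + 1 = i + 2 := by ring
        rw [h5]
        exact h3
    have h6 : s ^ j + j * w q * s ^ (j - 1) ≤ (s + w q) ^ j := by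
      rcases j with _ | i
      · simp
      · have := pow_ge hs (hw q) i
        have h4 : i + 1 - 1 = i := by omega
        rw [h4]
        push_cast
        exact this
    have h7 : (((j : ℝ) + 2) * (j + 1) / 2) * t * (s ^ j + j * w q * s ^ (j - 1)) ≤
        (((j : ℝ) + 2) * (j + 1) / 2) * t * (s + w q) ^ j :=
      mul_le_mul_of_nonneg_left h6 (by positivity)
    have h8 : ((j + 2).factorial : ℝ) = (j + 2) * (j + 1).factorial := by
      rw [Nat.factorial_succ]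
      push_cast
      ring
    rw [add_comm (w q) s, add_comm (w q ^ 2) t]
    have h9 : ((j + 2).factorial : ℝ) * (es P w (j + 1 + 1) + w q * es P w (j + 1)) =
        ((j + 2).factorial : ℝ) * es P w (j + 2) +
          ((j : ℝ) + 2) * w q * ((j + 1).factorial * es P w (j + 1)) := by
      rw [h8]
      ring
    rw [h9]
    have h10 : ((j : ℝ) + 2) * w q * (s ^ (j + 1) - ((j + 1) * j / 2) * t * s ^ (j - 1)) =
        (j + 2) * w q * s ^ (j + 1) -
          (((j : ℝ) + 2) * (j + 1) / 2) * t * (j * w q * s ^ (j - 1)) := by ring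
    rw [h10] at h2
    have h11 : (((j : ℝ) + 2) * (j + 1) / 2) * (t + w q ^ 2) * (s + w q) ^ j =
        (((j : ℝ) + 2) * (j + 1) / 2) * t * (s + w q) ^ j +
          (((j : ℝ) + 2) * (j + 1) / 2) * w q ^ 2 * (s + w q) ^ j := by ring
    rw [h11]
    rw [mul_add] at h7
    linarith


/-! ### The primes `1 mod 4` -/

lemma mem_P1 {z : ℝ} {p : ℕ} : p ∈ P1 z ↔ (1 ≤ p ∧ p ≤ ⌊z⌋₊) ∧ p.Prime ∧ p % 4 = 1 := by
  simp [P1]

lemma sum_tel (J : ℕ) : ∑ j ∈ Finset.Icc 1 J, ((1 : ℝ) / ((4 * j + 1 : ℕ) : ℝ)) ^ 2 ≤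
    1 / 12 - 1 / (4 * (4 * J + 3)) := by
  induction J with
  | zero => norm_num
  | succ J ih =>
    rw [Finset.sum_Icc_succ_top (by omega)]
    have h1 : ((1 : ℝ) / ((4 * (J + 1) + 1 : ℕ) : ℝ)) ^ 2 ≤
        1 / (4 * (4 * J + 3)) - 1 / (4 * (4 * ((J + 1 : ℕ) : ℝ) + 3)) := by
      push_cast
      have hJ : (0 : ℝ) ≤ J := Nat.cast_nonneg J
      rw [div_pow, one_pow, div_sub_div _ _ (by positivity) (by positivity),
        div_le_div_iff₀ (by positivity) (by positivity)]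
      nlinarith [mul_nonneg hJ hJ, mul_nonneg (mul_nonneg hJ hJ) hJ]
    linarith

lemma sum_sq_le (z : ℝ) : ∑ p ∈ P1 z, ((1 : ℝ) / p) ^ 2 ≤ 1 / 12 := by
  classical
  have hsub : P1 z ⊆ (Finset.Icc 1 ⌊z⌋₊).image (fun j : ℕ => 4 * j + 1) := by
    intro p hp
    rw [mem_P1] at hp
    obtain ⟨⟨h1, h2⟩, h3, h4⟩ := hp
    rw [Finset.mem_image]
    refine ⟨p / 4, ?_, by omega⟩
    rw [Finset.mem_Icc]
    have := h3.two_le
    omega
  have h1 : ∑ p ∈ P1 z, ((1 : ℝ) / p) ^ 2 ≤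
      ∑ p ∈ (Finset.Icc 1 ⌊z⌋₊).image (fun j : ℕ => 4 * j + 1), ((1 : ℝ) / p) ^ 2 :=
    Finset.sum_le_sum_of_subset_of_nonneg hsub fun _ _ _ => sq_nonneg _
  rw [Finset.sum_image (by
    intro a _ b _ h
    simp only at h
    omega)] at h1
  have h2 := sum_tel ⌊z⌋₊
  have h3 : (0 : ℝ) ≤ 1 / (4 * (4 * (⌊z⌋₊ : ℝ) + 3)) := by positivity
  linarith

lemma gr_one : 1 ≤ gr 1 := by
  unfold gr
  have h1 : (1 : GaussianInt) ∈ gS 1 := by
    change (1 : GaussianInt).norm = ((1 : ℕ) : ℤ)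
    simp
  exact (Set.ncard_pos (gS_finite 1)).2 ⟨1, h1⟩

lemma not_dvd_prod {S : Finset ℕ} (hS : ∀ q ∈ S, q.Prime) {p : ℕ} (hp : p.Prime) (h : p ∉ S) :
    ¬ p ∣ ∏ q ∈ S, q := by
  intro hd
  obtain ⟨q, hq, hpq⟩ := (Prime.dvd_finsetProd_iff hp.prime _).1 hd
  exact h ((Nat.prime_dvd_prime_iff_eq hp (hS q hq)).1 hpq ▸ hq)

lemma gr_prod {S : Finset ℕ} (hS : ∀ q ∈ S, q.Prime ∧ q % 4 = 1) :
    2 ^ S.card ≤ gr (∏ q ∈ S, q) := by
  classical
  induction S using Finset.induction_on with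
  | empty => simpa using gr_one
  | insert p S hp ih =>
    have h1 := ih fun q hq => hS q (Finset.mem_insert_of_mem hq)
    have h2 := hS p (Finset.mem_insert_self p S)
    have h3 : ¬ p ∣ ∏ q ∈ S, q :=
      not_dvd_prod (fun q hq => (hS q (Finset.mem_insert_of_mem hq)).1) h2.1 hp
    have h4 : 0 < ∏ q ∈ S, q := Finset.prod_pos fun q hq =>
      (hS q (Finset.mem_insert_of_mem hq)).1.pos
    rw [Finset.prod_insert hp, Finset.card_insert_of_notMem hp, mul_comm p]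
    have h5 := gr_mul_prime h4 h2.1 h2.2 h3
    calc 2 ^ (S.card + 1) = 2 * 2 ^ S.card := by ring
      _ ≤ 2 * gr (∏ q ∈ S, q) := by omega
      _ ≤ _ := h5

/-! ### Elementary inequalities -/

lemma exp_le_lin {u : ℝ} (h0 : 0 ≤ u) (h1 : u ≤ 1) : Real.exp u ≤ 1 + 2 * u := by
  have h := Real.abs_exp_sub_one_sub_id_le (x := u) (by rw [abs_of_nonneg h0]; exact h1)
  have h2 := (abs_le.1 h).2
  nlinarith

lemma exp_neg_le {u : ℝ} (h0 : 0 ≤ u) (h1 : u ≤ 1 / 2) : Real.exp (-(2 * u)) ≤ 1 - u := by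
  have h2 : 2 * u + 1 ≤ Real.exp (2 * u) := Real.add_one_le_exp _
  rw [Real.exp_neg]
  rw [inv_le_iff_one_le_mul₀ (Real.exp_pos _)]
  nlinarith

lemma exp_six : Real.exp (-6) ≤ 1 / 8 := by
  have h1 : (2 : ℝ) + 1 ≤ Real.exp 2 := Real.add_one_le_exp 2
  have h2 : Real.exp 6 = Real.exp 2 ^ 3 := by
    rw [← Real.exp_nat_mul]
    norm_num
  have h3 : (8 : ℝ) ≤ Real.exp 6 := by
    rw [h2]
    have : (3 : ℝ) ^ 3 ≤ Real.exp 2 ^ 3 := pow_le_pow_left₀ (by norm_num) (by linarith) 3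
    linarith
  rw [Real.exp_neg, inv_eq_one_div]
  exact one_div_le_one_div_of_le (by norm_num) h3

/-- the main term -/
lemma main_term {P : Finset ℕ} {w : ℕ → ℝ} (hw : ∀ p, 0 ≤ w p) {k : ℕ}
    (h2 : ∑ p ∈ P, w p ^ 2 ≤ 1 / 12) (hs : 0 ≤ ∑ p ∈ P, w p) (hk : (k : ℝ) ≤ 3 * ∑ p ∈ P, w p) :
    5 / 8 * (∑ p ∈ P, w p) ^ k ≤ (k.factorial : ℝ) * es P w k := by
  rcases k with _ | _ | j
  · simp [es_zero]
    norm_num
  · simp [es_one]
    linarith
  · have h3 := es_lower P hw j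
    set s := ∑ p ∈ P, w p with hsdef
    have h4 : ((j : ℝ) + 2) ≤ 3 * s := by
      push_cast at hk
      linarith
    have h5 : ((j + 2) * (j + 1) / 2) * (∑ p ∈ P, w p ^ 2) * s ^ j ≤ 3 / 8 * s ^ (j + 2) := by
      have hj : (0 : ℝ) ≤ j := Nat.cast_nonneg j
      have h6 : (((j : ℝ) + 2) * (j + 1) / 2) * (∑ p ∈ P, w p ^ 2) ≤ 3 / 8 * s ^ 2 := by
        have h7 : (((j : ℝ) + 2) * (j + 1) / 2) ≤ 9 / 2 * s ^ 2 := by nlinarith
        have h8 : 0 ≤ (((j : ℝ) + 2) * (j + 1) / 2) := by positivity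
        calc (((j : ℝ) + 2) * (j + 1) / 2) * (∑ p ∈ P, w p ^ 2)
            ≤ (((j : ℝ) + 2) * (j + 1) / 2) * (1 / 12) := mul_le_mul_of_nonneg_left h2 h8
          _ ≤ (9 / 2 * s ^ 2) * (1 / 12) := mul_le_mul_of_nonneg_right h7 (by norm_num)
          _ = 3 / 8 * s ^ 2 := by ring
      calc ((j + 2) * (j + 1) / 2) * (∑ p ∈ P, w p ^ 2) * s ^ j ≤ 3 / 8 * s ^ 2 * s ^ j :=
            mul_le_mul_of_nonneg_right h6 (by positivity)
        _ = 3 / 8 * s ^ (j + 2) := by ring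
    have h9 : 5 / 8 * s ^ (j + 1 + 1) = s ^ (j + 2) - 3 / 8 * s ^ (j + 2) := by ring
    rw [h9]
    exact le_trans (by linarith) h3

/-- Rankin's bound for the tail -/
lemma tail_term {s s' E : ℝ} (hs : 0 < s) (hs' : 0 ≤ s') (h : s' ≤ s + 3) {k : ℕ}
    (hk : (k : ℝ) ≤ 3 * s) (hE : E = Real.exp (-15)) : E * s' ^ k ≤ 1 / 8 * s ^ k := by
  have h1 : s' ^ k ≤ (s + 3) ^ k := pow_le_pow_left₀ hs' h k
  have h2 : (s + 3) ^ k = s ^ k * (1 + 3 / s) ^ k := by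
    rw [← mul_pow]
    congr 1
    field_simp
  have h3 : (1 + 3 / s) ^ k ≤ Real.exp 9 := by
    have h4 : 1 + 3 / s ≤ Real.exp (3 / s) := by
      have := Real.add_one_le_exp (3 / s)
      linarith
    calc (1 + 3 / s) ^ k ≤ Real.exp (3 / s) ^ k := pow_le_pow_left₀ (by positivity) h4 k
      _ = Real.exp (k * (3 / s)) := by rw [Real.exp_nat_mul]
      _ ≤ Real.exp 9 := by
        apply Real.exp_le_exp.2
        rw [mul_div_assoc', div_le_iff₀ hs]
        nlinarith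
  have hEp : 0 < E := by rw [hE]; exact Real.exp_pos _
  have h5 : E * Real.exp 9 ≤ 1 / 8 := by
    rw [hE, ← Real.exp_add]
    have : (-15 : ℝ) + 9 = -6 := by norm_num
    rw [this]
    exact exp_six
  calc E * s' ^ k ≤ E * (s ^ k * (1 + 3 / s) ^ k) := by
        rw [← h2]
        exact mul_le_mul_of_nonneg_left h1 hEp.le
    _ ≤ E * (s ^ k * Real.exp 9) := by gcongr
    _ = (E * Real.exp 9) * s ^ k := by ring
    _ ≤ 1 / 8 * s ^ k := mul_le_mul_of_nonneg_right h5 (by positivity)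

/-- replacing `s` by `x` -/
lemma base_term {s x C : ℝ} (hC : 0 ≤ C) (hx : 0 < x) (hCx : 2 * C ≤ x) (hs : x - C ≤ s) {k : ℕ}
    (hk : (k : ℝ) ≤ 3 * x) : Real.exp (-(6 * C)) * x ^ k ≤ s ^ k := by
  have h1 : 0 ≤ x - C := by linarith
  have h2 : x - C = x * (1 - C / x) := by field_simp
  have h3 : Real.exp (-(2 * (C / x))) ≤ 1 - C / x := by
    apply exp_neg_le (by positivity)
    rw [div_le_div_iff₀ hx (by norm_num)]
    linarith
  calc Real.exp (-(6 * C)) * x ^ k ≤ Real.exp (k * (-(2 * (C / x)))) * x ^ k := by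
        apply mul_le_mul_of_nonneg_right _ (by positivity)
        apply Real.exp_le_exp.2
        have h4 : (k : ℝ) * (-(2 * (C / x))) = -(k * (2 * C) / x) := by ring
        rw [h4]
        apply neg_le_neg
        rw [div_le_iff₀ hx]
        nlinarith
    _ = (Real.exp (-(2 * (C / x)))) ^ k * x ^ k := by rw [Real.exp_nat_mul]
    _ ≤ (1 - C / x) ^ k * x ^ k :=
        mul_le_mul_of_nonneg_right (pow_le_pow_left₀ (Real.exp_pos _).le h3 k) (by positivity)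
    _ = (x - C) ^ k := by rw [h2, mul_pow]; ring
    _ ≤ s ^ k := pow_le_pow_left₀ h1 hs k

/-! ### The sum over the products of `k` primes up to `√N` -/

/-- the sets of `k` primes with product at most `√N` -/
def NN (P : Finset ℕ) (k : ℕ) (R : ℝ) : Finset (Finset ℕ) :=
  (P.powersetCard k).filter (fun S => ((∏ p ∈ S, p : ℕ) : ℝ) ≤ R)

lemma prod_inv (S : Finset ℕ) : ∏ p ∈ S, ((1 : ℝ) / p) = 1 / ((∏ p ∈ S, p : ℕ) : ℝ) := by
  rw [Finset.prod_div_distrib]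
  simp

lemma sum_NN {P : Finset ℕ} {k : ℕ} {R η : ℝ} (hP : ∀ p ∈ P, 0 < p) (hR : 0 < R)
    (hη : 0 ≤ η) :
    es P (fun p => 1 / (p : ℝ)) k - Real.exp (-(η * Real.log R)) *
      es P (fun p => 1 / (p : ℝ) * Real.exp (η * Real.log p)) k ≤
      ∑ S ∈ NN P k R, 1 / ((∏ p ∈ S, p : ℕ) : ℝ) := by
  classical
  have h1 : es P (fun p => 1 / (p : ℝ)) k =
      ∑ S ∈ NN P k R, 1 / ((∏ p ∈ S, p : ℕ) : ℝ) +
      ∑ S ∈ (P.powersetCard k).filter (fun S => ¬ ((∏ p ∈ S, p : ℕ) : ℝ) ≤ R),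
        1 / ((∏ p ∈ S, p : ℕ) : ℝ) := by
    unfold es NN
    rw [Finset.sum_filter_add_sum_filter_not]
    exact Finset.sum_congr rfl fun S _ => prod_inv S
  have h2 : ∑ S ∈ (P.powersetCard k).filter (fun S => ¬ ((∏ p ∈ S, p : ℕ) : ℝ) ≤ R),
        1 / ((∏ p ∈ S, p : ℕ) : ℝ) ≤
      Real.exp (-(η * Real.log R)) *
        es P (fun p => 1 / (p : ℝ) * Real.exp (η * Real.log p)) k := by
    unfold es
    rw [Finset.mul_sum]
    refine (Finset.sum_le_sum (fun S hS => ?_)).trans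
      (Finset.sum_le_sum_of_subset_of_nonneg (Finset.filter_subset _ _) fun S _ _ => ?_)
    · rw [Finset.mem_filter, Finset.mem_powersetCard, not_le] at hS
      obtain ⟨⟨hS1, hS2⟩, hS3⟩ := hS
      have hpos : 0 < ∏ p ∈ S, p := Finset.prod_pos fun p hp => hP p (hS1 hp)
      have hlog : Real.log R ≤ ∑ p ∈ S, Real.log p := by
        have h4 : ∑ p ∈ S, Real.log p = Real.log ((∏ p ∈ S, p : ℕ) : ℝ) := by
          push_cast
          rw [Real.log_prod]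
          intro p hp
          have := hP p (hS1 hp)
          positivity
        rw [h4]
        exact Real.log_le_log hR hS3.le
      rw [Finset.prod_mul_distrib, prod_inv, ← Real.exp_sum, ← Finset.mul_sum]
      have h5 : 1 ≤ Real.exp (-(η * Real.log R)) * Real.exp (η * ∑ p ∈ S, Real.log p) := by
        rw [← Real.exp_add]
        apply Real.one_le_exp
        nlinarith
      have h6 : 0 ≤ 1 / ((∏ p ∈ S, p : ℕ) : ℝ) := by positivity
      calc 1 / ((∏ p ∈ S, p : ℕ) : ℝ) = 1 / ((∏ p ∈ S, p : ℕ) : ℝ) * 1 := by ring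
        _ ≤ 1 / ((∏ p ∈ S, p : ℕ) : ℝ) *
            (Real.exp (-(η * Real.log R)) * Real.exp (η * ∑ p ∈ S, Real.log p)) :=
          mul_le_mul_of_nonneg_left h5 h6
        _ = _ := by ring
    · refine mul_nonneg (Real.exp_pos _).le (Finset.prod_nonneg fun p _ => ?_)
      positivity
  linarith

lemma shift_sum {z η C : ℝ} (hz : 1 ≤ z) (hη : 0 ≤ η) (hηz : η * Real.log z ≤ 1)
    (hC : ∑ p ∈ P1 z, Real.log p / p ≤ Real.log z + C) (hηC : η * C ≤ 1 / 2) :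
    ∑ p ∈ P1 z, 1 / (p : ℝ) * Real.exp (η * Real.log p) ≤ ∑ p ∈ P1 z, 1 / (p : ℝ) + 3 := by
  have h1 : ∑ p ∈ P1 z, 1 / (p : ℝ) * Real.exp (η * Real.log p) ≤
      ∑ p ∈ P1 z, (1 / (p : ℝ) + 2 * η * (Real.log p / p)) := by
    refine Finset.sum_le_sum fun p hp => ?_
    rw [mem_P1] at hp
    obtain ⟨⟨hp1, hp2⟩, hp3, hp4⟩ := hp
    have hp0 : (0 : ℝ) < p := by exact_mod_cast hp3.pos
    have hlp : 0 ≤ Real.log p := Real.log_nonneg (by exact_mod_cast hp1)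
    have hpz : (p : ℝ) ≤ z := (Nat.le_floor_iff (by linarith)).1 hp2
    have hlz : Real.log p ≤ Real.log z := Real.log_le_log hp0 hpz
    have h2 : Real.exp (η * Real.log p) ≤ 1 + 2 * (η * Real.log p) :=
      exp_le_lin (mul_nonneg hη hlp) (le_trans (mul_le_mul_of_nonneg_left hlz hη) hηz)
    calc 1 / (p : ℝ) * Real.exp (η * Real.log p) ≤ 1 / (p : ℝ) * (1 + 2 * (η * Real.log p)) :=
          mul_le_mul_of_nonneg_left h2 (by positivity)
      _ = _ := by ring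
  rw [Finset.sum_add_distrib, ← Finset.mul_sum] at h1
  have h3 : 2 * η * ∑ p ∈ P1 z, Real.log p / p ≤ 3 := by
    calc 2 * η * ∑ p ∈ P1 z, Real.log p / p ≤ 2 * η * (Real.log z + C) :=
          mul_le_mul_of_nonneg_left hC (by positivity)
      _ = 2 * (η * Real.log z) + 2 * (η * C) := by ring
      _ ≤ 3 := by linarith
  linarith

/-- the lower bound of the sum over the products of `k` primes -/
lemma sum_lower {L x z C₁ C₂ : ℝ} {k : ℕ} (hL : 0 < L) (hx : 0 < x)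
    (hz : z = Real.exp (L / 30)) (hC₁ : 0 ≤ C₁)
    (h1 : x - C₁ ≤ ∑ p ∈ P1 z, (1 : ℝ) / p)
    (h2 : ∑ p ∈ P1 z, Real.log p / p ≤ Real.log z + C₂) (h3 : 30 / L * C₂ ≤ 1 / 2)
    (h4 : 15 / 2 * C₁ ≤ x) (hk : (k : ℝ) ≤ 13 / 5 * x) :
    1 / 2 * (Real.exp (-(6 * C₁)) * x ^ k) / k.factorial ≤
      ∑ S ∈ NN (P1 z) k (Real.exp (L / 2)), 1 / ((∏ p ∈ S, p : ℕ) : ℝ) := by
  set s := ∑ p ∈ P1 z, (1 : ℝ) / p with hsdef
  have hs : 0 < s := by linarith
  have hks : (k : ℝ) ≤ 3 * s := by linarith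
  have hlz : Real.log z = L / 30 := by rw [hz, Real.log_exp]
  have hz1 : 1 ≤ z := by rw [hz]; exact Real.one_le_exp (by positivity)
  have hη : (0 : ℝ) ≤ 30 / L := by positivity
  have hfac : (0 : ℝ) < k.factorial := by exact_mod_cast k.factorial_pos
  have ha := sum_NN (P := P1 z) (k := k) (R := Real.exp (L / 2)) (η := 30 / L)
    (fun p hp => (mem_P1.1 hp).2.1.pos) (Real.exp_pos _) hη
  have hE : Real.exp (-(30 / L * Real.log (Real.exp (L / 2)))) = Real.exp (-15) := by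
    rw [Real.log_exp]
    congr 1
    field_simp
    norm_num
  rw [hE] at ha
  have hb : 5 / 8 * s ^ k ≤ (k.factorial : ℝ) * es (P1 z) (fun p => 1 / (p : ℝ)) k :=
    main_term (fun p => by positivity) (sum_sq_le z) hs.le hks
  have hc := shift_sum hz1 hη (by rw [hlz]; field_simp; norm_num) h2 h3
  have hd := es_upper (P1 z) (w := fun p => 1 / (p : ℝ) * Real.exp (30 / L * Real.log p))
    (fun p => by positivity) k
  have he : Real.exp (-15) * (∑ p ∈ P1 z, 1 / (p : ℝ) * Real.exp (30 / L * Real.log p)) ^ k ≤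
      1 / 8 * s ^ k :=
    tail_term hs (Finset.sum_nonneg fun p _ => by positivity) hc hks rfl
  have hf : Real.exp (-(6 * C₁)) * x ^ k ≤ s ^ k :=
    base_term hC₁ hx (by linarith) h1 (by linarith)
  have hg : (k.factorial : ℝ) * (Real.exp (-15) *
      es (P1 z) (fun p => 1 / (p : ℝ) * Real.exp (30 / L * Real.log p)) k) ≤ 1 / 8 * s ^ k := by
    refine le_trans ?_ he
    calc (k.factorial : ℝ) * (Real.exp (-15) *
        es (P1 z) (fun p => 1 / (p : ℝ) * Real.exp (30 / L * Real.log p)) k) =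
        Real.exp (-15) * ((k.factorial : ℝ) *
          es (P1 z) (fun p => 1 / (p : ℝ) * Real.exp (30 / L * Real.log p)) k) := by ring
      _ ≤ _ := mul_le_mul_of_nonneg_left hd (Real.exp_pos _).le
  rw [div_le_iff₀ hfac]
  have hh : 1 / 2 * s ^ k ≤ (k.factorial : ℝ) *
      ∑ S ∈ NN (P1 z) k (Real.exp (L / 2)), 1 / ((∏ p ∈ S, p : ℕ) : ℝ) := by
    have := mul_le_mul_of_nonneg_left ha hfac.le
    rw [mul_sub] at this
    linarith
  linarith

/-! ### The set of integers -/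

/-- the primes `1 mod 4` in `(y/2, y]` -/
def Q1 (y : ℝ) : Finset ℕ := (P1 y).filter (fun p : ℕ => y / 2 < p)

lemma build {N k : ℕ} {z c : ℝ} (hc : 0 ≤ c) (hN : 2 ≤ N)
    (hz : z < √N / 2)
    (hQ : ∀ y : ℝ, √N ≤ y → c * y / Real.log y ≤ (Q1 y).card) :
    ∃ M : Finset ℕ, M ⊆ Finset.Icc 1 N ∧ (∀ m ∈ M, 2 ^ (k + 1) ≤ gr m) ∧
      c * (N / Real.log N) * ∑ S ∈ NN (P1 z) k (√N), 1 / ((∏ p ∈ S, p : ℕ) : ℝ) ≤ M.card := by
  classical
  have hN0 : (0 : ℝ) < N := by positivity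
  have hN1 : (1 : ℝ) < N := by exact_mod_cast hN
  have hsq : √(N : ℝ) * √N = N := Real.mul_self_sqrt hN0.le
  have hsq1 : 1 < √(N : ℝ) := by
    rw [Real.lt_sqrt (by norm_num)]
    linarith
  set T : Finset (Σ _ : Finset ℕ, ℕ) :=
    (NN (P1 z) k (√N)).sigma (fun S => Q1 (N / ((∏ p ∈ S, p : ℕ) : ℝ))) with hT
  -- properties of the elements
  have hprop : ∀ S ∈ NN (P1 z) k (√N), (∀ q ∈ S, q.Prime ∧ q % 4 = 1 ∧ (q : ℝ) ≤ z) ∧
      S.card = k ∧ 0 < ∏ p ∈ S, p ∧ √(N : ℝ) ≤ N / ((∏ p ∈ S, p : ℕ) : ℝ) ∧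
      (N : ℝ) / ((∏ p ∈ S, p : ℕ) : ℝ) ≤ N := by
    intro S hS
    unfold NN at hS
    rw [Finset.mem_filter, Finset.mem_powersetCard] at hS
    obtain ⟨⟨hS1, hS2⟩, hS3⟩ := hS
    have ha : ∀ q ∈ S, q.Prime ∧ q % 4 = 1 ∧ (q : ℝ) ≤ z := by
      intro q hq
      obtain ⟨⟨hq1, hq2⟩, hq3, hq4⟩ := mem_P1.1 (hS1 hq)
      refine ⟨hq3, hq4, ?_⟩
      have hz0 : 0 ≤ z := by
        by_contra hneg
        rw [Nat.floor_of_nonpos (by linarith)] at hq2
        omega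
      exact (Nat.le_floor_iff hz0).1 hq2
    have hb : 0 < ∏ p ∈ S, p := Finset.prod_pos fun q hq => (ha q hq).1.pos
    have hb' : (0 : ℝ) < ((∏ p ∈ S, p : ℕ) : ℝ) := by exact_mod_cast hb
    refine ⟨ha, hS2, hb, ?_, ?_⟩
    · rw [le_div_iff₀ hb']
      calc √(N : ℝ) * ((∏ p ∈ S, p : ℕ) : ℝ) ≤ √N * √N :=
            mul_le_mul_of_nonneg_left hS3 (Real.sqrt_nonneg _)
        _ = N := hsq
    · rw [div_le_iff₀ hb']
      have : (1 : ℝ) ≤ ((∏ p ∈ S, p : ℕ) : ℝ) := by exact_mod_cast hb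
      nlinarith
  have hQprop : ∀ y : ℝ, √(N : ℝ) ≤ y → ∀ p ∈ Q1 y, p.Prime ∧ p % 4 = 1 ∧ (p : ℝ) ≤ y ∧
      z < p := by
    intro y hy p hp
    unfold Q1 at hp
    rw [Finset.mem_filter] at hp
    obtain ⟨hp1, hp2⟩ := hp
    obtain ⟨⟨hq1, hq2⟩, hq3, hq4⟩ := mem_P1.1 hp1
    refine ⟨hq3, hq4, (Nat.le_floor_iff (by linarith)).1 hq2, ?_⟩
    linarith
  -- injectivity
  have hinj : Set.InjOn (fun a : (Σ _ : Finset ℕ, ℕ) => (∏ p ∈ a.1, p) * a.2) T := by
    rintro ⟨S, p⟩ hSp ⟨S', p'⟩ hSp' heq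
    rw [Finset.mem_coe, hT, Finset.mem_sigma] at hSp hSp'
    obtain ⟨hS, hp⟩ := hSp
    obtain ⟨hS', hp'⟩ := hSp'
    simp only at hS hp hS' hp' heq
    obtain ⟨a1, a2, a3, a4, a5⟩ := hprop S hS
    obtain ⟨b1, b2, b3, b4, b5⟩ := hprop S' hS'
    obtain ⟨c1, c2, c3, c4⟩ := hQprop _ a4 p hp
    obtain ⟨d1, d2, d3, d4⟩ := hQprop _ b4 p' hp'
    have hpp : p = p' := by
      by_contra hne
      have h1 : p ∣ (∏ q ∈ S', q) * p' := ⟨∏ q ∈ S, q, by rw [← heq]; ring⟩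
      rcases (Nat.Prime.dvd_mul c1).1 h1 with h2 | h2
      · by_cases h3 : p ∈ S'
        · have := (b1 p h3).2.2
          linarith
        · exact not_dvd_prod (fun q hq => (b1 q hq).1) c1 h3 h2
      · exact hne ((Nat.prime_dvd_prime_iff_eq c1 d1).1 h2)
    subst hpp
    have hprod : ∏ q ∈ S, q = ∏ q ∈ S', q := Nat.eq_of_mul_eq_mul_right c1.pos heq
    have hSS : S = S' := by
      have e1 := Nat.primeFactors_prod (fun q hq => (a1 q hq).1 : ∀ q ∈ S, q.Prime)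
      have e2 := Nat.primeFactors_prod (fun q hq => (b1 q hq).1 : ∀ q ∈ S', q.Prime)
      rw [← e1, ← e2, hprod]
    subst hSS
    rfl
  refine ⟨T.image (fun a => (∏ p ∈ a.1, p) * a.2), ?_, ?_, ?_⟩
  · intro m hm
    rw [Finset.mem_image] at hm
    obtain ⟨⟨S, p⟩, hSp, rfl⟩ := hm
    rw [hT, Finset.mem_sigma] at hSp
    obtain ⟨hS, hp⟩ := hSp
    simp only at hS hp
    obtain ⟨a1, a2, a3, a4, a5⟩ := hprop S hS
    obtain ⟨c1, c2, c3, c4⟩ := hQprop _ a4 p hp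
    rw [Finset.mem_Icc]
    simp only
    refine ⟨Nat.mul_pos a3 c1.pos, ?_⟩
    have ha3 : (0 : ℝ) < ((∏ p ∈ S, p : ℕ) : ℝ) := by exact_mod_cast a3
    rw [le_div_iff₀ ha3] at c3
    have : ((((∏ q ∈ S, q) * p : ℕ)) : ℝ) ≤ N := by
      rw [Nat.cast_mul, mul_comm]
      exact c3
    exact_mod_cast this
  · intro m hm
    rw [Finset.mem_image] at hm
    obtain ⟨⟨S, p⟩, hSp, rfl⟩ := hm
    rw [hT, Finset.mem_sigma] at hSp
    obtain ⟨hS, hp⟩ := hSp
    simp only at hS hp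
    obtain ⟨a1, a2, a3, a4, a5⟩ := hprop S hS
    obtain ⟨c1, c2, c3, c4⟩ := hQprop _ a4 p hp
    simp only
    have h1 : ¬ p ∣ ∏ q ∈ S, q := by
      apply not_dvd_prod (fun q hq => (a1 q hq).1) c1
      intro h
      have := (a1 p h).2.2
      linarith
    have h2 := gr_mul_prime a3 c1 c2 h1
    have h3 := gr_prod (S := S) (fun q hq => ⟨(a1 q hq).1, (a1 q hq).2.1⟩)
    rw [a2] at h3
    calc 2 ^ (k + 1) = 2 * 2 ^ k := by ring
      _ ≤ 2 * gr (∏ q ∈ S, q) := by omega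
      _ ≤ _ := h2
  · rw [Finset.card_image_of_injOn hinj, hT, Finset.card_sigma, Finset.mul_sum, Nat.cast_sum]
    refine Finset.sum_le_sum fun S hS => ?_
    obtain ⟨a1, a2, a3, a4, a5⟩ := hprop S hS
    have ha3 : (0 : ℝ) < ((∏ p ∈ S, p : ℕ) : ℝ) := by exact_mod_cast a3
    have h1 := hQ _ a4
    have hy1 : 1 < (N : ℝ) / ((∏ p ∈ S, p : ℕ) : ℝ) := lt_of_lt_of_le hsq1 a4
    have hl1 : 0 < Real.log ((N : ℝ) / ((∏ p ∈ S, p : ℕ) : ℝ)) := Real.log_pos hy1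
    have hl2 : Real.log ((N : ℝ) / ((∏ p ∈ S, p : ℕ) : ℝ)) ≤ Real.log N :=
      Real.log_le_log (by linarith) a5
    refine le_trans ?_ h1
    have h2 : c * ((N : ℝ) / ((∏ p ∈ S, p : ℕ) : ℝ)) / Real.log N ≤
        c * ((N : ℝ) / ((∏ p ∈ S, p : ℕ) : ℝ)) /
          Real.log ((N : ℝ) / ((∏ p ∈ S, p : ℕ) : ℝ)) :=
      div_le_div_of_nonneg_left (by positivity) hl1 hl2
    refine le_trans (le_of_eq ?_) h2
    push_cast
    ring

end

end Cnt

open Cnt in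
/-- B2, from the three statements on primes -/
theorem count_k_of
    (hM : ∃ C : ℝ, ∀ z : ℝ, 3 ≤ z →
      Real.log (Real.log z) / 2 - C ≤ ∑ p ∈ P1 z, (1 : ℝ) / p)
    (hL : ∃ C : ℝ, ∀ z : ℝ, 1 ≤ z → ∑ p ∈ P1 z, Real.log p / p ≤ Real.log z + C)
    (hP : ∃ c : ℝ, 0 < c ∧ ∀ᶠ y : ℝ in atTop,
      c * y / Real.log y ≤ ((P1 y).filter (fun p : ℕ => y / 2 < p)).card) :
    ∃ c : ℝ, 0 < c ∧ ∃ N₀ : ℕ, ∀ N : ℕ, N₀ ≤ N → ∀ k : ℕ, 1 ≤ k →
    (k : ℝ) ≤ 13 / 10 * Real.log (Real.log N) →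
    ∃ M : Finset ℕ, M ⊆ Finset.Icc 1 N ∧ (∀ m ∈ M, 2 ^ k ≤ gr m) ∧
      c * (N / Real.log N) * ((Real.log (Real.log N) / 2) ^ (k - 1) / (k - 1).factorial) ≤
        M.card := by
  obtain ⟨C₁, hC₁⟩ := hM
  obtain ⟨C₂, hC₂⟩ := hL
  obtain ⟨c, hc, hcy⟩ := hP
  obtain ⟨Y, hY⟩ := eventually_atTop.1 hcy
  set C₃ : ℝ := max (C₁ + Real.log 30 / 2) 0 with hC₃
  have hC₃0 : 0 ≤ C₃ := le_max_right _ _
  -- all the thresholds
  have t0 : Tendsto (fun N : ℕ => (N : ℝ)) atTop atTop := tendsto_natCast_atTop_atTop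
  have t1 : Tendsto (fun N : ℕ => Real.log (N : ℝ)) atTop atTop := Real.tendsto_log_atTop.comp t0
  have t2 : Tendsto (fun N : ℕ => Real.log (Real.log (N : ℝ))) atTop atTop :=
    Real.tendsto_log_atTop.comp t1
  have t3 : Tendsto (fun N : ℕ => √(N : ℝ)) atTop atTop := Real.tendsto_sqrt_atTop.comp t0
  have e1 := t1.eventually_ge_atTop (60 : ℝ)
  have e2 := t1.eventually_ge_atTop (60 * |C₂| + 1)
  have e3 := t2.eventually_ge_atTop (15 * C₃ + 1)
  have e4 := t3.eventually_ge_atTop Y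
  have e5 := eventually_ge_atTop (2 : ℕ)
  obtain ⟨N₀, hN₀⟩ := eventually_atTop.1 (e1.and (e2.and (e3.and (e4.and e5))))
  refine ⟨c * (1 / 2 * Real.exp (-(6 * C₃))), by positivity, N₀, ?_⟩
  intro N hN k hk1 hk
  obtain ⟨f1, f2, f3, f4, f5⟩ := hN₀ N hN
  obtain ⟨j, rfl⟩ : ∃ j, k = j + 1 := ⟨k - 1, by omega⟩
  rw [Nat.add_sub_cancel]
  push_cast at hk
  set L := Real.log (N : ℝ) with hLdef
  set x := Real.log L / 2 with hxdef
  have hL0 : 0 < L := by linarith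
  have hx0 : 0 < x := by rw [hxdef]; linarith
  have hN0 : (0 : ℝ) < N := by positivity
  have hNexp : (N : ℝ) = Real.exp L := by rw [hLdef, Real.exp_log hN0]
  have hsqrt : √(N : ℝ) = Real.exp (L / 2) := by
    rw [hNexp, Real.sqrt_eq_rpow, ← Real.exp_mul]
    congr 1
    ring
  set z := Real.exp (L / 30) with hz
  have hlz : Real.log z = L / 30 := by rw [hz, Real.log_exp]
  have hz3 : 3 ≤ z := by
    rw [hz]
    have := Real.add_one_le_exp (L / 30)
    linarith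
  have h1 : x - C₃ ≤ ∑ p ∈ P1 z, (1 : ℝ) / p := by
    refine le_trans ?_ (hC₁ z hz3)
    rw [hlz, Real.log_div hL0.ne' (by norm_num)]
    have : C₁ + Real.log 30 / 2 ≤ C₃ := le_max_left _ _
    rw [hxdef]
    linarith
  have h2 := hC₂ z (by linarith)
  have h3 : 30 / L * C₂ ≤ 1 / 2 := by
    rw [div_mul_eq_mul_div, div_le_div_iff₀ hL0 (by norm_num)]
    have := le_abs_self C₂
    linarith
  have hj0 : (0 : ℝ) ≤ j := Nat.cast_nonneg j
  have h4 := sum_lower (k := j) hL0 hx0 hz hC₃0 h1 h2 h3 (by rw [hxdef]; linarith)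
    (by rw [hxdef]; linarith)
  -- the set
  have hzs : z < √(N : ℝ) / 2 := by
    rw [hsqrt, hz]
    have h5 : Real.exp (L / 2) = Real.exp (L / 30) * Real.exp (7 * L / 15) := by
      rw [← Real.exp_add]
      congr 1
      ring
    have h6 : 2 < Real.exp (7 * L / 15) := by
      have := Real.add_one_le_exp (7 * L / 15)
      linarith
    have h7 : 0 < Real.exp (L / 30) := Real.exp_pos _
    rw [h5]
    nlinarith
  obtain ⟨M, hM1, hM2, hM3⟩ := build (k := j) hc.le f5 hzs (fun y hy => hY y (le_trans f4 hy))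
  refine ⟨M, hM1, hM2, le_trans ?_ hM3⟩
  rw [hsqrt]
  have h8 : 0 ≤ c * ((N : ℝ) / L) := by positivity
  calc c * (1 / 2 * Real.exp (-(6 * C₃))) * ((N : ℝ) / L) * (x ^ j / j.factorial) =
      c * ((N : ℝ) / L) * (1 / 2 * (Real.exp (-(6 * C₃)) * x ^ j) / j.factorial) := by ring
    _ ≤ _ := mul_le_mul_of_nonneg_left h4 h8

/-- B2: many integers with exactly `k` prime factors, all `≡ 1 mod 4` -/
theorem count_k : ∃ c : ℝ, 0 < c ∧ ∃ N₀ : ℕ, ∀ N : ℕ, N₀ ≤ N → ∀ k : ℕ, 1 ≤ k →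
    (k : ℝ) ≤ 13 / 10 * Real.log (Real.log N) →
    ∃ M : Finset ℕ, M ⊆ Finset.Icc 1 N ∧ (∀ m ∈ M, 2 ^ k ≤ gr m) ∧
      c * (N / Real.log N) * ((Real.log (Real.log N) / 2) ^ (k - 1) / (k - 1).factorial) ≤
        M.card :=
  count_k_of mertens4 mertens_log primes_half

end Pool.Agent.Helper53.OM
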