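import Pool.Agent.Helper53.OM.Defs

/-!
# From the number of integers with exactly `k` prime factors to the set of frequencies
-/

open Filter
open scoped Real
open Pool.Agent.Helper22.GC

namespace Pool.Agent.Helper53.OM

lemma kap_pos : 0 < kap := by unfold kap; positivity

lemma log_kap : Real.log kap = 1 / 3 * Real.log 2 := by
  unfold kap; rw [Real.log_rpow (by norm_num)]

lemma kap_cube : kap ^ 3 = 2 := by
  unfold kap
  rw [← Real.rpow_natCast, ← Real.rpow_mul (by norm_num)]
  norm_num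

lemma kap_le : kap ≤ 13 / 10 := by
  by_contra h
  push Not at h
  have h2 : (13 / 10 : ℝ) ^ 3 < kap ^ 3 := by gcongr
  rw [kap_cube] at h2
  norm_num at h2

lemma kap_ge : 5 / 4 ≤ kap := by
  by_contra h
  push Not at h
  have h2 : kap ^ 3 < (5 / 4 : ℝ) ^ 3 := by
    have := kap_pos
    gcongr
  rw [kap_cube] at h2
  norm_num at h2

/-- Stirling's upper bound -/
lemma fact_le (n : ℕ) (hn : 1 ≤ n) :
    (n.factorial : ℝ) ≤ Real.exp 1 * √n * ((n : ℝ) / Real.exp 1) ^ n := by
  obtain ⟨m, rfl⟩ : ∃ m, n = m + 1 := ⟨n - 1, by omega⟩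
  have h1 := Stirling.stirlingSeq'_antitone (Nat.zero_le m)
  simp only [Function.comp] at h1
  have h0 : Stirling.stirlingSeq (Nat.succ 0) = Real.exp 1 / √2 := by
    simp [Stirling.stirlingSeq_one]
  rw [h0] at h1
  rw [Stirling.stirlingSeq] at h1
  have hpos : 0 < √(2 * (Nat.succ m : ℕ) : ℝ) * (((Nat.succ m : ℕ) : ℝ) / Real.exp 1) ^ (Nat.succ m) := by
    have : (0 : ℝ) < ((Nat.succ m : ℕ) : ℝ) := by positivity
    positivity
  rw [div_le_iff₀ hpos] at h1
  refine h1.trans (le_of_eq ?_)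
  rw [Real.sqrt_mul (by norm_num)]
  have h2 : √2 ≠ 0 := by positivity
  simp only [Nat.succ_eq_add_one]
  field_simp

/-- the function `u - u log u` decreases for `u ≥ 1` -/
lemma phi_anti {u v : ℝ} (hu : 1 ≤ u) (huv : u ≤ v) : v - v * Real.log v ≤ u - u * Real.log u := by
  have hu0 : 0 < u := by linarith
  have hv0 : 0 < v := by linarith
  have h1 : 1 - u / v ≤ Real.log (v / u) := by
    have := Real.one_sub_inv_le_log_of_pos (show 0 < v / u by positivity)
    rwa [inv_div] at this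
  rw [Real.log_div hv0.ne' hu0.ne'] at h1
  have h2 : v - u ≤ v * (Real.log v - Real.log u) := by
    calc v - u = v * (1 - u / v) := by field_simp
      _ ≤ _ := by gcongr
  have h3 : 0 ≤ Real.log u := Real.log_nonneg hu
  nlinarith

/-- the main term `x ^ n / n!` -/
lemma pow_div_fact {x : ℝ} (hx : 0 < x) (n : ℕ) (hn : 1 ≤ n) (hxn : x ≤ n)
    (hn2 : (n : ℝ) ≤ 2 * kap * x) :
    Real.exp (2 * kap * x * (1 - 4 / 3 * Real.log 2)) / (Real.exp 1 * √(2 * kap * x)) ≤
      x ^ n / n.factorial := by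
  have hn0 : (0 : ℝ) < n := by positivity
  have hk := kap_pos
  have hm0 : 0 < 2 * kap * x := by positivity
  have h1 := fact_le n hn
  have h2 : x ^ n / (Real.exp 1 * √n * ((n : ℝ) / Real.exp 1) ^ n) ≤ x ^ n / n.factorial := by
    gcongr
  refine le_trans ?_ h2
  have h3 : x ^ n / (Real.exp 1 * √n * ((n : ℝ) / Real.exp 1) ^ n) =
      Real.exp (n * (1 + Real.log x - Real.log n)) / (Real.exp 1 * √n) := by
    have h4 : Real.exp (n * (1 + Real.log x - Real.log n)) = (Real.exp 1 * x / n) ^ n := by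
      rw [← Real.exp_log (show 0 < Real.exp 1 * x / n by positivity), ← Real.exp_nat_mul]
      congr 2
      rw [Real.log_div (by positivity) (by positivity), Real.log_mul (by positivity) (by positivity),
        Real.log_exp]
    rw [h4]
    rw [div_pow, div_pow, mul_pow]
    field_simp
  rw [h3]
  have h5 : Real.exp (2 * kap * x * (1 - 4 / 3 * Real.log 2)) ≤
      Real.exp (n * (1 + Real.log x - Real.log n)) := by
    apply Real.exp_le_exp.2
    have h6 := phi_anti (u := n / x) (v := 2 * kap) (by rwa [le_div_iff₀ hx, one_mul])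
      (by rwa [div_le_iff₀ hx])
    have h7 : Real.log (2 * kap) = 4 / 3 * Real.log 2 := by
      rw [Real.log_mul (by norm_num) hk.ne', log_kap]; ring
    rw [h7, Real.log_div hn0.ne' hx.ne'] at h6
    have h8 := mul_le_mul_of_nonneg_left h6 hx.le
    have h9 : x * (n / x - n / x * (Real.log n - Real.log x)) = n * (1 + Real.log x - Real.log n) := by
      field_simp
      ring
    rw [h9] at h8
    refine le_trans (le_of_eq ?_) h8
    ring
  gcongr

/-- B3: the set of frequencies, from B2 -/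
theorem count_main_of_count_k (hck : ∃ c : ℝ, 0 < c ∧ ∃ N₀ : ℕ, ∀ N : ℕ, N₀ ≤ N → ∀ k : ℕ, 1 ≤ k →
    (k : ℝ) ≤ 13 / 10 * Real.log (Real.log N) →
    ∃ M : Finset ℕ, M ⊆ Finset.Icc 1 N ∧ (∀ m ∈ M, 2 ^ k ≤ gr m) ∧
      c * (N / Real.log N) * ((Real.log (Real.log N) / 2) ^ (k - 1) / (k - 1).factorial) ≤ M.card) :
    ∃ c : ℝ, 0 < c ∧ ∃ N₀ : ℕ, ∀ N : ℕ, N₀ ≤ N →
    ∃ M : Finset ℕ, M ⊆ Finset.Icc 1 N ∧
      (∀ m ∈ M, c * (Real.log N) ^ (kap * Real.log 2) ≤ gr m) ∧
      c * N * (Real.log N) ^ (-Eex) * (Real.log (Real.log N)) ^ (-(1 / 2) : ℝ) ≤ M.card := by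
  obtain ⟨c, hc, N₀, h⟩ := hck
  have hk := kap_pos
  have htend : Tendsto (fun N : ℕ => Real.log (Real.log N)) atTop atTop :=
    Real.tendsto_log_atTop.comp (Real.tendsto_log_atTop.comp tendsto_natCast_atTop_atTop)
  obtain ⟨N₁, hN₁⟩ := eventually_atTop.1 (htend.eventually_ge_atTop 4)
  refine ⟨min (c / (Real.exp 1 * √kap)) (1 / 2), by positivity, max N₀ (max N₁ 3), fun N hN => ?_⟩
  have hN0 : N₀ ≤ N := le_trans (le_max_left _ _) hN
  have hN1 : N₁ ≤ N := le_trans (le_trans (le_max_left _ _) (le_max_right _ _)) hN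
  have hN3 : 3 ≤ N := le_trans (le_trans (le_max_right _ _) (le_max_right _ _)) hN
  have ht : 4 ≤ Real.log (Real.log N) := hN₁ N hN1
  set t := Real.log (Real.log N) with htdef
  have hNR : (3 : ℝ) ≤ N := by exact_mod_cast hN3
  have hy0 : 0 < Real.log N := Real.log_pos (by linarith)
  have hyt : Real.log N = Real.exp t := by rw [htdef, Real.exp_log hy0]
  set k := ⌊kap * t⌋₊ with hkdef
  have hkt : (k : ℝ) ≤ kap * t := Nat.floor_le (by positivity)
  have hkt2 : kap * t - 1 < k := by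
    have := Nat.lt_floor_add_one (kap * t)
    rw [← hkdef] at this
    linarith
  have hkg := kap_ge
  have hkl := kap_le
  have hk4 : (4 : ℝ) ≤ k := by nlinarith
  have hk4' : 4 ≤ k := by exact_mod_cast hk4
  obtain ⟨M, hM, hgr, hcard⟩ := h N hN0 k (by omega) (by nlinarith)
  refine ⟨M, hM, fun m hm => ?_, ?_⟩
  · have h1 : (2 : ℝ) ^ k ≤ gr m := by exact_mod_cast hgr m hm
    refine le_trans ?_ h1
    have h2 : Real.log N ^ (kap * Real.log 2) = (2 : ℝ) ^ (kap * t) := by
      rw [hyt, ← Real.exp_mul, Real.rpow_def_of_pos (by norm_num : (0 : ℝ) < 2)]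
      congr 1; ring
    rw [h2]
    calc min (c / (Real.exp 1 * √kap)) (1 / 2) * (2 : ℝ) ^ (kap * t)
        ≤ 1 / 2 * (2 : ℝ) ^ (kap * t) := by
          gcongr
          exact min_le_right _ _
      _ = (2 : ℝ) ^ (kap * t - 1) := by
          rw [Real.rpow_sub (by norm_num), Real.rpow_one]; ring
      _ ≤ (2 : ℝ) ^ (k : ℝ) := Real.rpow_le_rpow_of_exponent_le (by norm_num) hkt2.le
      _ = (2 : ℝ) ^ k := Real.rpow_natCast _ _
  · refine le_trans ?_ hcard
    have hk1 : ((k - 1 : ℕ) : ℝ) = k - 1 := by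
      rw [Nat.cast_sub (by omega)]; norm_num
    have h1 := pow_div_fact (x := t / 2) (by linarith) (k - 1) (by omega)
      (by rw [hk1]; nlinarith) (by rw [hk1]; nlinarith)
    have e1 : 2 * kap * (t / 2) = kap * t := by ring
    rw [e1] at h1
    have h2 : c * (N / Real.log N) * (Real.exp (kap * t * (1 - 4 / 3 * Real.log 2)) /
        (Real.exp 1 * √(kap * t))) ≤
        c * (N / Real.log N) * ((t / 2) ^ (k - 1) / (k - 1).factorial) := by
      gcongr
    have h3 : c / (Real.exp 1 * √kap) * N * Real.log N ^ (-Eex) * t ^ (-(1 / 2) : ℝ) =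
        c * (N / Real.log N) * (Real.exp (kap * t * (1 - 4 / 3 * Real.log 2)) /
        (Real.exp 1 * √(kap * t))) := by
      have ht0 : 0 < t := by linarith
      have e2 : t ^ (-(1 / 2) : ℝ) = (√t)⁻¹ := by
        rw [Real.rpow_neg ht0.le, ← Real.sqrt_eq_rpow]
      have e3 : Real.log N ^ (-Eex) = (Real.log N)⁻¹ *
          Real.exp (kap * t * (1 - 4 / 3 * Real.log 2)) := by
        rw [hyt, ← Real.exp_mul, ← Real.exp_neg, ← Real.exp_add]
        congr 1
        unfold Eex
        ring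
      rw [e2, e3, Real.sqrt_mul hk.le]
      field_simp
    refine le_trans ?_ (le_trans (le_of_eq h3) h2)
    have ht0 : 0 < t := by linarith
    gcongr
    exact min_le_left _ _

end Pool.Agent.Helper53.OM
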