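import Mathlib
import Pool.Agent.Helper53.OM.Wts
import Pool.Agent.Helper22.GC.Bridge

/-!
# Lemmas for the version along progressions
-/

open Filter MeasureTheory Set
open scoped Real

namespace Pool.Agent.Helper53.OM

open Pool.Agent.Helper22.GC

noncomputable section

/-- The number of lattice points in a thin annulus. -/
theorem F_gap : ∃ C : ℝ, 0 < C ∧ ∀ (δ R : ℝ), 0 < δ → δ ≤ 1 / 2 → 2 ≤ R →
    δ * R ^ (3 / 5 : ℝ) ≤ 1 → (F R : ℝ) ≤ F (R - 2 * δ) + C * √R := by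
  classical
  obtain ⟨C, hC, hgr⟩ := gr_le (ε := 1 / 20) (by norm_num)
  refine ⟨5 * C, by positivity, fun δ R hδ hδ' hR hδR => ?_⟩
  have hR0 : 0 < R := by linarith
  have hR2 : 0 ≤ R - 2 * δ := by linarith
  set a := ⌊(R - 2 * δ) ^ 2⌋₊ with ha
  set b := ⌊R ^ 2⌋₊ with hb
  have hcover : cntSet R 0 ⊆ cntSet (R - 2 * δ) 0 ∪
      (((Finset.Icc (a + 1) b).biUnion rep2 : Finset (Fin 2 → ℤ)) : Set (Fin 2 → ℤ)) := by
    intro v hv
    simp only [cntSet, mem_ofPred_eq, Pi.zero_apply, zero_add] at hv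
    obtain ⟨K, hK⟩ : ∃ K : ℕ, v 0 ^ 2 + v 1 ^ 2 = (K : ℤ) :=
      ⟨(v 0 ^ 2 + v 1 ^ 2).toNat, (Int.toNat_of_nonneg (by positivity)).symm⟩
    have hKR : (v 0 : ℝ) ^ 2 + (v 1 : ℝ) ^ 2 = K := by exact_mod_cast hK
    rw [hKR] at hv
    by_cases hKa : K ≤ a
    · left
      simp only [cntSet, mem_ofPred_eq, Pi.zero_apply, zero_add]
      rw [hKR]
      exact (Nat.le_floor_iff (by positivity)).1 hKa
    · right
      rw [Finset.mem_coe, Finset.mem_biUnion]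
      refine ⟨K, ?_, mem_rep2.mpr hK⟩
      rw [Finset.mem_Icc]
      exact ⟨by omega, (Nat.le_floor_iff (by positivity)).2 hv⟩
  have hfin : (cntSet (R - 2 * δ) 0).Finite := cntSet_finite _ _ (by simp)
  have h1 : F R ≤ F (R - 2 * δ) + ∑ K ∈ Finset.Icc (a + 1) b, gr K := by
    calc F R = (cntSet R 0).ncard := rfl
      _ ≤ (cntSet (R - 2 * δ) 0 ∪
          (((Finset.Icc (a + 1) b).biUnion rep2 : Finset (Fin 2 → ℤ)) : Set (Fin 2 → ℤ))).ncard :=
        Set.ncard_le_ncard hcover (hfin.union (Finset.finite_toSet _))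
      _ ≤ (cntSet (R - 2 * δ) 0).ncard +
          ((((Finset.Icc (a + 1) b).biUnion rep2 : Finset (Fin 2 → ℤ)) :
            Set (Fin 2 → ℤ))).ncard := Set.ncard_union_le _ _
      _ ≤ F (R - 2 * δ) + ∑ K ∈ Finset.Icc (a + 1) b, gr K := by
          rw [Set.ncard_coe_finset]
          refine add_le_add le_rfl (Finset.card_biUnion_le.trans (le_of_eq ?_))
          exact Finset.sum_congr rfl fun K _ => card_rep2 K
  have h2 : (F R : ℝ) ≤ F (R - 2 * δ) + ∑ K ∈ Finset.Icc (a + 1) b, (gr K : ℝ) := by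
    exact_mod_cast h1
  refine h2.trans (add_le_add le_rfl ?_)
  have hRp : 0 < R ^ (1 / 10 : ℝ) := Real.rpow_pos_of_pos hR0 _
  have h3 : ∀ K ∈ Finset.Icc (a + 1) b, (gr K : ℝ) ≤ C * R ^ (1 / 10 : ℝ) := by
    intro K hK
    rw [Finset.mem_Icc] at hK
    have hK1 : 0 < K := by omega
    have hKb : (K : ℝ) ≤ R ^ 2 := (Nat.le_floor_iff (by positivity)).1 hK.2
    refine (hgr K hK1).trans (mul_le_mul_of_nonneg_left ?_ hC.le)
    calc (K : ℝ) ^ (1 / 20 : ℝ) ≤ (R ^ 2) ^ (1 / 20 : ℝ) :=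
          Real.rpow_le_rpow (Nat.cast_nonneg K) hKb (by norm_num)
      _ = R ^ (1 / 10 : ℝ) := by
          rw [← Real.rpow_natCast, ← Real.rpow_mul hR0.le]
          norm_num
  have h4 := Finset.sum_le_card_nsmul _ _ _ h3
  refine h4.trans ?_
  rw [Nat.card_Icc, nsmul_eq_mul]
  have h5 : ((b + 1 - (a + 1) : ℕ) : ℝ) ≤ 4 * (δ * R) + 1 := by
    have e1 : (b : ℝ) ≤ R ^ 2 := Nat.floor_le (by positivity)
    have e2 : (R - 2 * δ) ^ 2 < a + 1 := Nat.lt_floor_add_one _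
    have e3 : a ≤ b := Nat.floor_le_floor (by nlinarith)
    rw [Nat.cast_sub (by omega)]
    push_cast
    nlinarith [sq_nonneg δ]
  have h6 : δ * R ≤ R ^ (2 / 5 : ℝ) := by
    have e1 : R = R ^ (3 / 5 : ℝ) * R ^ (2 / 5 : ℝ) := by
      rw [← Real.rpow_add hR0]
      norm_num
    calc δ * R = δ * R ^ (3 / 5 : ℝ) * R ^ (2 / 5 : ℝ) := by
          rw [mul_assoc, ← e1]
      _ ≤ 1 * R ^ (2 / 5 : ℝ) := by gcongr
      _ = _ := one_mul _
  have h7 : 1 ≤ R ^ (2 / 5 : ℝ) := Real.one_le_rpow (by linarith) (by norm_num)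
  have h8 : R ^ (2 / 5 : ℝ) * R ^ (1 / 10 : ℝ) = √R := by
    rw [← Real.rpow_add hR0, Real.sqrt_eq_rpow]
    norm_num
  calc ((b + 1 - (a + 1) : ℕ) : ℝ) * (C * R ^ (1 / 10 : ℝ))
      ≤ (5 * R ^ (2 / 5 : ℝ)) * (C * R ^ (1 / 10 : ℝ)) := by
        apply mul_le_mul_of_nonneg_right _ (by positivity)
        linarith
    _ = 5 * C * (R ^ (2 / 5 : ℝ) * R ^ (1 / 10 : ℝ)) := by ring
    _ = 5 * C * √R := by rw [h8]

/-- the one-sided lower bound for the cosine polynomial of length `T` -/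
theorem TT_lower {L T : ℕ} (hL : 2 ≤ L) (hT : (1 - 1 / (L : ℝ)) ^ (T + 1) * L ≤ 1) (θ : ℝ) :
    -2 ≤ ∑ n ∈ Finset.Icc 1 T, wr (1 - 1 / L) n * Real.cos (2 * π * n * θ + π / 4) := by
  obtain ⟨h0, h1⟩ := rL hL
  have hLr : (2 : ℝ) ≤ L := by exact_mod_cast hL
  set r : ℝ := 1 - 1 / (L : ℝ) with hr
  have hs : Summable (fun l : ℕ => wr r l * Real.cos (2 * π * l * θ + π / 4)) := by
    refine Summable.of_norm_bounded (summable_wr h0 h1) fun l => ?_
    rw [norm_mul, Real.norm_of_nonneg (wr_nonneg h0 l), Real.norm_eq_abs]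
    exact mul_le_of_le_one_right (wr_nonneg h0 l) (Real.abs_cos_le_one _)
  have h2 := tsum_cos_nonneg h0 h1 θ
  rw [← hs.sum_add_tsum_nat_add (T + 1)] at h2
  have h3 : ∑ l ∈ Finset.range (T + 1), wr r l * Real.cos (2 * π * l * θ + π / 4)
      = wr r 0 * Real.cos (π / 4) +
        ∑ n ∈ Finset.Icc 1 T, wr r n * Real.cos (2 * π * n * θ + π / 4) := by
    rw [Finset.sum_range_succ', add_comm]
    congr 1
    · simp
    · rw [Finset.range_eq_Ico, Finset.sum_Ico_add' (fun l : ℕ => wr r l * Real.cos (2 * π * l * θ + π / 4)) 0 T 1]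
      rfl
  rw [h3] at h2
  have h4 : wr r 0 * Real.cos (π / 4) ≤ 1 := by
    have : wr r 0 = 1 := by simp [wr, cw_zero]
    rw [this, one_mul]
    exact Real.cos_le_one _
  have h5 : ∑' l : ℕ, wr r (l + (T + 1)) * Real.cos (2 * π * ((l + (T + 1) : ℕ) : ℝ) * θ + π / 4)
      ≤ 1 := by
    have hg := (summable_geometric_of_lt_one h0 h1).mul_left (r ^ (T + 1))
    have h6 : ∀ l : ℕ, wr r (l + (T + 1)) *
        Real.cos (2 * π * ((l + (T + 1) : ℕ) : ℝ) * θ + π / 4) ≤ r ^ (T + 1) * r ^ l := by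
      intro l
      calc _ ≤ wr r (l + (T + 1)) * 1 :=
            mul_le_mul_of_nonneg_left (Real.cos_le_one _) (wr_nonneg h0 _)
        _ ≤ r ^ (l + (T + 1)) := by rw [mul_one]; exact wr_le h0 _
        _ = _ := by rw [add_comm, pow_add]
    have h7 := (((summable_nat_add_iff (T + 1)).mpr hs)).tsum_le_tsum h6 hg
    refine h7.trans ?_
    rw [tsum_mul_left, tsum_geometric_of_lt_one h0 h1]
    have h8 : (1 - r)⁻¹ = L := by rw [hr]; simp
    rw [h8]
    exact hT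
  linarith

theorem TT_weight {L T : ℕ} (hL : 2 ≤ L) (hLT : L ≤ T) :
    √L / 16 ≤ ∑ n ∈ Finset.Icc 1 T, wr (1 - 1 / L) n := by
  obtain ⟨h0, h1⟩ := rL hL
  have h2 : ∑ l ∈ Finset.Icc 1 L, wr (1 - 1 / L) l ≤ ∑ n ∈ Finset.Icc 1 T, wr (1 - 1 / L) n := by
    refine Finset.sum_le_sum_of_subset_of_nonneg ?_ fun l _ _ => wr_nonneg h0 l
    exact Finset.Icc_subset_Icc le_rfl hLT
  refine le_trans ?_ h2
  have h3 : ∀ l ∈ Finset.Icc 1 L, 1 / 16 * (1 / √(l : ℝ)) ≤ wr (1 - 1 / L) l := by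
    intro l hl
    rw [Finset.mem_Icc] at hl
    have h4 := cw_lower l hl.1
    have h5 : (1 / 8 : ℝ) ≤ (1 - 1 / (L : ℝ)) ^ l :=
      (one_sub_pow_lower hL).trans (pow_le_pow_of_le_one h0 h1.le hl.2)
    have h6 : 0 ≤ 1 / (2 * √(l : ℝ)) := by positivity
    calc 1 / 16 * (1 / √(l : ℝ)) = 1 / (2 * √(l : ℝ)) * (1 / 8) := by
          field_simp
          norm_num
      _ ≤ wr (1 - 1 / L) l := by
          unfold wr
          exact mul_le_mul h4 h5 (by norm_num) (cw_pos l).le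
  have h7 := Finset.sum_le_sum h3
  rw [← Finset.mul_sum] at h7
  have h8 := sqrt_sum_lower L
  linarith

end

end Pool.Agent.Helper53.OM
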