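import Mathlib
import Pool.Agent.Helper53.OM.Wts
import Pool.Agent.Helper22.GC.Bridge

/-!
# Counting the large negative values along a progression
-/

open Filter MeasureTheory Set
open scoped Real

namespace Pool.Agent.Helper53.OM

open Pool.Agent.Helper22.GC

noncomputable section

/-! ### upper bounds for the weights -/

lemma cw_upper (n : ℕ) : cw n ^ 2 * (2 * n + 1) ≤ 1 := by
  induction n with
  | zero => rw [cw_zero]; norm_num
  | succ n ih =>
    rw [cw_succ]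
    have hn0 : (0 : ℝ) ≤ n := Nat.cast_nonneg n
    have e : (cw n * ((2 * n + 1) / (2 * n + 2))) ^ 2 * (2 * ((n + 1 : ℕ) : ℝ) + 1)
        = cw n ^ 2 * (2 * n + 1) * ((2 * n + 1) * (2 * n + 3) / (2 * n + 2) ^ 2) := by
      push_cast
      field_simp
      ring
    rw [e]
    have h2 : (2 * (n : ℝ) + 1) * (2 * n + 3) / (2 * n + 2) ^ 2 ≤ 1 := by
      rw [div_le_one (by positivity)]
      nlinarith
    have h3 : 0 ≤ (2 * (n : ℝ) + 1) * (2 * n + 3) / (2 * n + 2) ^ 2 := by positivity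
    have h4 : 0 ≤ cw n ^ 2 * (2 * n + 1) := by positivity
    exact mul_le_one₀ ih h3 h2

lemma wr_sq_le {r : ℝ} (h0 : 0 ≤ r) (h1 : r ≤ 1) {n : ℕ} (hn : 1 ≤ n) :
    wr r n ^ 2 ≤ 1 / n := by
  have hn0 : (0 : ℝ) < n := by exact_mod_cast hn
  have h2 := cw_upper n
  have h3 : r ^ n ≤ 1 := pow_le_one₀ h0 h1
  have h4 : 0 ≤ r ^ n := pow_nonneg h0 n
  have h5 : wr r n ^ 2 ≤ cw n ^ 2 := by
    unfold wr
    rw [mul_pow]
    have h6 : (r ^ n) ^ 2 ≤ 1 := pow_le_one₀ h4 h3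
    exact mul_le_of_le_one_right (sq_nonneg _) h6
  refine h5.trans ?_
  rw [le_div_iff₀ hn0]
  nlinarith [sq_nonneg (cw n)]

/-! ### mean square along a progression -/

/-- one dyadic block -/
lemma dyadic_sq {α : ℝ} (hα : 0 < α) : ∃ (D : ℝ) (M₀ : ℕ), 0 < D ∧ 1 ≤ M₀ ∧ ∀ M : ℕ, M₀ ≤ M →
    ∑ n ∈ Finset.Ioc M (2 * M), (Pe (α * n) / √(α * n)) ^ 2 ≤ D * M := by
  obtain ⟨C, M₀, hC, h⟩ := approx_main α 0 hα (ε := 1 / 16) (by norm_num) (by norm_num)
  obtain ⟨A, hA, hTK⟩ := abs_TK_le (ε := 1 / 16) (by norm_num) (by norm_num)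
  refine ⟨2 * (4 * C ^ 2 + A ^ 2), M₀ + 1, by positivity, by omega, fun M hM => ?_⟩
  have hMr : (1 : ℝ) ≤ M := by exact_mod_cast (by omega : 1 ≤ M)
  have hM0 : (0 : ℝ) < M := by linarith
  obtain ⟨_, hN⟩ := h M M 1 (by omega) (by omega) le_rfl le_rfl (by
    push_cast
    apply Real.one_le_rpow _ (by norm_num)
    nlinarith)
  set u : ℕ → ℝ := fun n => Pe (α * (M + 1) + 0 + α * n) / √(α * (M + 1) + 0 + α * n) with hu
  set v : ℕ → ℝ := fun n => TK 1 (α * (M + 1) + 0 + α * n) with hv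
  have h1 : N2 M (fun n => ((u n - v n : ℝ) : ℂ)) ≤ 2 * C * √M := by
    refine hN.trans ?_
    have e1 : (((1 : ℕ) : ℝ)) ^ (-(1 / 8) + 1 / 16 : ℝ) = 1 := by simp
    rw [e1, mul_one]
    have e2 : ((M : ℝ) * M) ^ (1 / 6 + 1 / 16 : ℝ) ≤ √M := by
      rw [← sq, ← Real.rpow_natCast, ← Real.rpow_mul hM0.le, Real.sqrt_eq_rpow]
      exact Real.rpow_le_rpow_of_exponent_le hMr (by norm_num)
    have := mul_le_mul_of_nonneg_left e2 hC.le
    linarith
  have h2 : ∑ n ∈ Finset.range M, (u n - v n) ^ 2 ≤ 4 * C ^ 2 * M := by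
    have h3 := pow_le_pow_left₀ (N2_nonneg _ _) h1 2
    rw [N2_sq] at h3
    have h4 : ∀ n ∈ Finset.range M, ‖((u n - v n : ℝ) : ℂ)‖ ^ 2 = (u n - v n) ^ 2 := by
      intro n _
      rw [Complex.norm_real, Real.norm_eq_abs, sq_abs]
    rw [Finset.sum_congr rfl h4] at h3
    refine h3.trans (le_of_eq ?_)
    rw [mul_pow, Real.sq_sqrt hM0.le]
    ring
  have h5 : ∑ n ∈ Finset.Ioc M (2 * M), (Pe (α * n) / √(α * n)) ^ 2 =
      ∑ n ∈ Finset.range M, u n ^ 2 := by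
    have e1 : Finset.Ioc M (2 * M) = Finset.Ico (M + 1) (M + 1 + M) := by
      ext n; rw [Finset.mem_Ioc, Finset.mem_Ico]; omega
    rw [e1, Finset.sum_Ico_eq_sum_range]
    have e2 : M + 1 + M - (M + 1) = M := by omega
    rw [e2]
    refine Finset.sum_congr rfl fun n _ => ?_
    have e3 : α * ((M + 1 + n : ℕ) : ℝ) = α * (M + 1) + 0 + α * n := by push_cast; ring
    rw [e3]
  rw [h5]
  have h6 : ∀ n ∈ Finset.range M, u n ^ 2 ≤ 2 * (u n - v n) ^ 2 + 2 * A ^ 2 := by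
    intro n _
    have e1 : v n ^ 2 ≤ A ^ 2 := by
      have := hTK 1 (α * (M + 1) + 0 + α * n)
      rw [Nat.cast_one, mul_one] at this
      rw [← sq_abs]
      exact pow_le_pow_left₀ (abs_nonneg _) this 2
    nlinarith [sq_nonneg (u n - 2 * v n)]
  refine (Finset.sum_le_sum h6).trans ?_
  rw [Finset.sum_add_distrib, ← Finset.mul_sum, Finset.sum_const, Finset.card_range,
    nsmul_eq_mul]
  nlinarith

/-- the mean square of the error term along a progression -/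
theorem mean_sq {α : ℝ} (hα : 0 < α) : ∃ D : ℝ, 0 < D ∧ ∀ N : ℕ,
    ∑ n ∈ Finset.Icc 1 N, (Pe (α * n) / √(α * n)) ^ 2 ≤ D * N := by
  obtain ⟨D₁, M₀, hD₁, hM₀, h⟩ := dyadic_sq hα
  set S : ℕ → ℝ := fun N => ∑ n ∈ Finset.Icc 1 N, (Pe (α * n) / √(α * n)) ^ 2 with hS
  have hS0 : ∀ N, 0 ≤ S N := fun N => Finset.sum_nonneg fun _ _ => sq_nonneg _
  have hmono : ∀ N N', N ≤ N' → S N ≤ S N' := fun N N' hNN =>
    Finset.sum_le_sum_of_subset_of_nonneg (Finset.Icc_subset_Icc le_rfl hNN)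
      fun _ _ _ => sq_nonneg _
  refine ⟨max (S (2 * M₀ + 1)) (3 * D₁), lt_of_lt_of_le (by positivity) (le_max_right _ _), ?_⟩
  set D := max (S (2 * M₀ + 1)) (3 * D₁) with hD
  have hDa : S (2 * M₀ + 1) ≤ D := le_max_left _ _
  have hDb : 3 * D₁ ≤ D := le_max_right _ _
  intro N
  change S N ≤ D * N
  induction N using Nat.strong_induction_on with
  | _ N ih =>
    rcases Nat.eq_zero_or_pos N with rfl | hN
    · simp [hS]
    by_cases hN2 : N ≤ 2 * M₀ + 1
    · have hN1 : (1 : ℝ) ≤ N := by exact_mod_cast hN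
      have hD0 : 0 ≤ D := (hS0 _).trans hDa
      calc S N ≤ S (2 * M₀ + 1) := hmono _ _ hN2
        _ ≤ D := hDa
        _ ≤ D * N := by nlinarith
    · push Not at hN2
      set M := (N + 1) / 2 with hM
      have hM1 : M₀ ≤ M := by omega
      have hM2 : M < N := by omega
      have hM3 : N ≤ 2 * M := by omega
      have hM4 : 2 * M ≤ N + 1 := by omega
      have h1 : S N ≤ S M + ∑ n ∈ Finset.Ioc M (2 * M), (Pe (α * n) / √(α * n)) ^ 2 := by
        have hsplit : Finset.Icc 1 (2 * M) = Finset.Icc 1 M ∪ Finset.Ioc M (2 * M) := by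
          ext n
          rw [Finset.mem_union, Finset.mem_Icc, Finset.mem_Icc, Finset.mem_Ioc]
          omega
        have hdisj : Disjoint (Finset.Icc 1 M) (Finset.Ioc M (2 * M)) := by
          rw [Finset.disjoint_left]
          intro n hn hn'
          rw [Finset.mem_Icc] at hn
          rw [Finset.mem_Ioc] at hn'
          omega
        calc S N ≤ S (2 * M) := hmono _ _ hM3
          _ = _ := by
            simp only [hS]
            rw [hsplit, Finset.sum_union hdisj]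
      have h2 := ih M hM2
      have h3 := h M hM1
      have h4 : (2 : ℝ) * M ≤ N + 1 := by exact_mod_cast hM4
      have h5 : (3 : ℝ) ≤ N := by exact_mod_cast (by omega : 3 ≤ N)
      have h6 : (0 : ℝ) ≤ M := Nat.cast_nonneg M
      calc S N ≤ D * M + D₁ * M := by linarith
        _ ≤ D * M + D / 3 * M := by nlinarith
        _ = D * (4 / 3 * M) := by ring
        _ ≤ D * N := by
          apply mul_le_mul_of_nonneg_left _ (by linarith)
          linarith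

/-! ### counting -/

lemma sum_inv_le (n₀ : ℕ) : ∑ n ∈ Finset.Icc 1 n₀, (1 : ℝ) / n ≤ 1 + Real.log n₀ := by
  have h := harmonic_le_one_add_log n₀
  rw [harmonic_eq_sum_Icc] at h
  push_cast at h
  simpa [one_div] using h

theorem count_low {w g u : ℕ → ℝ} {T n₀ : ℕ} {G D b : ℝ} (hn₀ : 1 ≤ n₀) (hn₀T : n₀ ≤ T)
    (hw0 : ∀ n, 0 ≤ w n) (hw : ∀ n, 1 ≤ n → w n ^ 2 ≤ 1 / n) (hg0 : ∀ n, 0 ≤ g n)
    (hg : ∀ n, g n ≤ G) (hD0 : 0 ≤ D)
    (hD : ∀ N : ℕ, ∑ n ∈ Finset.Icc 1 N, u n ^ 2 ≤ D * N) (hb : 0 ≤ b)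
    (h : ∑ n ∈ Finset.Icc 1 T, w n * g n * u n ≤
      -(2 * b * ∑ n ∈ Finset.Icc 1 T, w n * g n))
    (hsmall : G * √(D * n₀ * (1 + Real.log n₀)) ≤
      b * (∑ n ∈ Finset.Icc 1 T, w n * g n) / 2) :
    (b * (∑ n ∈ Finset.Icc 1 T, w n * g n) / 2) ^ 2 * n₀ ≤
      G ^ 2 * D * T * ((Finset.Icc n₀ T).filter (fun n => u n ≤ -b)).card := by
  classical
  have hG : 0 ≤ G := (hg0 0).trans (hg 0)
  have hn₀r : (1 : ℝ) ≤ n₀ := by exact_mod_cast hn₀
  have hn₀0 : (0 : ℝ) < n₀ := by linarith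
  set V := ∑ n ∈ Finset.Icc 1 T, w n * g n with hV
  have hV0 : 0 ≤ V := Finset.sum_nonneg fun n _ => mul_nonneg (hw0 n) (hg0 n)
  set E := (Finset.Icc n₀ T).filter (fun n => u n ≤ -b) with hE
  set A := ∑ n ∈ Finset.Icc 1 n₀, w n * |u n| with hA
  set B := ∑ n ∈ E, w n * |u n| with hB
  have hA0 : 0 ≤ A := Finset.sum_nonneg fun n _ => mul_nonneg (hw0 n) (abs_nonneg _)
  have hB0 : 0 ≤ B := Finset.sum_nonneg fun n _ => mul_nonneg (hw0 n) (abs_nonneg _)
  -- the splitting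
  have h1 : ∀ n ∈ Finset.Icc 1 T, w n * g n * (-u n) ≤
      (if n ≤ n₀ then G * (w n * |u n|) else 0) + (if n ∈ E then G * (w n * |u n|) else 0) +
        b * (w n * g n) := by
    intro n hn
    rw [Finset.mem_Icc] at hn
    have hwg : 0 ≤ w n * g n := mul_nonneg (hw0 n) (hg0 n)
    have hwu : 0 ≤ w n * |u n| := mul_nonneg (hw0 n) (abs_nonneg _)
    have hle : w n * g n * (-u n) ≤ G * (w n * |u n|) := by
      calc w n * g n * (-u n) ≤ w n * g n * |u n| :=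
            mul_le_mul_of_nonneg_left (neg_le_abs _) hwg
        _ = g n * (w n * |u n|) := by ring
        _ ≤ G * (w n * |u n|) := mul_le_mul_of_nonneg_right (hg n) hwu
    have hGwu : 0 ≤ G * (w n * |u n|) := mul_nonneg hG hwu
    have hbw : 0 ≤ b * (w n * g n) := mul_nonneg hb hwg
    by_cases h2 : n ≤ n₀
    · rw [if_pos h2]
      split_ifs <;> linarith
    · rw [if_neg h2]
      by_cases h3 : n ∈ E
      · rw [if_pos h3]
        linarith
      · rw [if_neg h3]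
        have h4 : -u n ≤ b := by
          by_contra h5
          push Not at h5
          apply h3
          rw [hE, Finset.mem_filter, Finset.mem_Icc]
          exact ⟨⟨by omega, hn.2⟩, by linarith⟩
        have := mul_le_mul_of_nonneg_left h4 hwg
        linarith
  have h2 := Finset.sum_le_sum h1
  rw [Finset.sum_add_distrib, Finset.sum_add_distrib, ← Finset.mul_sum, ← hV] at h2
  have h3 : ∑ n ∈ Finset.Icc 1 T, (if n ≤ n₀ then G * (w n * |u n|) else 0) = G * A := by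
    rw [← Finset.sum_filter, hA, Finset.mul_sum]
    refine Finset.sum_congr ?_ fun _ _ => rfl
    ext n
    rw [Finset.mem_filter, Finset.mem_Icc, Finset.mem_Icc]
    omega
  have h4 : ∑ n ∈ Finset.Icc 1 T, (if n ∈ E then G * (w n * |u n|) else 0) = G * B := by
    rw [← Finset.sum_filter, hB, Finset.mul_sum]
    refine Finset.sum_congr ?_ fun _ _ => rfl
    ext n
    rw [Finset.mem_filter, hE, Finset.mem_filter, Finset.mem_Icc, Finset.mem_Icc]
    constructor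
    · rintro ⟨_, h⟩; exact h
    · rintro ⟨⟨h5, h6⟩, h7⟩; exact ⟨⟨by omega, h6⟩, ⟨h5, h6⟩, h7⟩
  rw [h3, h4] at h2
  have h5 : ∑ n ∈ Finset.Icc 1 T, w n * g n * (-u n) =
      -∑ n ∈ Finset.Icc 1 T, w n * g n * u n := by
    rw [← Finset.sum_neg_distrib]
    exact Finset.sum_congr rfl fun _ _ => by ring
  rw [h5] at h2
  -- Cauchy-Schwarz
  have hA2 : A ^ 2 ≤ D * n₀ * (1 + Real.log n₀) := by
    have e1 := Finset.sum_mul_sq_le_sq_mul_sq (Finset.Icc 1 n₀) w (fun n => |u n|)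
    have e2 : ∑ n ∈ Finset.Icc 1 n₀, w n ^ 2 ≤ 1 + Real.log n₀ := by
      refine (Finset.sum_le_sum fun n hn => ?_).trans (sum_inv_le n₀)
      exact hw n (Finset.mem_Icc.1 hn).1
    have e3 : ∑ n ∈ Finset.Icc 1 n₀, |u n| ^ 2 ≤ D * n₀ := by
      simp only [sq_abs]
      exact hD n₀
    have e4 : 0 ≤ ∑ n ∈ Finset.Icc 1 n₀, w n ^ 2 := Finset.sum_nonneg fun _ _ => sq_nonneg _
    have e5 : 0 ≤ D * n₀ := by positivity
    calc A ^ 2 ≤ (∑ n ∈ Finset.Icc 1 n₀, w n ^ 2) * ∑ n ∈ Finset.Icc 1 n₀, |u n| ^ 2 := e1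
      _ ≤ (∑ n ∈ Finset.Icc 1 n₀, w n ^ 2) * (D * n₀) := mul_le_mul_of_nonneg_left e3 e4
      _ ≤ (1 + Real.log n₀) * (D * n₀) := mul_le_mul_of_nonneg_right e2 e5
      _ = _ := by ring
  have hB2 : B ^ 2 * n₀ ≤ D * T * E.card := by
    have e1 := Finset.sum_mul_sq_le_sq_mul_sq E w (fun n => |u n|)
    have e2 : (∑ n ∈ E, w n ^ 2) * n₀ ≤ E.card := by
      rw [Finset.sum_mul]
      calc ∑ n ∈ E, w n ^ 2 * n₀ ≤ ∑ n ∈ E, (1 : ℝ) := by
            refine Finset.sum_le_sum fun n hn => ?_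
            rw [hE, Finset.mem_filter, Finset.mem_Icc] at hn
            have hn1 : 1 ≤ n := hn₀.trans hn.1.1
            have hn0 : (0 : ℝ) < n := by exact_mod_cast hn1
            have hnn : (n₀ : ℝ) ≤ n := by exact_mod_cast hn.1.1
            calc w n ^ 2 * n₀ ≤ 1 / n * n₀ := mul_le_mul_of_nonneg_right (hw n hn1) hn₀0.le
              _ = n₀ / n := by ring
              _ ≤ 1 := by rw [div_le_one hn0]; exact hnn
        _ = E.card := by simp
    have e3 : ∑ n ∈ E, |u n| ^ 2 ≤ D * T := by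
      simp only [sq_abs]
      refine le_trans ?_ (hD T)
      refine Finset.sum_le_sum_of_subset_of_nonneg (fun n hn => ?_) fun _ _ _ => sq_nonneg _
      rw [hE, Finset.mem_filter, Finset.mem_Icc] at hn
      rw [Finset.mem_Icc]
      exact ⟨hn₀.trans hn.1.1, hn.1.2⟩
    have e4 : 0 ≤ ∑ n ∈ E, w n ^ 2 := Finset.sum_nonneg fun _ _ => sq_nonneg _
    calc B ^ 2 * n₀ ≤ (∑ n ∈ E, w n ^ 2) * (∑ n ∈ E, |u n| ^ 2) * n₀ :=
          mul_le_mul_of_nonneg_right e1 hn₀0.le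
      _ ≤ (∑ n ∈ E, w n ^ 2) * (D * T) * n₀ := by gcongr
      _ = (∑ n ∈ E, w n ^ 2) * n₀ * (D * T) := by ring
      _ ≤ E.card * (D * T) := mul_le_mul_of_nonneg_right e2 (by positivity)
      _ = _ := by ring
  have hAs : A ≤ √(D * n₀ * (1 + Real.log n₀)) := Real.le_sqrt_of_sq_le hA2
  have hGA : G * A ≤ b * V / 2 := (mul_le_mul_of_nonneg_left hAs hG).trans hsmall
  have hGB : b * V / 2 ≤ G * B := by linarith
  have hbV : 0 ≤ b * V / 2 := by positivity
  calc (b * V / 2) ^ 2 * n₀ ≤ (G * B) ^ 2 * n₀ := by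
        apply mul_le_mul_of_nonneg_right _ hn₀0.le
        exact pow_le_pow_left₀ hbV hGB 2
    _ = G ^ 2 * (B ^ 2 * n₀) := by ring
    _ ≤ G ^ 2 * (D * T * E.card) := mul_le_mul_of_nonneg_left hB2 (sq_nonneg G)
    _ = G ^ 2 * D * T * E.card := by ring

end

end Pool.Agent.Helper53.OM
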