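import Mathlib
import Pool.Agent.Helper22.GC.Bridge

/-!
# One-sided large values of the error term of the circle problem: definitions and targets
-/

open Filter
open scoped Real

namespace Pool.Agent.Helper53.OM

noncomputable section

/-- `2 ^ (1/3)` -/
def kap : ℝ := 2 ^ (1 / 3 : ℝ)

/-- the exponent of `log N` in the density of the set of frequencies -/
def Eex : ℝ := 1 - kap * (1 - 4 / 3 * Real.log 2)

/-- the primes `≡ 1 (mod 4)` up to `z` -/
def P1 (z : ℝ) : Finset ℕ := (Finset.Icc 1 ⌊z⌋₊).filter (fun p => p.Prime ∧ p % 4 = 1)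

end

end Pool.Agent.Helper53.OM
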