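import Pool.Agent.Helper53.OM.Count
import Pool.Agent.Helper53.OM.Stir

/-!
# The set of frequencies without loss

`count_union`: the union over `k` in a Poisson window around `kap * log log V` of the sets of
integers up to `V * 2 ^ (4 k / 3)` with exactly `k` prime factors, all `1 mod 4`.
-/

open Filter
open scoped Real
open Pool.Agent.Helper22.GC

namespace Pool.Agent.Helper53.OM

namespace Cnt

noncomputable section

lemma build2 {N k : ℕ} {z c : ℝ} (hc : 0 ≤ c) (hN : 2 ≤ N)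
    (hz : z < √N / 2)
    (hQ : ∀ y : ℝ, √N ≤ y → c * y / Real.log y ≤ (Q1 y).card) :
    ∃ M : Finset ℕ, M ⊆ Finset.Icc 1 N ∧ (∀ m ∈ M, 2 ^ (k + 1) ≤ gr m) ∧
      (∀ m ∈ M, m.primeFactors.card = k + 1) ∧
      c * (N / Real.log N) * ∑ S ∈ NN (P1 z) k (√N), 1 / ((∏ p ∈ S, p : ℕ) : ℝ) ≤ M.card := by
  classical
  have hN0 : (0 : ℝ) < N := by positivity
  have hN1 : (1 : ℝ) < N := by exact_mod_cast hN
  have hsq : √(N : ℝ) * √N = N := Real.mul_self_sqrt hN0.le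
  have hsq1 : 1 < √(N : ℝ) := by
    rw [Real.lt_sqrt (by norm_num)]
    linarith
  set T : Finset (Σ _ : Finset ℕ, ℕ) :=
    (NN (P1 z) k (√N)).sigma (fun S => Q1 (N / ((∏ p ∈ S, p : ℕ) : ℝ))) with hT
  -- properties of the elements
  have hprop : ∀ S ∈ NN (P1 z) k (√N), (∀ q ∈ S, q.Prime ∧ q % 4 = 1 ∧ (q : ℝ) ≤ z) ∧
      S.card = k ∧ 0 < ∏ p ∈ S, p ∧ √(N : ℝ) ≤ N / ((∏ p ∈ S, p : ℕ) : ℝ) ∧
      (N : ℝ) / ((∏ p ∈ S, p : ℕ) : ℝ) ≤ N := by
    intro S hS
    unfold NN at hS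
    rw [Finset.mem_filter, Finset.mem_powersetCard] at hS
    obtain ⟨⟨hS1, hS2⟩, hS3⟩ := hS
    have ha : ∀ q ∈ S, q.Prime ∧ q % 4 = 1 ∧ (q : ℝ) ≤ z := by
      intro q hq
      obtain ⟨⟨hq1, hq2⟩, hq3, hq4⟩ := mem_P1.1 (hS1 hq)
      refine ⟨hq3, hq4, ?_⟩
      have hz0 : 0 ≤ z := by
        by_contra hneg
        rw [Nat.floor_of_nonpos (by linarith)] at hq2
        omega
      exact (Nat.le_floor_iff hz0).1 hq2
    have hb : 0 < ∏ p ∈ S, p := Finset.prod_pos fun q hq => (ha q hq).1.pos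
    have hb' : (0 : ℝ) < ((∏ p ∈ S, p : ℕ) : ℝ) := by exact_mod_cast hb
    refine ⟨ha, hS2, hb, ?_, ?_⟩
    · rw [le_div_iff₀ hb']
      calc √(N : ℝ) * ((∏ p ∈ S, p : ℕ) : ℝ) ≤ √N * √N :=
            mul_le_mul_of_nonneg_left hS3 (Real.sqrt_nonneg _)
        _ = N := hsq
    · rw [div_le_iff₀ hb']
      have : (1 : ℝ) ≤ ((∏ p ∈ S, p : ℕ) : ℝ) := by exact_mod_cast hb
      nlinarith
  have hQprop : ∀ y : ℝ, √(N : ℝ) ≤ y → ∀ p ∈ Q1 y, p.Prime ∧ p % 4 = 1 ∧ (p : ℝ) ≤ y ∧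
      z < p := by
    intro y hy p hp
    unfold Q1 at hp
    rw [Finset.mem_filter] at hp
    obtain ⟨hp1, hp2⟩ := hp
    obtain ⟨⟨hq1, hq2⟩, hq3, hq4⟩ := mem_P1.1 hp1
    refine ⟨hq3, hq4, (Nat.le_floor_iff (by linarith)).1 hq2, ?_⟩
    linarith
  -- injectivity
  have hinj : Set.InjOn (fun a : (Σ _ : Finset ℕ, ℕ) => (∏ p ∈ a.1, p) * a.2) T := by
    rintro ⟨S, p⟩ hSp ⟨S', p'⟩ hSp' heq
    rw [Finset.mem_coe, hT, Finset.mem_sigma] at hSp hSp'
    obtain ⟨hS, hp⟩ := hSp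
    obtain ⟨hS', hp'⟩ := hSp'
    simp only at hS hp hS' hp' heq
    obtain ⟨a1, a2, a3, a4, a5⟩ := hprop S hS
    obtain ⟨b1, b2, b3, b4, b5⟩ := hprop S' hS'
    obtain ⟨c1, c2, c3, c4⟩ := hQprop _ a4 p hp
    obtain ⟨d1, d2, d3, d4⟩ := hQprop _ b4 p' hp'
    have hpp : p = p' := by
      by_contra hne
      have h1 : p ∣ (∏ q ∈ S', q) * p' := ⟨∏ q ∈ S, q, by rw [← heq]; ring⟩
      rcases (Nat.Prime.dvd_mul c1).1 h1 with h2 | h2
      · by_cases h3 : p ∈ S'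
        · have := (b1 p h3).2.2
          linarith
        · exact not_dvd_prod (fun q hq => (b1 q hq).1) c1 h3 h2
      · exact hne ((Nat.prime_dvd_prime_iff_eq c1 d1).1 h2)
    subst hpp
    have hprod : ∏ q ∈ S, q = ∏ q ∈ S', q := Nat.eq_of_mul_eq_mul_right c1.pos heq
    have hSS : S = S' := by
      have e1 := Nat.primeFactors_prod (fun q hq => (a1 q hq).1 : ∀ q ∈ S, q.Prime)
      have e2 := Nat.primeFactors_prod (fun q hq => (b1 q hq).1 : ∀ q ∈ S', q.Prime)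
      rw [← e1, ← e2, hprod]
    subst hSS
    rfl
  refine ⟨T.image (fun a => (∏ p ∈ a.1, p) * a.2), ?_, ?_, ?_, ?_⟩
  · intro m hm
    rw [Finset.mem_image] at hm
    obtain ⟨⟨S, p⟩, hSp, rfl⟩ := hm
    rw [hT, Finset.mem_sigma] at hSp
    obtain ⟨hS, hp⟩ := hSp
    simp only at hS hp
    obtain ⟨a1, a2, a3, a4, a5⟩ := hprop S hS
    obtain ⟨c1, c2, c3, c4⟩ := hQprop _ a4 p hp
    rw [Finset.mem_Icc]
    simp only
    refine ⟨Nat.mul_pos a3 c1.pos, ?_⟩
    have ha3 : (0 : ℝ) < ((∏ p ∈ S, p : ℕ) : ℝ) := by exact_mod_cast a3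
    rw [le_div_iff₀ ha3] at c3
    have : ((((∏ q ∈ S, q) * p : ℕ)) : ℝ) ≤ N := by
      rw [Nat.cast_mul, mul_comm]
      exact c3
    exact_mod_cast this
  · intro m hm
    rw [Finset.mem_image] at hm
    obtain ⟨⟨S, p⟩, hSp, rfl⟩ := hm
    rw [hT, Finset.mem_sigma] at hSp
    obtain ⟨hS, hp⟩ := hSp
    simp only at hS hp
    obtain ⟨a1, a2, a3, a4, a5⟩ := hprop S hS
    obtain ⟨c1, c2, c3, c4⟩ := hQprop _ a4 p hp
    simp only
    have h1 : ¬ p ∣ ∏ q ∈ S, q := by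
      apply not_dvd_prod (fun q hq => (a1 q hq).1) c1
      intro h
      have := (a1 p h).2.2
      linarith
    have h2 := gr_mul_prime a3 c1 c2 h1
    have h3 := gr_prod (S := S) (fun q hq => ⟨(a1 q hq).1, (a1 q hq).2.1⟩)
    rw [a2] at h3
    calc 2 ^ (k + 1) = 2 * 2 ^ k := by ring
      _ ≤ 2 * gr (∏ q ∈ S, q) := by omega
      _ ≤ _ := h2
  · intro m hm
    rw [Finset.mem_image] at hm
    obtain ⟨⟨S, p⟩, hSp, rfl⟩ := hm
    rw [hT, Finset.mem_sigma] at hSp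
    obtain ⟨hS, hp⟩ := hSp
    simp only at hS hp
    obtain ⟨a1, a2, a3, a4, a5⟩ := hprop S hS
    obtain ⟨c1, c2, c3, c4⟩ := hQprop _ a4 p hp
    simp only
    have h0 : p ∉ S := by
      intro h
      have := (a1 p h).2.2
      linarith
    have h1 : (∏ q ∈ S, q) * p = ∏ q ∈ insert p S, q := by
      rw [Finset.prod_insert h0, mul_comm]
    rw [h1, Nat.primeFactors_prod, Finset.card_insert_of_notMem h0, a2]
    intro q hq
    rcases Finset.mem_insert.1 hq with rfl | hq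
    · exact c1
    · exact (a1 q hq).1
  · rw [Finset.card_image_of_injOn hinj, hT, Finset.card_sigma, Finset.mul_sum, Nat.cast_sum]
    refine Finset.sum_le_sum fun S hS => ?_
    obtain ⟨a1, a2, a3, a4, a5⟩ := hprop S hS
    have ha3 : (0 : ℝ) < ((∏ p ∈ S, p : ℕ) : ℝ) := by exact_mod_cast a3
    have h1 := hQ _ a4
    have hy1 : 1 < (N : ℝ) / ((∏ p ∈ S, p : ℕ) : ℝ) := lt_of_lt_of_le hsq1 a4
    have hl1 : 0 < Real.log ((N : ℝ) / ((∏ p ∈ S, p : ℕ) : ℝ)) := Real.log_pos hy1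
    have hl2 : Real.log ((N : ℝ) / ((∏ p ∈ S, p : ℕ) : ℝ)) ≤ Real.log N :=
      Real.log_le_log (by linarith) a5
    refine le_trans ?_ h1
    have h2 : c * ((N : ℝ) / ((∏ p ∈ S, p : ℕ) : ℝ)) / Real.log N ≤
        c * ((N : ℝ) / ((∏ p ∈ S, p : ℕ) : ℝ)) /
          Real.log ((N : ℝ) / ((∏ p ∈ S, p : ℕ) : ℝ)) :=
      div_le_div_of_nonneg_left (by positivity) hl1 hl2
    refine le_trans (le_of_eq ?_) h2
    push_cast
    ring

end

end Cnt

open Cnt in
/-- B2 with disjointness, from the three statements on primes -/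
theorem count_k2_of
    (hM : ∃ C : ℝ, ∀ z : ℝ, 3 ≤ z →
      Real.log (Real.log z) / 2 - C ≤ ∑ p ∈ P1 z, (1 : ℝ) / p)
    (hL : ∃ C : ℝ, ∀ z : ℝ, 1 ≤ z → ∑ p ∈ P1 z, Real.log p / p ≤ Real.log z + C)
    (hP : ∃ c : ℝ, 0 < c ∧ ∀ᶠ y : ℝ in atTop,
      c * y / Real.log y ≤ ((P1 y).filter (fun p : ℕ => y / 2 < p)).card) :
    ∃ c : ℝ, 0 < c ∧ ∃ N₀ : ℕ, ∀ N : ℕ, N₀ ≤ N → ∀ k : ℕ, 1 ≤ k →
    (k : ℝ) ≤ 13 / 10 * Real.log (Real.log N) →
    ∃ M : Finset ℕ, M ⊆ Finset.Icc 1 N ∧ (∀ m ∈ M, 2 ^ k ≤ gr m) ∧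
      (∀ m ∈ M, m.primeFactors.card = k) ∧
      c * (N / Real.log N) * ((Real.log (Real.log N) / 2) ^ (k - 1) / (k - 1).factorial) ≤
        M.card := by
  obtain ⟨C₁, hC₁⟩ := hM
  obtain ⟨C₂, hC₂⟩ := hL
  obtain ⟨c, hc, hcy⟩ := hP
  obtain ⟨Y, hY⟩ := eventually_atTop.1 hcy
  set C₃ : ℝ := max (C₁ + Real.log 30 / 2) 0 with hC₃
  have hC₃0 : 0 ≤ C₃ := le_max_right _ _
  -- all the thresholds
  have t0 : Tendsto (fun N : ℕ => (N : ℝ)) atTop atTop := tendsto_natCast_atTop_atTop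
  have t1 : Tendsto (fun N : ℕ => Real.log (N : ℝ)) atTop atTop := Real.tendsto_log_atTop.comp t0
  have t2 : Tendsto (fun N : ℕ => Real.log (Real.log (N : ℝ))) atTop atTop :=
    Real.tendsto_log_atTop.comp t1
  have t3 : Tendsto (fun N : ℕ => √(N : ℝ)) atTop atTop := Real.tendsto_sqrt_atTop.comp t0
  have e1 := t1.eventually_ge_atTop (60 : ℝ)
  have e2 := t1.eventually_ge_atTop (60 * |C₂| + 1)
  have e3 := t2.eventually_ge_atTop (15 * C₃ + 1)
  have e4 := t3.eventually_ge_atTop Y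
  have e5 := eventually_ge_atTop (2 : ℕ)
  obtain ⟨N₀, hN₀⟩ := eventually_atTop.1 (e1.and (e2.and (e3.and (e4.and e5))))
  refine ⟨c * (1 / 2 * Real.exp (-(6 * C₃))), by positivity, N₀, ?_⟩
  intro N hN k hk1 hk
  obtain ⟨f1, f2, f3, f4, f5⟩ := hN₀ N hN
  obtain ⟨j, rfl⟩ : ∃ j, k = j + 1 := ⟨k - 1, by omega⟩
  rw [Nat.add_sub_cancel]
  push_cast at hk
  set L := Real.log (N : ℝ) with hLdef
  set x := Real.log L / 2 with hxdef
  have hL0 : 0 < L := by linarith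
  have hx0 : 0 < x := by rw [hxdef]; linarith
  have hN0 : (0 : ℝ) < N := by positivity
  have hNexp : (N : ℝ) = Real.exp L := by rw [hLdef, Real.exp_log hN0]
  have hsqrt : √(N : ℝ) = Real.exp (L / 2) := by
    rw [hNexp, Real.sqrt_eq_rpow, ← Real.exp_mul]
    congr 1
    ring
  set z := Real.exp (L / 30) with hz
  have hlz : Real.log z = L / 30 := by rw [hz, Real.log_exp]
  have hz3 : 3 ≤ z := by
    rw [hz]
    have := Real.add_one_le_exp (L / 30)
    linarith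
  have h1 : x - C₃ ≤ ∑ p ∈ P1 z, (1 : ℝ) / p := by
    refine le_trans ?_ (hC₁ z hz3)
    rw [hlz, Real.log_div hL0.ne' (by norm_num)]
    have : C₁ + Real.log 30 / 2 ≤ C₃ := le_max_left _ _
    rw [hxdef]
    linarith
  have h2 := hC₂ z (by linarith)
  have h3 : 30 / L * C₂ ≤ 1 / 2 := by
    rw [div_mul_eq_mul_div, div_le_div_iff₀ hL0 (by norm_num)]
    have := le_abs_self C₂
    linarith
  have hj0 : (0 : ℝ) ≤ j := Nat.cast_nonneg j
  have h4 := sum_lower (k := j) hL0 hx0 hz hC₃0 h1 h2 h3 (by rw [hxdef]; linarith)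
    (by rw [hxdef]; linarith)
  -- the set
  have hzs : z < √(N : ℝ) / 2 := by
    rw [hsqrt, hz]
    have h5 : Real.exp (L / 2) = Real.exp (L / 30) * Real.exp (7 * L / 15) := by
      rw [← Real.exp_add]
      congr 1
      ring
    have h6 : 2 < Real.exp (7 * L / 15) := by
      have := Real.add_one_le_exp (7 * L / 15)
      linarith
    have h7 : 0 < Real.exp (L / 30) := Real.exp_pos _
    rw [h5]
    nlinarith
  obtain ⟨M, hM1, hM2, hM2', hM3⟩ := build2 (k := j) hc.le f5 hzs (fun y hy => hY y (le_trans f4 hy))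
  refine ⟨M, hM1, hM2, hM2', le_trans ?_ hM3⟩
  rw [hsqrt]
  have h8 : 0 ≤ c * ((N : ℝ) / L) := by positivity
  calc c * (1 / 2 * Real.exp (-(6 * C₃))) * ((N : ℝ) / L) * (x ^ j / j.factorial) =
      c * ((N : ℝ) / L) * (1 / 2 * (Real.exp (-(6 * C₃)) * x ^ j) / j.factorial) := by ring
    _ ≤ _ := mul_le_mul_of_nonneg_left h4 h8


/-- B2 with disjointness -/
theorem count_k2 : ∃ c : ℝ, 0 < c ∧ ∃ N₀ : ℕ, ∀ N : ℕ, N₀ ≤ N → ∀ k : ℕ, 1 ≤ k →
    (k : ℝ) ≤ 13 / 10 * Real.log (Real.log N) →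
    ∃ M : Finset ℕ, M ⊆ Finset.Icc 1 N ∧ (∀ m ∈ M, 2 ^ k ≤ gr m) ∧
      (∀ m ∈ M, m.primeFactors.card = k) ∧
      c * (N / Real.log N) * ((Real.log (Real.log N) / 2) ^ (k - 1) / (k - 1).factorial) ≤
        M.card :=
  count_k2_of mertens4 mertens_log primes_half

lemma kap_le' : kap ≤ 63 / 50 := by
  by_contra h
  push Not at h
  have h2 : (63 / 50 : ℝ) ^ 3 < kap ^ 3 := by gcongr
  rw [kap_cube] at h2
  norm_num at h2

/-- the Poisson weight in the window -/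
lemma poisson_window {l : ℝ} (hl : 1 ≤ l) (j : ℕ) (h1 : l ≤ j) (h2 : (j : ℝ) ≤ l + √l) :
    Real.exp (l - 1) / (Real.exp 1 * √(2 * l)) ≤ l ^ j / j.factorial := by
  have hl0 : 0 < l := by linarith
  have hj0 : (0 : ℝ) < j := by linarith
  have hj1 : 1 ≤ j := by
    have : (0 : ℝ) < j := hj0
    exact_mod_cast this
  have hf := fact_le j hj1
  have hs0 : 0 < √l := Real.sqrt_pos.2 hl0
  have hss : √l * √l = l := Real.mul_self_sqrt hl0.le
  have hs1 : 1 ≤ √l := by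
    rw [Real.one_le_sqrt]
    exact hl
  have h3 : l ^ j / (Real.exp 1 * √j * ((j : ℝ) / Real.exp 1) ^ j) ≤ l ^ j / j.factorial := by
    gcongr
  refine le_trans ?_ h3
  have h4 : l ^ j / (Real.exp 1 * √j * ((j : ℝ) / Real.exp 1) ^ j) =
      Real.exp (j * (1 + Real.log l - Real.log j)) / (Real.exp 1 * √j) := by
    have h4 : Real.exp (j * (1 + Real.log l - Real.log j)) = (Real.exp 1 * l / j) ^ j := by
      rw [← Real.exp_log (show 0 < Real.exp 1 * l / j by positivity), ← Real.exp_nat_mul]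
      congr 2
      rw [Real.log_div (by positivity) (by positivity), Real.log_mul (by positivity) (by positivity),
        Real.log_exp]
    rw [h4]
    rw [div_pow, div_pow, mul_pow]
    field_simp
  rw [h4]
  have h5 : Real.exp (l - 1) ≤ Real.exp (j * (1 + Real.log l - Real.log j)) := by
    apply Real.exp_le_exp.2
    have h6 : Real.log (j / l) ≤ j / l - 1 := Real.log_le_sub_one_of_pos (by positivity)
    rw [Real.log_div hj0.ne' hl0.ne'] at h6
    have h7 : (j : ℝ) * (2 - j / l) ≤ j * (1 + Real.log l - Real.log j) :=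
      mul_le_mul_of_nonneg_left (by linarith) hj0.le
    refine le_trans ?_ h7
    have h8 : (j : ℝ) * (2 - j / l) = l - (j - l) ^ 2 / l := by
      field_simp
      ring
    rw [h8]
    have h9 : ((j : ℝ) - l) ^ 2 / l ≤ 1 := by
      rw [div_le_one hl0]
      have : ((j : ℝ) - l) ^ 2 ≤ √l ^ 2 := by
        apply pow_le_pow_left₀ (by linarith)
        linarith
      rw [Real.sq_sqrt hl0.le] at this
      exact this
    linarith
  have h10 : √(j : ℝ) ≤ √(2 * l) := by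
    apply Real.sqrt_le_sqrt
    nlinarith
  gcongr

/-- the sum of the Poisson weights over the window -/
lemma poisson_sum {l : ℝ} (hl : 16 ≤ l) :
    Real.exp l / (6 * Real.exp 2) ≤
      ∑ j ∈ Finset.Icc ⌈l⌉₊ ⌊l + √l⌋₊, l ^ j / j.factorial := by
  have hl0 : 0 < l := by linarith
  have hs0 : 0 < √l := Real.sqrt_pos.2 hl0
  have hs4 : 4 ≤ √l := by
    rw [Real.le_sqrt (by norm_num) hl0.le]
    norm_num
    exact hl
  have h1 : ∀ j ∈ Finset.Icc ⌈l⌉₊ ⌊l + √l⌋₊,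
      Real.exp (l - 1) / (Real.exp 1 * √(2 * l)) ≤ l ^ j / j.factorial := by
    intro j hj
    rw [Finset.mem_Icc] at hj
    refine poisson_window (by linarith) j ?_ ?_
    · exact (Nat.le_ceil l).trans (by exact_mod_cast hj.1)
    · exact (Nat.le_floor_iff (by positivity)).1 hj.2
  have h2 := Finset.card_nsmul_le_sum _ _ _ h1
  refine le_trans ?_ h2
  rw [Nat.card_Icc, nsmul_eq_mul]
  have h3 : √l / 2 ≤ ((⌊l + √l⌋₊ + 1 - ⌈l⌉₊ : ℕ) : ℝ) := by
    have e1 : l + √l < ⌊l + √l⌋₊ + 1 := Nat.lt_floor_add_one _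
    have e2 : (⌈l⌉₊ : ℝ) < l + 1 := Nat.ceil_lt_add_one hl0.le
    have e3 : ⌈l⌉₊ ≤ ⌊l + √l⌋₊ + 1 := by
      have : (⌈l⌉₊ : ℝ) < ⌊l + √l⌋₊ + 1 := by linarith
      exact_mod_cast this.le
    rw [Nat.cast_sub e3]
    push_cast
    linarith
  have h4 : √(2 * l) ≤ 3 / 2 * √l := by
    rw [Real.sqrt_mul (by norm_num)]
    have : √(2 : ℝ) ≤ 3 / 2 := by
      rw [Real.sqrt_le_left (by norm_num)]
      norm_num
    gcongr
  calc Real.exp l / (6 * Real.exp 2) ≤ √l / 2 * (Real.exp (l - 1) / (Real.exp 1 * (3 / 2 * √l))) := by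
        have e1 : Real.exp (l - 1) = Real.exp l / Real.exp 1 := Real.exp_sub _ _
        have e2 : Real.exp 2 = Real.exp 1 * Real.exp 1 := by
          rw [← Real.exp_add]
          norm_num
        rw [e1, e2]
        have e3 : √l / 2 * (Real.exp l / Real.exp 1 / (Real.exp 1 * (3 / 2 * √l))) =
            Real.exp l / (3 * (Real.exp 1 * Real.exp 1)) := by
          field_simp
        rw [e3]
        apply div_le_div_of_nonneg_left (Real.exp_pos _).le (by positivity)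
        have := Real.exp_pos (1 : ℝ)
        nlinarith [mul_pos this this]
    _ ≤ _ := by gcongr

/-- the frequencies: at least `c V (log V) ^ (kap - 1)` integers up to `V ^ 2` with
`gr K * K ^ (-3/4) ≥ V ^ (-3/4)` -/
theorem count_union : ∃ c : ℝ, 0 < c ∧ ∃ V₀ : ℝ, ∀ V : ℝ, V₀ ≤ V →
    ∃ M : Finset ℕ, M ⊆ Finset.Icc 1 ⌊V ^ 2⌋₊ ∧
      (∀ K ∈ M, V ^ (-(3 / 4) : ℝ) ≤ gr K * (K : ℝ) ^ (-(3 / 4) : ℝ)) ∧
      c * V * (Real.log V) ^ (kap - 1) ≤ M.card := by
  classical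
  obtain ⟨c, hc, N₀, h⟩ := count_k2
  have hk := kap_pos
  have hkg := kap_ge
  have hkl := kap_le'
  have t1 : Tendsto (fun V : ℝ => Real.log V) atTop atTop := Real.tendsto_log_atTop
  have t2 : Tendsto (fun V : ℝ => Real.log (Real.log V)) atTop atTop :=
    Real.tendsto_log_atTop.comp t1
  obtain ⟨V₀, hV₀⟩ := eventually_atTop.1 (((eventually_ge_atTop (2 : ℝ)).and
    (eventually_ge_atTop (N₀ : ℝ))).and
    ((t1.eventually_ge_atTop 1).and (t2.eventually_ge_atTop 1000)))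
  refine ⟨c / (24 * Real.exp 2), by positivity, V₀, fun V hV => ?_⟩
  obtain ⟨⟨g1, g2⟩, g3, g4⟩ := hV₀ V hV
  have hV0 : 0 < V := by linarith
  set L := Real.log V with hL
  have hL0 : 0 < L := by linarith
  set t := Real.log L with ht
  have ht0 : 0 < t := by linarith
  have hLt : L = Real.exp t := by rw [ht, Real.exp_log hL0]
  have hLt2 : 2 * t ≤ L := by
    rw [hLt]
    have := Real.quadratic_le_exp_of_nonneg ht0.le
    nlinarith
  set l := kap * t with hl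
  have hl16 : 16 ≤ l := by rw [hl]; nlinarith
  have hl0 : 0 < l := by linarith
  have hlt : l + √l + 1 ≤ 13 / 10 * t := by
    have e1 : √l ≤ 3 / 80 * t := by
      rw [Real.sqrt_le_left (by positivity)]
      rw [hl]
      nlinarith
    rw [hl] at e1 ⊢
    nlinarith
  set J := Finset.Icc ⌈l⌉₊ ⌊l + √l⌋₊ with hJ
  have hJk : ∀ j ∈ J, ((j + 1 : ℕ) : ℝ) ≤ 13 / 10 * t := by
    intro j hj
    rw [hJ, Finset.mem_Icc] at hj
    have := (Nat.le_floor_iff (by positivity)).1 hj.2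
    push_cast
    linarith
  -- the bound `V * 2 ^ (4 k / 3)`
  set B : ℕ → ℝ := fun k => V * (2 : ℝ) ^ (4 / 3 * (k : ℝ)) with hB
  have hpow : ∀ k : ℕ, (k : ℝ) ≤ 13 / 10 * t → (2 : ℝ) ^ (4 / 3 * (k : ℝ)) ≤ V := by
    intro k hk1
    rw [Real.rpow_def_of_pos (by norm_num : (0 : ℝ) < 2), ← Real.le_log_iff_exp_le hV0, ← hL]
    have := Real.log_two_lt_d9
    have h2 := Real.log_pos (by norm_num : (1 : ℝ) < 2)
    have hk0 : (0 : ℝ) ≤ k := Nat.cast_nonneg k
    nlinarith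
  have hone : ∀ k : ℕ, 1 ≤ k → (2 : ℝ) ≤ (2 : ℝ) ^ (4 / 3 * (k : ℝ)) := by
    intro k hk1
    have hk1' : (1 : ℝ) ≤ k := by exact_mod_cast hk1
    calc (2 : ℝ) = 2 ^ (1 : ℝ) := (Real.rpow_one 2).symm
      _ ≤ _ := Real.rpow_le_rpow_of_exponent_le (by norm_num) (by linarith)
  have hBV : ∀ k : ℕ, (k : ℝ) ≤ 13 / 10 * t → B k ≤ V ^ 2 := by
    intro k hk1
    have := hpow k hk1
    rw [hB]
    simp only
    nlinarith
  have hB2 : ∀ k : ℕ, 1 ≤ k → 2 * V ≤ B k := by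
    intro k hk1
    have := hone k hk1
    rw [hB]
    simp only
    nlinarith
  -- the sets
  have hex : ∀ j ∈ J, ∃ M : Finset ℕ, M ⊆ Finset.Icc 1 ⌊B (j + 1)⌋₊ ∧
      (∀ m ∈ M, 2 ^ (j + 1) ≤ gr m) ∧ (∀ m ∈ M, m.primeFactors.card = j + 1) ∧
      c / 4 * (V / L) * (l ^ j / j.factorial) ≤ M.card := by
    intro j hj
    have hjk := hJk j hj
    have hb2 := hB2 (j + 1) (by omega)
    have hbv := hBV (j + 1) hjk
    set N := ⌊B (j + 1)⌋₊ with hN
    have hB0 : 0 ≤ B (j + 1) := by linarith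
    have hNle : (N : ℝ) ≤ B (j + 1) := Nat.floor_le hB0
    have hNlt : B (j + 1) < N + 1 := Nat.lt_floor_add_one _
    have hNhalf : B (j + 1) / 2 ≤ N := by linarith
    have hNV : V ≤ N := by linarith
    have hN0 : N₀ ≤ N := by
      have : (N₀ : ℝ) ≤ N := by linarith
      exact_mod_cast this
    have hNpos : (0 : ℝ) < N := by linarith
    have hLN : L ≤ Real.log N := Real.log_le_log hV0 hNV
    have hLN0 : 0 < Real.log N := by linarith
    have htN : t ≤ Real.log (Real.log N) := Real.log_le_log hL0 hLN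
    have hLN2 : Real.log N ≤ 2 * L := by
      have : Real.log N ≤ Real.log (V ^ 2) := Real.log_le_log hNpos (hNle.trans hbv)
      rw [Real.log_pow] at this
      push_cast at this
      exact this
    obtain ⟨M, m1, m2, m3, m4⟩ := h N hN0 (j + 1) (by omega) (hjk.trans (by linarith))
    refine ⟨M, m1, m2, m3, le_trans ?_ m4⟩
    rw [Nat.add_sub_cancel]
    have e1 : (B (j + 1) / 2) / (2 * L) ≤ (N : ℝ) / Real.log N := by gcongr
    have e2 : (t / 2) ^ j ≤ (Real.log (Real.log N) / 2) ^ j := by gcongr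
    have e3 : c / 4 * (V / L) * (l ^ j / j.factorial) ≤
        c * ((B (j + 1) / 2) / (2 * L)) * ((t / 2) ^ j / j.factorial) := by
      have e4 : B (j + 1) = V * (2 : ℝ) ^ (4 / 3 : ℝ) * ((2 : ℝ) ^ (4 / 3 : ℝ)) ^ j := by
        rw [hB]
        simp only
        rw [← Real.rpow_natCast ((2 : ℝ) ^ (4 / 3 : ℝ)) j, ← Real.rpow_mul (by norm_num), mul_assoc,
          ← Real.rpow_add (by norm_num)]
        congr 2
        push_cast
        ring
      have e5 : (2 : ℝ) ^ (4 / 3 : ℝ) = 2 * kap := by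
        unfold kap
        rw [show (4 / 3 : ℝ) = 1 + 1 / 3 by norm_num, Real.rpow_add (by norm_num), Real.rpow_one]
      have e6 : c * ((B (j + 1) / 2) / (2 * L)) * ((t / 2) ^ j / j.factorial) =
          2 * kap * (c / 4 * (V / L) * (l ^ j / j.factorial)) := by
        rw [e4, e5, hl]
        have : (2 * kap) ^ j * (t / 2) ^ j = (kap * t) ^ j := by
          rw [← mul_pow]
          congr 1
          ring
        calc c * ((V * (2 * kap) * (2 * kap) ^ j / 2) / (2 * L)) * ((t / 2) ^ j / j.factorial)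
            = 2 * kap * (c / 4 * (V / L) * (((2 * kap) ^ j * (t / 2) ^ j) / j.factorial)) := by
              field_simp
              ring
          _ = _ := by rw [this]
      rw [e6]
      have e7 : 0 ≤ c / 4 * (V / L) * (l ^ j / j.factorial) := by positivity
      nlinarith
    refine e3.trans ?_
    gcongr
  choose! M hM1 hM2 hM3 hM4 using hex
  refine ⟨J.biUnion M, ?_, ?_, ?_⟩
  · intro K hK
    rw [Finset.mem_biUnion] at hK
    obtain ⟨j, hj, hK⟩ := hK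
    have h1 := Finset.mem_Icc.1 (hM1 j hj hK)
    rw [Finset.mem_Icc]
    exact ⟨h1.1, h1.2.trans (Nat.floor_le_floor (hBV (j + 1) (hJk j hj)))⟩
  · intro K hK
    rw [Finset.mem_biUnion] at hK
    obtain ⟨j, hj, hK⟩ := hK
    have h1 := Finset.mem_Icc.1 (hM1 j hj hK)
    have h2 : (2 : ℝ) ^ (j + 1) ≤ gr K := by exact_mod_cast hM2 j hj K hK
    have hb2 := hB2 (j + 1) (by omega)
    have h3 : (K : ℝ) ≤ B (j + 1) := (Nat.le_floor_iff (by linarith)).1 h1.2
    have hK0 : (0 : ℝ) < K := by exact_mod_cast h1.1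
    have h4 : B (j + 1) ^ (-(3 / 4) : ℝ) ≤ (K : ℝ) ^ (-(3 / 4) : ℝ) :=
      Real.rpow_le_rpow_of_nonpos hK0 h3 (by norm_num)
    have h5 : B (j + 1) ^ (-(3 / 4) : ℝ) = V ^ (-(3 / 4) : ℝ) * ((2 : ℝ) ^ (j + 1))⁻¹ := by
      rw [hB]
      simp only
      rw [Real.mul_rpow hV0.le (by positivity), ← Real.rpow_mul (by norm_num)]
      congr 1
      rw [← Real.rpow_natCast, ← Real.rpow_neg (by norm_num)]
      congr 1
      ring
    calc V ^ (-(3 / 4) : ℝ) = 2 ^ (j + 1) * (V ^ (-(3 / 4) : ℝ) * ((2 : ℝ) ^ (j + 1))⁻¹) := by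
          field_simp
      _ ≤ gr K * (K : ℝ) ^ (-(3 / 4) : ℝ) := by
          rw [← h5]
          gcongr
  · have hdisj : ∀ a ∈ J, ∀ b ∈ J, a ≠ b → Disjoint (M a) (M b) := by
      intro a ha b hb hab
      rw [Finset.disjoint_left]
      intro m hma hmb
      have e1 := hM3 a ha m hma
      have e2 := hM3 b hb m hmb
      omega
    rw [Finset.card_biUnion hdisj, Nat.cast_sum]
    refine le_trans ?_ (Finset.sum_le_sum hM4)
    rw [← Finset.mul_sum]
    have h1 := poisson_sum hl16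
    have h2 : Real.exp l = L ^ kap := by
      rw [hl, hLt, ← Real.exp_mul, mul_comm]
    have h3 : L ^ (kap - 1) = L ^ kap / L := by
      rw [Real.rpow_sub hL0, Real.rpow_one]
    rw [h3, ← h2]
    calc c / (24 * Real.exp 2) * V * (Real.exp l / L) =
        c / 4 * (V / L) * (Real.exp l / (6 * Real.exp 2)) := by
          field_simp
          ring
      _ ≤ _ := by gcongr

end Pool.Agent.Helper53.OM
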