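import Pool.Agent.Helper53.OM.Stir

/-!
# Final assembly: choice of the parameters
-/

open Filter
open scoped Real
open Pool.Agent.Helper22.GC

namespace Pool.Agent.Helper53.OM

lemma Eex_le : Eex ≤ 1 := by
  have h := kap_pos
  have h2 := Real.log_two_lt_d9
  have h3 : 0 ≤ kap * (1 - 4 / 3 * Real.log 2) := by
    apply mul_nonneg h.le
    linarith
  unfold Eex
  linarith

lemma Eex_ge : 1 / 2 ≤ Eex := by
  have h := kap_le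
  have h0 := kap_pos
  have h2 := Real.log_two_gt_d9
  unfold Eex
  nlinarith

lemma kl_le : kap * Real.log 2 ≤ 1 := by
  have h := kap_le
  have h0 := kap_pos
  have h2 := Real.log_two_lt_d9
  nlinarith

lemma kl_id : kap * Real.log 2 - 3 / 4 * Eex = 3 / 4 * (kap - 1) := by
  unfold Eex; ring

/-- `y2 ^ Eex * y3 ^ (-1/2)` is between `1` and `y2` -/
lemma aux_Q {y2 y3 : ℝ} (h2 : 1 ≤ y2) (h3 : 1 ≤ y3) (h : y3 ≤ y2) :
    1 ≤ y2 ^ Eex * y3 ^ (-(1 / 2) : ℝ) ∧ y2 ^ Eex * y3 ^ (-(1 / 2) : ℝ) ≤ y2 := by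
  have h20 : 0 < y2 := by linarith
  have h30 : 0 < y3 := by linarith
  constructor
  · have e1 : y2 ^ (1 / 2 : ℝ) ≤ y2 ^ Eex := Real.rpow_le_rpow_of_exponent_le h2 Eex_ge
    have e2 : y3 ^ (1 / 2 : ℝ) ≤ y2 ^ (1 / 2 : ℝ) := Real.rpow_le_rpow h30.le h (by norm_num)
    rw [Real.rpow_neg h30.le, ← div_eq_mul_inv, le_div_iff₀ (by positivity)]
    linarith
  · have e1 : y2 ^ Eex ≤ y2 ^ (1 : ℝ) := Real.rpow_le_rpow_of_exponent_le h2 Eex_le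
    rw [Real.rpow_one] at e1
    have e2 : y3 ^ (-(1 / 2) : ℝ) ≤ 1 := Real.rpow_le_one_of_one_le_of_nonpos h3 (by norm_num)
    have e3 : 0 ≤ y3 ^ (-(1 / 2) : ℝ) := by positivity
    nlinarith

/-- the asymptotic conditions on `X` -/
lemma eventually_params (a K ε c' : ℝ) (N₀ : ℕ) (ha : 0 < a) (hε : 0 < ε) (hc' : 0 < c') :
    ∀ᶠ X : ℝ in atTop, 2 ≤ X ∧ 1 ≤ Real.log X ∧ 1 ≤ Real.log (Real.log X) ∧
      5 ≤ Real.log (Real.log (Real.log X)) ∧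
      2 * ((N₀ : ℝ) + 2) ≤ a * Real.log X ∧
      2 * Real.log (2 / a) ≤ Real.log (Real.log X) ∧
      Real.log (Real.log (Real.log X)) ≤ c' * a * Real.log X ∧
      Real.log (Real.log (Real.log X)) ≤ ε / 18 * Real.log X ∧
      K * Real.log (Real.log (Real.log X)) ^ (5 / 8 : ℝ) ≤
        Real.log (Real.log X) ^ (3 / 4 * (kap - 1)) ∧
      Real.log (1 + ε) ≤ Real.log (Real.log X) := by
  have t1 : Tendsto (fun X : ℝ => Real.log X) atTop atTop := Real.tendsto_log_atTop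
  have t2 : Tendsto (fun X : ℝ => Real.log (Real.log X)) atTop atTop :=
    Real.tendsto_log_atTop.comp t1
  have t3 : Tendsto (fun X : ℝ => Real.log (Real.log (Real.log X))) atTop atTop :=
    Real.tendsto_log_atTop.comp t2
  have hlog : ∀ δ : ℝ, 0 < δ → ∀ᶠ u : ℝ in atTop, Real.log u ≤ δ * u := by
    intro δ hδ
    have h := Real.isLittleO_log_id_atTop.bound hδ
    filter_upwards [h, eventually_ge_atTop (0 : ℝ)] with u hu hu0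
    simp only [id, Real.norm_eq_abs, abs_of_nonneg hu0] at hu
    exact (le_abs_self _).trans hu
  have hll : ∀ δ : ℝ, 0 < δ → ∀ᶠ X : ℝ in atTop,
      Real.log (Real.log (Real.log X)) ≤ δ * Real.log X := by
    intro δ hδ
    filter_upwards [t1.eventually (hlog δ hδ), t2.eventually (hlog 1 one_pos)] with X h1 h2
    linarith
  have hpow : ∀ᶠ u : ℝ in atTop, K * Real.log u ^ (5 / 8 : ℝ) ≤ u ^ (3 / 4 * (kap - 1)) := by
    have hδ : 0 < 3 / 4 * (kap - 1) := by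
      have := kap_ge
      linarith
    have h := (isLittleO_log_rpow_rpow_atTop (5 / 8) hδ).bound
      (show (0 : ℝ) < 1 / (|K| + 1) by positivity)
    filter_upwards [h, eventually_ge_atTop (1 : ℝ)] with u hu hu0
    have hl : 0 ≤ Real.log u := Real.log_nonneg hu0
    have hu1 : (0 : ℝ) ≤ u ^ (3 / 4 * (kap - 1)) := by positivity
    have hu2 : (0 : ℝ) ≤ Real.log u ^ (5 / 8 : ℝ) := by positivity
    rw [Real.norm_eq_abs, Real.norm_eq_abs, abs_of_nonneg hu2, abs_of_nonneg hu1] at hu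
    have h3 : K ≤ |K| + 1 := by linarith [le_abs_self K]
    calc K * Real.log u ^ (5 / 8 : ℝ) ≤ (|K| + 1) * Real.log u ^ (5 / 8 : ℝ) := by gcongr
      _ ≤ (|K| + 1) * (1 / (|K| + 1) * u ^ (3 / 4 * (kap - 1))) := by gcongr
      _ = _ := by
          have : (|K| + 1) ≠ 0 := by positivity
          field_simp
  filter_upwards [eventually_ge_atTop (2 : ℝ), t1.eventually_ge_atTop 1, t2.eventually_ge_atTop 1, t3.eventually_ge_atTop 5,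
    (t1.const_mul_atTop ha).eventually_ge_atTop (2 * ((N₀ : ℝ) + 2)),
    t2.eventually_ge_atTop (2 * Real.log (2 / a)), hll (c' * a) (by positivity),
    hll (ε / 18) (by positivity), t2.eventually hpow,
    t2.eventually_ge_atTop (Real.log (1 + ε))] with X h0 h1 h2 h3 h4 h5 h6 h7 h8 h9
  exact ⟨h0, h1, h2, h3, h4, h5, h6, h7, h8, h9⟩

/-- the choice of `N` -/
lemma choose_N {a y y2 y3 : ℝ} {N₀ : ℕ} (ha : 0 < a) (ha1 : a ≤ 1) (hy : 1 ≤ y)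
    (hy2 : y2 = Real.log y) (hy3 : y3 = Real.log y2) (h3 : 5 ≤ y3) (h21 : 1 ≤ y2)
    (h4 : 2 * ((N₀ : ℝ) + 2) ≤ a * y) (h5 : 2 * Real.log (2 / a) ≤ y2) :
    ∃ N : ℕ, N₀ ≤ N ∧ 1 ≤ N ∧ a * y * (y2 ^ Eex * y3 ^ (-(1 / 2) : ℝ)) / 2 ≤ N ∧
      (N : ℝ) ≤ a * y * (y2 ^ Eex * y3 ^ (-(1 / 2) : ℝ)) ∧ (N : ℝ) ≤ y * y2 ∧
      y2 / 2 ≤ Real.log N ∧ Real.log N ≤ 2 * y2 ∧ 0 < Real.log (Real.log N) ∧
      Real.log (Real.log N) ≤ 2 * y3 := by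
  have hy0 : 0 < y := by linarith
  have h20 : 0 < y2 := by linarith
  have h32 : y3 ≤ y2 := by
    rw [hy3]
    linarith [Real.log_le_sub_one_of_pos h20]
  obtain ⟨q1, q2⟩ := aux_Q h21 (by linarith : (1 : ℝ) ≤ y3) h32
  set Q := a * y * (y2 ^ Eex * y3 ^ (-(1 / 2) : ℝ)) with hQ
  have hQ1 : a * y ≤ Q := by
    rw [hQ]
    have : 0 < a * y := by positivity
    nlinarith
  have hQ2 : Q ≤ y * y2 := by
    rw [hQ]
    have e1 : a * y ≤ y := by nlinarith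
    have e2 : 0 ≤ y2 ^ Eex * y3 ^ (-(1 / 2) : ℝ) := by linarith
    calc a * y * (y2 ^ Eex * y3 ^ (-(1 / 2) : ℝ)) ≤ y * (y2 ^ Eex * y3 ^ (-(1 / 2) : ℝ)) := by
          gcongr
      _ ≤ y * y2 := by gcongr
  have hN0 : (0 : ℝ) ≤ N₀ := Nat.cast_nonneg _
  have hfl : (⌊Q⌋₊ : ℝ) ≤ Q := Nat.floor_le (by linarith)
  have hfl2 : Q < ⌊Q⌋₊ + 1 := Nat.lt_floor_add_one _
  have hhalf : Q / 2 ≤ ⌊Q⌋₊ := by linarith
  have hNN : N₀ ≤ ⌊Q⌋₊ := Nat.le_floor (by linarith)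
  have hN1 : 1 ≤ ⌊Q⌋₊ := Nat.le_floor (by push_cast; linarith)
  have hNpos : (0 : ℝ) < ⌊Q⌋₊ := by exact_mod_cast hN1
  have hup : Real.log ⌊Q⌋₊ ≤ 2 * y2 := by
    have e1 : Real.log ⌊Q⌋₊ ≤ Real.log (y * y2) := Real.log_le_log hNpos (hfl.trans hQ2)
    rw [Real.log_mul hy0.ne' h20.ne', ← hy2, ← hy3] at e1
    linarith
  have hlo : y2 / 2 ≤ Real.log ⌊Q⌋₊ := by
    have e1 : Real.log (y / (2 / a)) ≤ Real.log ⌊Q⌋₊ := by
      apply Real.log_le_log (by positivity)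
      have : y / (2 / a) = a * y / 2 := by field_simp
      rw [this]
      linarith
    rw [Real.log_div hy0.ne' (by positivity), ← hy2] at e1
    linarith
  have hy2e : y2 = Real.exp y3 := by rw [hy3, Real.exp_log h20]
  have hy24 : 4 ≤ y2 := by
    rw [hy2e]
    linarith [Real.add_one_le_exp y3]
  have hlogN : 1 < Real.log ⌊Q⌋₊ := by linarith
  refine ⟨⌊Q⌋₊, hNN, hN1, hhalf, hfl, hfl.trans hQ2, hlo, hup, Real.log_pos hlogN, ?_⟩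
  have e1 : Real.log (Real.log ⌊Q⌋₊) ≤ Real.log (2 * y2) := Real.log_le_log (by linarith) hup
  rw [Real.log_mul (by norm_num) h20.ne', ← hy3] at e1
  have := Real.log_two_lt_d9
  linarith

/-- the size of the set of frequencies -/
lemma card_lower {a y y2 y3 c1 : ℝ} {N : ℕ} (ha0 : 0 < a) (hy0 : 0 < y) (h20 : 0 < y2)
    (h30 : 0 < y3) (hc1 : 0 < c1)
    (hNlo : a * y * (y2 ^ Eex * y3 ^ (-(1 / 2) : ℝ)) / 2 ≤ N) (hlN0 : 0 < Real.log N)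
    (hlN2 : Real.log N ≤ 2 * y2) (hll0 : 0 < Real.log (Real.log N))
    (hll1 : Real.log (Real.log N) ≤ 2 * y3) :
    c1 / 8 * a * y / y3 ≤
      c1 * N * Real.log N ^ (-Eex) * Real.log (Real.log N) ^ (-(1 / 2) : ℝ) := by
  have e1 : (2 * y2) ^ (-Eex) ≤ Real.log N ^ (-Eex) :=
    Real.rpow_le_rpow_of_nonpos hlN0 hlN2 (by linarith [Eex_ge])
  have e2 : (2 * y3) ^ (-(1 / 2) : ℝ) ≤ Real.log (Real.log N) ^ (-(1 / 2) : ℝ) :=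
    Real.rpow_le_rpow_of_nonpos hll0 hll1 (by norm_num)
  have e3 : c1 * (a * y * (y2 ^ Eex * y3 ^ (-(1 / 2) : ℝ)) / 2) * (2 * y2) ^ (-Eex) *
      (2 * y3) ^ (-(1 / 2) : ℝ) ≤
      c1 * N * Real.log N ^ (-Eex) * Real.log (Real.log N) ^ (-(1 / 2) : ℝ) := by
    gcongr
  refine le_trans ?_ e3
  have e4 : (2 * y2) ^ (-Eex) = 2 ^ (-Eex) * (y2 ^ Eex)⁻¹ := by
    rw [Real.mul_rpow (by norm_num) h20.le, Real.rpow_neg h20.le]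
  have e5 : (2 * y3) ^ (-(1 / 2) : ℝ) = 2 ^ (-(1 / 2) : ℝ) * y3 ^ (-(1 / 2) : ℝ) := by
    rw [Real.mul_rpow (by norm_num) h30.le]
  have e6 : y3 ^ (-(1 / 2) : ℝ) * y3 ^ (-(1 / 2) : ℝ) = y3⁻¹ := by
    rw [← Real.rpow_add h30, ← Real.rpow_neg_one]
    norm_num
  have e7 : (1 / 2 : ℝ) ≤ 2 ^ (-Eex) := by
    have : (2 : ℝ) ^ (-(1 : ℝ)) ≤ 2 ^ (-Eex) :=
      Real.rpow_le_rpow_of_exponent_le (by norm_num) (by linarith [Eex_le])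
    rw [Real.rpow_neg_one] at this
    linarith
  have e8 : (1 / 2 : ℝ) ≤ 2 ^ (-(1 / 2) : ℝ) := by
    have : (2 : ℝ) ^ (-(1 : ℝ)) ≤ 2 ^ (-(1 / 2) : ℝ) :=
      Real.rpow_le_rpow_of_exponent_le (by norm_num) (by norm_num)
    rw [Real.rpow_neg_one] at this
    linarith
  have e9 : c1 * (a * y * (y2 ^ Eex * y3 ^ (-(1 / 2) : ℝ)) / 2) * (2 * y2) ^ (-Eex) *
      (2 * y3) ^ (-(1 / 2) : ℝ) =
      c1 * a * y / 2 * (2 ^ (-Eex) * 2 ^ (-(1 / 2) : ℝ)) * (y2 ^ Eex * (y2 ^ Eex)⁻¹) *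
        (y3 ^ (-(1 / 2) : ℝ) * y3 ^ (-(1 / 2) : ℝ)) := by
    rw [e4, e5]; ring
  rw [e9, e6, mul_inv_cancel₀ (by positivity), mul_one]
  have e10 : (1 / 2 : ℝ) * (1 / 2) ≤ 2 ^ (-Eex) * 2 ^ (-(1 / 2) : ℝ) := by gcongr
  calc c1 / 8 * a * y / y3 = c1 * a * y / 2 * (1 / 2 * (1 / 2)) * y3⁻¹ := by
        field_simp; norm_num
    _ ≤ _ := by gcongr

/-- the choice of `L` -/
lemma choose_L {y2 y3 : ℝ} (h20 : 0 < y2) (hy3 : y3 = Real.log y2) (h3 : 5 ≤ y3) :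
    ∃ L : ℕ, 2 ≤ L ∧ y2 ^ 4 ≤ (L : ℝ) ∧ 16 * (L : ℝ) ^ 2 ≤ Real.exp (9 * y3) := by
  have hy2e : y2 = Real.exp y3 := by rw [hy3, Real.exp_log h20]
  have hy24 : 6 ≤ y2 := by
    rw [hy2e]
    linarith [Real.add_one_le_exp y3]
  have hL1 : y2 ^ 4 ≤ (⌈y2 ^ 4⌉₊ : ℝ) := Nat.le_ceil _
  have hL2 : (⌈y2 ^ 4⌉₊ : ℝ) ≤ 2 * y2 ^ 4 := by
    have e1 := Nat.ceil_lt_add_one (show 0 ≤ y2 ^ 4 by positivity)
    have e2 : (1 : ℝ) ≤ y2 ^ 4 := one_le_pow₀ (by linarith)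
    linarith
  have hL0 : (2 : ℝ) ≤ ⌈y2 ^ 4⌉₊ := by
    have e2 : (6 : ℝ) ^ 4 ≤ y2 ^ 4 := by gcongr
    norm_num at e2
    linarith
  refine ⟨⌈y2 ^ 4⌉₊, by exact_mod_cast hL0, hL1, ?_⟩
  calc 16 * (⌈y2 ^ 4⌉₊ : ℝ) ^ 2 ≤ 16 * (2 * y2 ^ 4) ^ 2 := by gcongr
    _ = 64 * y2 ^ 8 := by ring
    _ = 64 * Real.exp (8 * y3) := by
        rw [hy2e, ← Real.exp_nat_mul]; norm_num
    _ ≤ Real.exp y3 * Real.exp (8 * y3) := by
        gcongr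
        have e1 : Real.exp 5 ≤ Real.exp y3 := Real.exp_le_exp.2 h3
        have e2 : (64 : ℝ) ≤ Real.exp 5 := by
          have e3 : (2.7 : ℝ) ≤ Real.exp 1 := by
            have := Real.exp_one_gt_d9
            linarith
          have e4 : Real.exp 5 = Real.exp 1 ^ 5 := by
            rw [← Real.exp_nat_mul]; norm_num
          rw [e4]
          calc (64 : ℝ) ≤ 2.7 ^ 5 := by norm_num
            _ ≤ _ := by gcongr
        linarith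
    _ = Real.exp (9 * y3) := by rw [← Real.exp_add]; ring_nf

/-- the upper bound for `R` -/
lemma R_upper {X y y3 ε q L : ℝ} {m : ℕ} (hX0 : 0 < X) (hy : y = Real.log X)
    (hy0 : 0 < y) (h30 : 0 < y3)
    (hmle : (m : ℝ) ≤ q * y / y3) (hq : 9 * q ≤ ε / 2)
    (h7 : y3 ≤ ε / 18 * y) (hL16 : 16 * L ^ 2 ≤ Real.exp (9 * y3)) :
    4 * X * (16 * L ^ 2) ^ m * L ^ 2 ≤ X ^ (1 + ε) := by
  have hXe : X = Real.exp y := by rw [hy, Real.exp_log hX0]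
  have e1 : (16 * L ^ 2) ^ m ≤ Real.exp (ε / 2 * y) := by
    calc (16 * L ^ 2) ^ m ≤ (Real.exp (9 * y3)) ^ m := by gcongr
      _ = Real.exp (m * (9 * y3)) := by rw [← Real.exp_nat_mul]
      _ ≤ Real.exp (ε / 2 * y) := by
          apply Real.exp_le_exp.2
          calc (m : ℝ) * (9 * y3) ≤ q * y / y3 * (9 * y3) := by gcongr
            _ = 9 * q * y := by field_simp
            _ ≤ ε / 2 * y := by gcongr
  have e2 : 4 * L ^ 2 ≤ Real.exp (ε / 2 * y) := by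
    have e3 : 4 * L ^ 2 ≤ 16 * L ^ 2 := by nlinarith [sq_nonneg L]
    refine e3.trans (hL16.trans (Real.exp_le_exp.2 ?_))
    linarith
  calc 4 * X * (16 * L ^ 2) ^ m * L ^ 2
      = X * (16 * L ^ 2) ^ m * (4 * L ^ 2) := by ring
    _ ≤ X * Real.exp (ε / 2 * y) * Real.exp (ε / 2 * y) := by gcongr
    _ = X ^ (1 + ε) := by
        rw [Real.rpow_def_of_pos hX0, ← hy]
        nth_rw 1 [hXe]
        rw [← Real.exp_add, ← Real.exp_add]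
        ring_nf

/-- the sum over the set of frequencies -/
lemma sum_lower {a y y2 y3 c1 c' : ℝ} {N m : ℕ} {M' : Finset ℕ} (ha0 : 0 < a) (ha1 : a ≤ 1)
    (hy0 : 0 < y) (h20 : 0 < y2) (h30 : 0 < y3) (hc1 : 0 < c1) (hc' : 0 < c')
    (hNup : (N : ℝ) ≤ a * y * (y2 ^ Eex * y3 ^ (-(1 / 2) : ℝ)))
    (hlN1 : y2 / 2 ≤ Real.log N) (hM's : M' ⊆ Finset.Icc 1 N)
    (hMg : ∀ m ∈ M', c1 * (Real.log N) ^ (kap * Real.log 2) ≤ gr m)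
    (hM'c : M'.card = m) (hmge : c' * a * y / y3 / 2 ≤ m) :
    c' * a * c1 / 4 * (y ^ (1 / 4 : ℝ) * y2 ^ (3 / 4 * (kap - 1)) * y3 ^ (-(5 / 8) : ℝ)) ≤
      ∑ K ∈ M', (gr K : ℝ) * (K : ℝ) ^ (-(3 / 4) : ℝ) := by
  have e1 : ∀ K ∈ M', c1 * (y2 / 2) ^ (kap * Real.log 2) *
      (a * y * (y2 ^ Eex * y3 ^ (-(1 / 2) : ℝ))) ^ (-(3 / 4) : ℝ) ≤
      (gr K : ℝ) * (K : ℝ) ^ (-(3 / 4) : ℝ) := by
    intro K hKm
    have f1 := hMg K hKm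
    have f2 := Finset.mem_Icc.1 (hM's hKm)
    have f3 : (0 : ℝ) < K := by exact_mod_cast f2.1
    have f4 : (K : ℝ) ≤ N := by exact_mod_cast f2.2
    have f5 : (y2 / 2) ^ (kap * Real.log 2) ≤ Real.log N ^ (kap * Real.log 2) := by
      apply Real.rpow_le_rpow (by positivity) hlN1
      have := kap_pos
      have := Real.log_nonneg (show (1 : ℝ) ≤ 2 by norm_num)
      positivity
    have f6 : (a * y * (y2 ^ Eex * y3 ^ (-(1 / 2) : ℝ))) ^ (-(3 / 4) : ℝ) ≤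
        (K : ℝ) ^ (-(3 / 4) : ℝ) :=
      Real.rpow_le_rpow_of_nonpos f3 (f4.trans hNup) (by norm_num)
    calc _ ≤ c1 * Real.log N ^ (kap * Real.log 2) * (K : ℝ) ^ (-(3 / 4) : ℝ) := by gcongr
      _ ≤ _ := by gcongr
  have e2 := Finset.card_nsmul_le_sum M' _ _ e1
  refine le_trans ?_ e2
  rw [hM'c, nsmul_eq_mul]
  have e3 : c' * a * y / y3 / 2 * (c1 * (y2 / 2) ^ (kap * Real.log 2) *
      (a * y * (y2 ^ Eex * y3 ^ (-(1 / 2) : ℝ))) ^ (-(3 / 4) : ℝ)) ≤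
      (m : ℝ) * (c1 * (y2 / 2) ^ (kap * Real.log 2) *
      (a * y * (y2 ^ Eex * y3 ^ (-(1 / 2) : ℝ))) ^ (-(3 / 4) : ℝ)) := by gcongr
  refine le_trans ?_ e3
  have e4 : (a * y * (y2 ^ Eex * y3 ^ (-(1 / 2) : ℝ))) ^ (-(3 / 4) : ℝ) =
      a ^ (-(3 / 4) : ℝ) * y ^ (-(3 / 4) : ℝ) * (y2 ^ (-(3 / 4 * Eex)) * y3 ^ (3 / 8 : ℝ)) := by
    rw [Real.mul_rpow (by positivity) (by positivity), Real.mul_rpow ha0.le hy0.le,
      Real.mul_rpow (by positivity) (by positivity), ← Real.rpow_mul h20.le,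
      ← Real.rpow_mul h30.le]
    congr 2
    · congr 1; ring
    · congr 1; norm_num
  have e5 : (y2 / 2) ^ (kap * Real.log 2) =
      y2 ^ (kap * Real.log 2) * (2 ^ (kap * Real.log 2))⁻¹ := by
    rw [Real.div_rpow h20.le (by norm_num), div_eq_mul_inv]
  have e6 : (1 / 2 : ℝ) ≤ (2 ^ (kap * Real.log 2))⁻¹ := by
    have f1 : (2 : ℝ) ^ (kap * Real.log 2) ≤ 2 ^ (1 : ℝ) :=
      Real.rpow_le_rpow_of_exponent_le (by norm_num) kl_le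
    rw [Real.rpow_one] at f1
    rw [one_div]
    apply inv_anti₀ (by positivity) f1
  have e7 : 1 ≤ a ^ (-(3 / 4) : ℝ) := Real.one_le_rpow_of_pos_of_le_one_of_nonpos ha0 ha1
    (by norm_num)
  have e8 : y * y ^ (-(3 / 4) : ℝ) = y ^ (1 / 4 : ℝ) := by
    nth_rw 1 [← Real.rpow_one y]
    rw [← Real.rpow_add hy0]; norm_num
  have e9 : y2 ^ (kap * Real.log 2) * y2 ^ (-(3 / 4 * Eex)) = y2 ^ (3 / 4 * (kap - 1)) := by
    rw [← Real.rpow_add h20]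
    congr 1
    rw [← kl_id]; ring
  have e10 : y3⁻¹ * y3 ^ (3 / 8 : ℝ) = y3 ^ (-(5 / 8) : ℝ) := by
    rw [← Real.rpow_neg_one, ← Real.rpow_add h30]; norm_num
  have e11 : c' * a * y / y3 / 2 * (c1 * (y2 / 2) ^ (kap * Real.log 2) *
      (a * y * (y2 ^ Eex * y3 ^ (-(1 / 2) : ℝ))) ^ (-(3 / 4) : ℝ)) =
      c' * a * c1 / 2 * ((2 ^ (kap * Real.log 2))⁻¹ * a ^ (-(3 / 4) : ℝ)) *
      ((y * y ^ (-(3 / 4) : ℝ)) * (y2 ^ (kap * Real.log 2) * y2 ^ (-(3 / 4 * Eex))) *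
      (y3⁻¹ * y3 ^ (3 / 8 : ℝ))) := by
    rw [e4, e5]; ring
  rw [e11, e8, e9, e10]
  have e12 : (1 / 2 : ℝ) * 1 ≤ (2 ^ (kap * Real.log 2))⁻¹ * a ^ (-(3 / 4) : ℝ) := by gcongr
  calc c' * a * c1 / 4 * (y ^ (1 / 4 : ℝ) * y2 ^ (3 / 4 * (kap - 1)) * y3 ^ (-(5 / 8) : ℝ))
      = c' * a * c1 / 2 * (1 / 2 * 1) *
        (y ^ (1 / 4 : ℝ) * y2 ^ (3 / 4 * (kap - 1)) * y3 ^ (-(5 / 8) : ℝ)) := by ring
    _ ≤ _ := by gcongr

/-- the error terms -/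
lemma err_upper {C y y2 : ℝ} {N L : ℕ} (hC : 0 < C) (h1 : 1 ≤ y) (h2 : 1 ≤ y2) (hN : 1 ≤ N)
    (hNup2 : (N : ℝ) ≤ y * y2) (hL1 : y2 ^ 4 ≤ (L : ℝ)) :
    C + C * (N : ℝ) ^ (1 / 4 : ℝ) / √(L : ℝ) ≤ 2 * C * y ^ (1 / 4 : ℝ) := by
  have hy0 : 0 < y := by linarith
  have h20 : 0 < y2 := by linarith
  have hNpos : (0 : ℝ) < N := by exact_mod_cast hN
  have hLpos : (0 : ℝ) < L := lt_of_lt_of_le (by positivity) hL1
  have hy14 : 1 ≤ y ^ (1 / 4 : ℝ) := Real.one_le_rpow h1 (by norm_num)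
  have f1 : (N : ℝ) ^ (1 / 4 : ℝ) ≤ y ^ (1 / 4 : ℝ) * y2 ^ (1 / 4 : ℝ) := by
    rw [← Real.mul_rpow hy0.le h20.le]
    exact Real.rpow_le_rpow hNpos.le hNup2 (by norm_num)
  have f2 : y2 ^ 2 ≤ √(L : ℝ) := by
    apply Real.le_sqrt_of_sq_le
    have : (y2 ^ 2) ^ 2 = y2 ^ 4 := by ring
    rw [this]
    exact hL1
  have f3 : y2 ^ (1 / 4 : ℝ) ≤ √(L : ℝ) := by
    calc y2 ^ (1 / 4 : ℝ) ≤ y2 ^ (1 : ℝ) :=
          Real.rpow_le_rpow_of_exponent_le h2 (by norm_num)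
      _ = y2 := Real.rpow_one _
      _ ≤ y2 ^ 2 := by nlinarith
      _ ≤ _ := f2
  have f4 : C * (N : ℝ) ^ (1 / 4 : ℝ) / √(L : ℝ) ≤ C * y ^ (1 / 4 : ℝ) := by
    rw [div_le_iff₀ (by positivity)]
    calc C * (N : ℝ) ^ (1 / 4 : ℝ) ≤ C * (y ^ (1 / 4 : ℝ) * y2 ^ (1 / 4 : ℝ)) := by gcongr
      _ ≤ C * (y ^ (1 / 4 : ℝ) * √(L : ℝ)) := by gcongr
      _ = _ := by ring
  have f5 : C ≤ C * y ^ (1 / 4 : ℝ) := by nlinarith
  linarith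

/-- comparison of the main function at `R` and at `X` -/
lemma G_compare {X R ε y y2 y3 δ : ℝ} (hε : 0 < ε) (hX0 : 0 < X) (hR1 : X ≤ R)
    (hRup : R ≤ X ^ (1 + ε)) (hy : y = Real.log X) (hy2 : y2 = Real.log y)
    (hy3 : y3 = Real.log y2) (hy0 : 0 < y) (h20 : 0 < y2) (h30 : 0 < y3)
    (h9 : Real.log (1 + ε) ≤ y2) (hδ0 : 0 ≤ δ) (hδ1 : δ ≤ 1) :
    Real.log R ^ (1 / 4 : ℝ) * Real.log (Real.log R) ^ δ *
      Real.log (Real.log (Real.log R)) ^ (-(5 / 8) : ℝ) ≤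
      2 * (1 + ε) * (y ^ (1 / 4 : ℝ) * y2 ^ δ * y3 ^ (-(5 / 8) : ℝ)) := by
  have hR0 : 0 < R := by linarith
  have hlR1 : y ≤ Real.log R := by rw [hy]; exact Real.log_le_log hX0 hR1
  have hlR2 : Real.log R ≤ (1 + ε) * y := by
    have f1 := Real.log_le_log hR0 hRup
    rwa [Real.log_rpow hX0, ← hy] at f1
  have hlR0 : 0 < Real.log R := by linarith
  have hllR1 : y2 ≤ Real.log (Real.log R) := by rw [hy2]; exact Real.log_le_log hy0 hlR1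
  have hllR2 : Real.log (Real.log R) ≤ 2 * y2 := by
    have f1 := Real.log_le_log hlR0 hlR2
    rw [Real.log_mul (by positivity) hy0.ne', ← hy2] at f1
    linarith
  have hllR0 : 0 < Real.log (Real.log R) := by linarith
  have hlllR1 : y3 ≤ Real.log (Real.log (Real.log R)) := by
    rw [hy3]; exact Real.log_le_log h20 hllR1
  have hlll0 : 0 < Real.log (Real.log (Real.log R)) := by linarith
  have f1 : Real.log R ^ (1 / 4 : ℝ) ≤ (1 + ε) * y ^ (1 / 4 : ℝ) := by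
    calc Real.log R ^ (1 / 4 : ℝ) ≤ ((1 + ε) * y) ^ (1 / 4 : ℝ) :=
          Real.rpow_le_rpow hlR0.le hlR2 (by norm_num)
      _ = (1 + ε) ^ (1 / 4 : ℝ) * y ^ (1 / 4 : ℝ) := Real.mul_rpow (by positivity) hy0.le
      _ ≤ (1 + ε) ^ (1 : ℝ) * y ^ (1 / 4 : ℝ) := by
          gcongr
          · linarith
          · norm_num
      _ = _ := by rw [Real.rpow_one]
  have f2 : Real.log (Real.log R) ^ δ ≤ 2 * y2 ^ δ := by
    calc Real.log (Real.log R) ^ δ ≤ (2 * y2) ^ δ := Real.rpow_le_rpow hllR0.le hllR2 hδ0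
      _ = 2 ^ δ * y2 ^ δ := Real.mul_rpow (by norm_num) h20.le
      _ ≤ 2 ^ (1 : ℝ) * y2 ^ δ := by
          gcongr
          norm_num
      _ = _ := by rw [Real.rpow_one]
  have f3 : Real.log (Real.log (Real.log R)) ^ (-(5 / 8) : ℝ) ≤ y3 ^ (-(5 / 8) : ℝ) :=
    Real.rpow_le_rpow_of_nonpos h30 hlllR1 (by norm_num)
  calc Real.log R ^ (1 / 4 : ℝ) * Real.log (Real.log R) ^ δ *
      Real.log (Real.log (Real.log R)) ^ (-(5 / 8) : ℝ)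
      ≤ ((1 + ε) * y ^ (1 / 4 : ℝ)) * (2 * y2 ^ δ) * y3 ^ (-(5 / 8) : ℝ) := by gcongr
    _ = 2 * (1 + ε) * (y ^ (1 / 4 : ℝ) * y2 ^ δ * y3 ^ (-(5 / 8) : ℝ)) := by ring

/-- C: the final assembly -/
theorem final_of_main
    (hcm : ∃ c : ℝ, 0 < c ∧ ∃ N₀ : ℕ, ∀ N : ℕ, N₀ ≤ N →
      ∃ M : Finset ℕ, M ⊆ Finset.Icc 1 N ∧
      (∀ m ∈ M, c * (Real.log N) ^ (kap * Real.log 2) ≤ gr m) ∧
      c * N * (Real.log N) ^ (-Eex) * (Real.log (Real.log N)) ^ (-(1 / 2) : ℝ) ≤ M.card)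
    (han : ∃ c C : ℝ, 0 < c ∧ 0 < C ∧ ∀ (N L : ℕ) (M : Finset ℕ) (X : ℝ), 1 ≤ N →
      2 ≤ L → M ⊆ Finset.Icc 1 N → 2 ≤ X →
      ∃ R : ℝ, X ≤ R ∧ R ≤ 4 * X * (16 * (L : ℝ) ^ 2) ^ M.card * (L : ℝ) ^ 2 ∧
      Pe R ≤ √R * (C + C * (N : ℝ) ^ (1 / 4 : ℝ) / √L
        - c * ∑ K ∈ M, (gr K : ℝ) * (K : ℝ) ^ (-(3 / 4) : ℝ)))
    (ε : ℝ) (hε : 0 < ε) : ∃ c : ℝ, 0 < c ∧ ∃ X₀ : ℝ, ∀ X : ℝ, X₀ ≤ X →
    ∃ R : ℝ, X ≤ R ∧ R ≤ X ^ (1 + ε) ∧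
      Pe R ≤ -c * R ^ (1 / 2 : ℝ) * (Real.log R) ^ (1 / 4 : ℝ) *
        (Real.log (Real.log R)) ^ (3 / 4 * ((2 : ℝ) ^ (1 / 3 : ℝ) - 1)) *
        (Real.log (Real.log (Real.log R))) ^ (-(5 / 8) : ℝ) := by
  obtain ⟨c1, hc1, N₀, hM⟩ := hcm
  obtain ⟨c, C, hc, hC, hA⟩ := han
  obtain ⟨c', hc'⟩ : ∃ c', c' = c1 / 8 := ⟨_, rfl⟩
  have hc'0 : 0 < c' := by rw [hc']; positivity
  obtain ⟨a, ha0, ha1, ha2⟩ : ∃ a : ℝ, 0 < a ∧ a ≤ 1 ∧ 9 * (c' * a) ≤ ε / 2 := by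
    refine ⟨min 1 (ε / (18 * c')), by positivity, min_le_left _ _, ?_⟩
    have h1 : min 1 (ε / (18 * c')) ≤ ε / (18 * c') := min_le_right _ _
    rw [le_div_iff₀ (by positivity)] at h1
    linarith
  obtain ⟨c3, hc3⟩ : ∃ c3, c3 = c' * a * c1 / 4 := ⟨_, rfl⟩
  have hc30 : 0 < c3 := by rw [hc3]; positivity
  obtain ⟨K, hK⟩ : ∃ K, K = 4 * C / (c * c3) := ⟨_, rfl⟩
  obtain ⟨X₀, hX₀⟩ := eventually_atTop.1 (eventually_params a K ε c' N₀ ha0 hε hc'0)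
  refine ⟨c * c3 / (4 * (1 + ε)), by positivity, X₀, fun X hX => ?_⟩
  have hX₀' := hX₀ X hX
  clear hX₀
  obtain ⟨y, hy⟩ : ∃ y, y = Real.log X := ⟨_, rfl⟩
  obtain ⟨y2, hy2⟩ : ∃ y2, y2 = Real.log y := ⟨_, rfl⟩
  obtain ⟨y3, hy3⟩ : ∃ y3, y3 = Real.log y2 := ⟨_, rfl⟩
  rw [← hy, ← hy2, ← hy3] at hX₀'
  obtain ⟨hX2, h1, h2, h3, h4, h5, h6, h7, h8, h9⟩ := hX₀'
  have hy0 : 0 < y := by linarith
  have h20 : 0 < y2 := by linarith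
  have h30 : 0 < y3 := by linarith
  have hX0 : 0 < X := by linarith
  obtain ⟨N, hN0, hN1, hNlo, hNup, hNup2, hlN1, hlN2, hll0, hll1⟩ :=
    choose_N ha0 ha1 h1 hy2 hy3 h3 h2 h4 h5
  obtain ⟨M, hMs, hMg, hMc⟩ := hM N hN0
  have hMcard : c' * a * y / y3 ≤ M.card := by
    rw [hc']
    exact (card_lower ha0 hy0 h20 h30 hc1 hNlo (by linarith) hlN2 hll0 hll1).trans hMc
  have hu1 : 1 ≤ c' * a * y / y3 := by rw [le_div_iff₀ h30]; linarith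
  obtain ⟨m, hmle, hmge⟩ : ∃ m : ℕ, (m : ℝ) ≤ c' * a * y / y3 ∧ c' * a * y / y3 / 2 ≤ m := by
    refine ⟨⌊c' * a * y / y3⌋₊, Nat.floor_le (by positivity), ?_⟩
    have e1 := Nat.lt_floor_add_one (c' * a * y / y3)
    have e2 : 1 ≤ ⌊c' * a * y / y3⌋₊ := Nat.le_floor (by simpa using hu1)
    have e3 : (1 : ℝ) ≤ ⌊c' * a * y / y3⌋₊ := by exact_mod_cast e2
    linarith
  obtain ⟨M', hM's, hM'c⟩ := Finset.exists_subset_card_eq (s := M) (n := m)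
    (by exact_mod_cast hmle.trans hMcard)
  obtain ⟨L, hL2, hL4, hL16⟩ := choose_L h20 hy3 h3
  obtain ⟨R, hR1, hR2, hR3⟩ := hA N L M' X hN1 hL2 (hM's.trans hMs) hX2
  have hRup : R ≤ X ^ (1 + ε) := by
    refine hR2.trans ?_
    rw [hM'c]
    exact R_upper hX0 hy hy0 h30 hmle ha2 h7 hL16
  refine ⟨R, hR1, hRup, ?_⟩
  have hsum := sum_lower ha0 ha1 hy0 h20 h30 hc1 hc'0 hNup hlN1 (hM's.trans hMs)
    (fun k hk => hMg k (hM's hk)) hM'c hmge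
  have herr := err_upper hC h1 h2 hN1 hNup2 hL4
  have hδ0 : 0 ≤ 3 / 4 * (kap - 1) := by
    have := kap_ge
    linarith
  have hδ1 : 3 / 4 * (kap - 1) ≤ 1 := by
    have := kap_le
    linarith
  have hGR := G_compare hε hX0 hR1 hRup hy hy2 hy3 hy0 h20 h30 h9 hδ0 hδ1
  obtain ⟨δ, hδ⟩ : ∃ δ, δ = 3 / 4 * (kap - 1) := ⟨_, rfl⟩
  have hδ' : 3 / 4 * ((2 : ℝ) ^ (1 / 3 : ℝ) - 1) = δ := by rw [hδ]; rfl
  rw [← hδ] at hsum h8 hGR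
  rw [hδ']
  obtain ⟨G, hG⟩ : ∃ G, G = y ^ (1 / 4 : ℝ) * y2 ^ δ * y3 ^ (-(5 / 8) : ℝ) := ⟨_, rfl⟩
  rw [← hG] at hsum hGR
  rw [← hc3] at hsum
  have hKG : K * y ^ (1 / 4 : ℝ) ≤ G := by
    have f1 : K ≤ y2 ^ δ * y3 ^ (-(5 / 8) : ℝ) := by
      rw [Real.rpow_neg h30.le, ← div_eq_mul_inv, le_div_iff₀ (by positivity)]
      exact h8
    calc K * y ^ (1 / 4 : ℝ) ≤ y2 ^ δ * y3 ^ (-(5 / 8) : ℝ) * y ^ (1 / 4 : ℝ) := by gcongr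
      _ = G := by rw [hG]; ring
  have hmain : Pe R ≤ √R * (-(c * c3 / 2) * G) := by
    refine hR3.trans ?_
    apply mul_le_mul_of_nonneg_left _ (Real.sqrt_nonneg _)
    have f1 : 2 * C * y ^ (1 / 4 : ℝ) = c * c3 / 2 * (K * y ^ (1 / 4 : ℝ)) := by
      rw [hK]; field_simp; ring
    have f2 : c * c3 / 2 * (K * y ^ (1 / 4 : ℝ)) ≤ c * c3 / 2 * G := by gcongr
    have f3 : c * (c3 * G) ≤ c * ∑ K ∈ M', (gr K : ℝ) * (K : ℝ) ^ (-(3 / 4) : ℝ) := by gcongr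
    linarith
  refine hmain.trans ?_
  rw [← Real.sqrt_eq_rpow]
  have f4 : c * c3 / (4 * (1 + ε)) * (Real.log R ^ (1 / 4 : ℝ) * Real.log (Real.log R) ^ δ *
      Real.log (Real.log (Real.log R)) ^ (-(5 / 8) : ℝ)) ≤ c * c3 / 2 * G := by
    calc _ ≤ c * c3 / (4 * (1 + ε)) * (2 * (1 + ε) * G) := by gcongr
      _ = c * c3 / 2 * G := by field_simp; norm_num
  have f5 := mul_le_mul_of_nonneg_left f4 (Real.sqrt_nonneg R)
  calc √R * (-(c * c3 / 2) * G) = -(√R * (c * c3 / 2 * G)) := by ring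
    _ ≤ -(√R * (c * c3 / (4 * (1 + ε)) * (Real.log R ^ (1 / 4 : ℝ) *
        Real.log (Real.log R) ^ δ * Real.log (Real.log (Real.log R)) ^ (-(5 / 8) : ℝ)))) := by
        linarith
    _ = _ := by ring

end Pool.Agent.Helper53.OM
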