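import Pool.Agent.Helper53.OM.Fin

/-!
# Final assembly, uniform form: radii in `[X, X * Y]`
-/

open Filter
open scoped Real
open Pool.Agent.Helper22.GC

namespace Pool.Agent.Helper53.OM

/-- the upper bound for `R` -/
lemma R_upper' {X Y y y3 q L : ℝ} {m : ℕ} (hX0 : 0 < X) (hY0 : 0 < Y) (hy : y = Real.log Y)
    (hy0 : 0 < y) (h30 : 0 < y3)
    (hmle : (m : ℝ) ≤ q * y / y3) (hq : 9 * q ≤ 1 / 2)
    (h7 : y3 ≤ 1 / 18 * y) (hL16 : 16 * L ^ 2 ≤ Real.exp (9 * y3)) :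
    4 * X * (16 * L ^ 2) ^ m * L ^ 2 ≤ X * Y := by
  have hYe : Y = Real.exp y := by rw [hy, Real.exp_log hY0]
  have e1 : (16 * L ^ 2) ^ m ≤ Real.exp (1 / 2 * y) := by
    calc (16 * L ^ 2) ^ m ≤ (Real.exp (9 * y3)) ^ m := by gcongr
      _ = Real.exp (m * (9 * y3)) := by rw [← Real.exp_nat_mul]
      _ ≤ Real.exp (1 / 2 * y) := by
          apply Real.exp_le_exp.2
          calc (m : ℝ) * (9 * y3) ≤ q * y / y3 * (9 * y3) := by gcongr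
            _ = 9 * q * y := by field_simp
            _ ≤ 1 / 2 * y := by gcongr
  have e2 : 4 * L ^ 2 ≤ Real.exp (1 / 2 * y) := by
    have e3 : 4 * L ^ 2 ≤ 16 * L ^ 2 := by nlinarith [sq_nonneg L]
    refine e3.trans (hL16.trans (Real.exp_le_exp.2 ?_))
    linarith
  calc 4 * X * (16 * L ^ 2) ^ m * L ^ 2
      = X * ((16 * L ^ 2) ^ m * (4 * L ^ 2)) := by ring
    _ ≤ X * (Real.exp (1 / 2 * y) * Real.exp (1 / 2 * y)) := by gcongr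
    _ = X * Y := by
        rw [hYe, ← Real.exp_add]
        ring_nf

/-- the final assembly, uniform form -/
theorem final_uniform
    (hcm : ∃ c : ℝ, 0 < c ∧ ∃ N₀ : ℕ, ∀ N : ℕ, N₀ ≤ N →
      ∃ M : Finset ℕ, M ⊆ Finset.Icc 1 N ∧
      (∀ m ∈ M, c * (Real.log N) ^ (kap * Real.log 2) ≤ gr m) ∧
      c * N * (Real.log N) ^ (-Eex) * (Real.log (Real.log N)) ^ (-(1 / 2) : ℝ) ≤ M.card)
    (han : ∃ c C : ℝ, 0 < c ∧ 0 < C ∧ ∀ (N L : ℕ) (M : Finset ℕ) (X : ℝ), 1 ≤ N →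
      2 ≤ L → M ⊆ Finset.Icc 1 N → 2 ≤ X →
      ∃ R : ℝ, X ≤ R ∧ R ≤ 4 * X * (16 * (L : ℝ) ^ 2) ^ M.card * (L : ℝ) ^ 2 ∧
      Pe R ≤ √R * (C + C * (N : ℝ) ^ (1 / 4 : ℝ) / √L
        - c * ∑ K ∈ M, (gr K : ℝ) * (K : ℝ) ^ (-(3 / 4) : ℝ))) :
    ∃ c : ℝ, 0 < c ∧ ∃ Y₀ : ℝ, ∀ X Y : ℝ, 2 ≤ X → Y₀ ≤ Y →
    ∃ R : ℝ, X ≤ R ∧ R ≤ X * Y ∧
      Pe R ≤ -c * R ^ (1 / 2 : ℝ) * (Real.log Y) ^ (1 / 4 : ℝ) *
        (Real.log (Real.log Y)) ^ (3 / 4 * ((2 : ℝ) ^ (1 / 3 : ℝ) - 1)) *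
        (Real.log (Real.log (Real.log Y))) ^ (-(5 / 8) : ℝ) := by
  obtain ⟨c1, hc1, N₀, hM⟩ := hcm
  obtain ⟨c, C, hc, hC, hA⟩ := han
  obtain ⟨c', hc'⟩ : ∃ c', c' = c1 / 8 := ⟨_, rfl⟩
  have hc'0 : 0 < c' := by rw [hc']; positivity
  obtain ⟨a, ha0, ha1, ha2⟩ : ∃ a : ℝ, 0 < a ∧ a ≤ 1 ∧ 9 * (c' * a) ≤ 1 / 2 := by
    refine ⟨min 1 (1 / (18 * c')), by positivity, min_le_left _ _, ?_⟩
    have h1 : min 1 (1 / (18 * c')) ≤ 1 / (18 * c') := min_le_right _ _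
    rw [le_div_iff₀ (by positivity)] at h1
    linarith
  obtain ⟨c3, hc3⟩ : ∃ c3, c3 = c' * a * c1 / 4 := ⟨_, rfl⟩
  have hc30 : 0 < c3 := by rw [hc3]; positivity
  obtain ⟨K, hK⟩ : ∃ K, K = 4 * C / (c * c3) := ⟨_, rfl⟩
  obtain ⟨Y₀, hY₀⟩ := eventually_atTop.1 (eventually_params a K 1 c' N₀ ha0 one_pos hc'0)
  refine ⟨c * c3 / 2, by positivity, Y₀, fun X Y hX2 hY => ?_⟩
  have hY₀' := hY₀ Y hY
  clear hY₀
  obtain ⟨y, hy⟩ : ∃ y, y = Real.log Y := ⟨_, rfl⟩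
  obtain ⟨y2, hy2⟩ : ∃ y2, y2 = Real.log y := ⟨_, rfl⟩
  obtain ⟨y3, hy3⟩ : ∃ y3, y3 = Real.log y2 := ⟨_, rfl⟩
  rw [← hy, ← hy2, ← hy3] at hY₀'
  obtain ⟨hY2, h1, h2, h3, h4, h5, h6, h7, h8, -⟩ := hY₀'
  have hy0 : 0 < y := by linarith
  have h20 : 0 < y2 := by linarith
  have h30 : 0 < y3 := by linarith
  have hX0 : 0 < X := by linarith
  have hY0 : 0 < Y := by linarith
  obtain ⟨N, hN0, hN1, hNlo, hNup, hNup2, hlN1, hlN2, hll0, hll1⟩ :=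
    choose_N ha0 ha1 h1 hy2 hy3 h3 h2 h4 h5
  obtain ⟨M, hMs, hMg, hMc⟩ := hM N hN0
  have hMcard : c' * a * y / y3 ≤ M.card := by
    rw [hc']
    exact (card_lower ha0 hy0 h20 h30 hc1 hNlo (by linarith) hlN2 hll0 hll1).trans hMc
  have hu1 : 1 ≤ c' * a * y / y3 := by rw [le_div_iff₀ h30]; linarith
  obtain ⟨m, hmle, hmge⟩ : ∃ m : ℕ, (m : ℝ) ≤ c' * a * y / y3 ∧ c' * a * y / y3 / 2 ≤ m := by
    refine ⟨⌊c' * a * y / y3⌋₊, Nat.floor_le (by positivity), ?_⟩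
    have e1 := Nat.lt_floor_add_one (c' * a * y / y3)
    have e2 : 1 ≤ ⌊c' * a * y / y3⌋₊ := Nat.le_floor (by simpa using hu1)
    have e3 : (1 : ℝ) ≤ ⌊c' * a * y / y3⌋₊ := by exact_mod_cast e2
    linarith
  obtain ⟨M', hM's, hM'c⟩ := Finset.exists_subset_card_eq (s := M) (n := m)
    (by exact_mod_cast hmle.trans hMcard)
  obtain ⟨L, hL2, hL4, hL16⟩ := choose_L h20 hy3 h3
  obtain ⟨R, hR1, hR2, hR3⟩ := hA N L M' X hN1 hL2 (hM's.trans hMs) hX2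
  have hRup : R ≤ X * Y := by
    refine hR2.trans ?_
    rw [hM'c]
    exact R_upper' hX0 hY0 hy hy0 h30 hmle ha2 h7 hL16
  refine ⟨R, hR1, hRup, ?_⟩
  have hsum := sum_lower ha0 ha1 hy0 h20 h30 hc1 hc'0 hNup hlN1 (hM's.trans hMs)
    (fun k hk => hMg k (hM's hk)) hM'c hmge
  have herr := err_upper hC h1 h2 hN1 hNup2 hL4
  obtain ⟨δ, hδ⟩ : ∃ δ, δ = 3 / 4 * (kap - 1) := ⟨_, rfl⟩
  have hδ' : 3 / 4 * ((2 : ℝ) ^ (1 / 3 : ℝ) - 1) = δ := by rw [hδ]; rfl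
  rw [← hδ] at hsum h8
  rw [hδ', ← hy, ← hy2, ← hy3]
  obtain ⟨G, hG⟩ : ∃ G, G = y ^ (1 / 4 : ℝ) * y2 ^ δ * y3 ^ (-(5 / 8) : ℝ) := ⟨_, rfl⟩
  rw [← hG] at hsum
  rw [← hc3] at hsum
  have hKG : K * y ^ (1 / 4 : ℝ) ≤ G := by
    have f1 : K ≤ y2 ^ δ * y3 ^ (-(5 / 8) : ℝ) := by
      rw [Real.rpow_neg h30.le, ← div_eq_mul_inv, le_div_iff₀ (by positivity)]
      exact h8
    calc K * y ^ (1 / 4 : ℝ) ≤ y2 ^ δ * y3 ^ (-(5 / 8) : ℝ) * y ^ (1 / 4 : ℝ) := by gcongr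
      _ = G := by rw [hG]; ring
  have hmain : Pe R ≤ √R * (-(c * c3 / 2) * G) := by
    refine hR3.trans ?_
    apply mul_le_mul_of_nonneg_left _ (Real.sqrt_nonneg _)
    have f1 : 2 * C * y ^ (1 / 4 : ℝ) = c * c3 / 2 * (K * y ^ (1 / 4 : ℝ)) := by
      rw [hK]; field_simp; ring
    have f2 : c * c3 / 2 * (K * y ^ (1 / 4 : ℝ)) ≤ c * c3 / 2 * G := by gcongr
    have f3 : c * (c3 * G) ≤ c * ∑ K ∈ M', (gr K : ℝ) * (K : ℝ) ^ (-(3 / 4) : ℝ) := by gcongr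
    linarith
  refine hmain.trans (le_of_eq ?_)
  rw [← Real.sqrt_eq_rpow, hG]
  ring

end Pool.Agent.Helper53.OM
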